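import Pool.Agent.H7.L.W398_SM_T3

/-!
# Kernels of matrices of polynomials after specialisation
-/

set_option autoImplicit false
set_option linter.unusedSectionVars false

namespace Pool.Agent.H7.RC

open Finset Module Pool.Agent.W907.SM
open scoped Matrix

section sel

variable {F ι : Type} [Field F] [Fintype ι]

/-- a subspace is determined by a set of coordinates of the size of the dimension -/
theorem coord_sel : ∀ (n : ℕ) (N : Submodule F (ι → F)), finrank F N ≤ n →
    ∃ I : Finset ι, I.card ≤ n ∧ ∀ x ∈ N, (∀ i ∈ I, x i = 0) → x = 0 := by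
  classical
  intro n
  induction n with
  | zero =>
    intro N hN
    refine ⟨∅, by simp, fun x hx _ => ?_⟩
    have h1 : N = ⊥ := Submodule.finrank_eq_zero.mp (Nat.le_zero.mp hN)
    rw [h1] at hx
    exact (Submodule.mem_bot F).mp hx
  | succ n ih =>
    intro N hN
    by_cases h0 : N = ⊥
    · refine ⟨∅, by simp, fun x hx _ => ?_⟩
      rw [h0] at hx
      exact (Submodule.mem_bot F).mp hx
    · obtain ⟨x, hx, hx0⟩ := (Submodule.ne_bot_iff N).mp h0
      obtain ⟨i, hi⟩ := Function.ne_iff.mp hx0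
      set N' : Submodule F (ι → F) := N ⊓ LinearMap.ker (LinearMap.proj i : (ι → F) →ₗ[F] F) with hN'
      have hlt : finrank F N' < finrank F N := by
        refine Submodule.finrank_lt_finrank_of_lt ?_
        refine lt_of_le_of_ne inf_le_left ?_
        intro h
        have h2 : x ∈ N' := h ▸ hx
        exact hi h2.2
      obtain ⟨I, hI, hI2⟩ := ih N' (by omega)
      refine ⟨insert i I, (card_insert_le _ _).trans (by omega), fun y hy h => ?_⟩
      refine hI2 y ⟨hy, ?_⟩ fun j hj => h j (mem_insert_of_mem hj)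
      exact h i (mem_insert_self i I)

end sel

section main

variable {J rows cols : Type} [Fintype rows] [Fintype cols]

/-- the generic point of characteristic two -/
noncomputable def φ2 (J : Type) : MvPolynomial J ℤ →+* FractionRing (MvPolynomial J (ZMod 2)) :=
  (algebraMap (MvPolynomial J (ZMod 2)) (FractionRing (MvPolynomial J (ZMod 2)))).comp
    (MvPolynomial.map (Int.castRingHom (ZMod 2)))

theorem left_inv [DecidableEq cols] (D : Matrix rows cols (MvPolynomial J ℤ))
    (hinj : ∀ x : cols → FractionRing (MvPolynomial J (ZMod 2)), (D.map (φ2 J)) *ᵥ x = 0 → x = 0) :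
    ∃ f : MvPolynomial J ℤ, f ≠ 0 ∧ ∀ (R : Type) [CommRing R] (ψ : MvPolynomial J ℤ →+* R) (x : cols → R),
      (D.map ψ) *ᵥ x = 0 → ∀ c, ψ f * x c = 0 := by
  classical
  set K := FractionRing (MvPolynomial J (ZMod 2)) with hK
  obtain ⟨g, hg⟩ := LinearMap.exists_leftInverse_of_injective (Matrix.mulVecLin (D.map (φ2 J)))
    (LinearMap.ker_eq_bot'.mpr hinj)
  set E2 : Matrix cols rows K := LinearMap.toMatrix' g with hE2
  have hE : E2 * (D.map (φ2 J)) = 1 := by
    have h1 : LinearMap.toMatrix' (g ∘ₗ Matrix.mulVecLin (D.map (φ2 J))) = 1 := by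
      rw [hg, LinearMap.toMatrix'_id]
    rw [LinearMap.toMatrix'_comp] at h1
    have h2 : LinearMap.toMatrix' (Matrix.mulVecLin (D.map (φ2 J))) = D.map (φ2 J) :=
      LinearMap.toMatrix'_toLin' _
    rw [h2] at h1
    exact h1
  -- clear denominators
  obtain ⟨h, hh⟩ := IsLocalization.exist_integer_multiples (nonZeroDivisors (MvPolynomial J (ZMod 2)))
    (univ : Finset (cols × rows)) (fun q => E2 q.1 q.2)
  have hh' : ∀ c r, ∃ e : MvPolynomial J (ZMod 2), algebraMap _ K e = (h : MvPolynomial J (ZMod 2)) • E2 c r := by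
    intro c r
    obtain ⟨e, he⟩ := hh (c, r) (mem_univ _)
    exact ⟨e, he⟩
  choose E0 hE0 using hh'
  have hsurj : Function.Surjective (MvPolynomial.map (Int.castRingHom (ZMod 2)) :
      MvPolynomial J ℤ →+* MvPolynomial J (ZMod 2)) :=
    MvPolynomial.map_surjective _ (ZMod.intCast_surjective)
  choose lift hlift using hsurj
  set E : Matrix cols rows (MvPolynomial J ℤ) := Matrix.of fun c r => lift (E0 c r) with hEdef
  set M : Matrix cols cols (MvPolynomial J ℤ) := E * D with hM
  have hMK : M.map (φ2 J) = (algebraMap _ K (h : MvPolynomial J (ZMod 2))) • (1 : Matrix cols cols K) := by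
    have h1 : M.map (φ2 J) = (E.map (φ2 J)) * (D.map (φ2 J)) := Matrix.map_mul
    have h2 : E.map (φ2 J) = (algebraMap _ K (h : MvPolynomial J (ZMod 2))) • E2 := by
      ext c r
      rw [Matrix.map_apply, Matrix.smul_apply, hEdef, Matrix.of_apply]
      show algebraMap _ K (MvPolynomial.map (Int.castRingHom (ZMod 2)) (lift (E0 c r))) = _
      rw [hlift, hE0, Algebra.smul_def]
      rfl
    rw [h1, h2, Matrix.smul_mul, hE]
  refine ⟨M.det, ?_, ?_⟩
  · intro h0
    have h1 : (M.map (φ2 J)).det = 0 := by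
      have := RingHom.map_det (φ2 J) M
      rw [h0, map_zero] at this
      exact this.symm
    rw [hMK, Matrix.det_smul, Matrix.det_one, mul_one] at h1
    by_cases hc : Fintype.card cols = 0
    · rw [hc, pow_zero] at h1
      exact one_ne_zero h1
    · have h3 := (pow_eq_zero_iff hc).mp h1
      have h4 : (h : MvPolynomial J (ZMod 2)) = 0 := by
        refine (IsFractionRing.injective (MvPolynomial J (ZMod 2)) K) ?_
        rw [map_zero]
        exact h3
      exact nonZeroDivisors.ne_zero h.2 h4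
  · intro R _ ψ x hx c
    have h1 : (M.map ψ) *ᵥ x = 0 := by
      have : M.map ψ = (E.map ψ) * (D.map ψ) := Matrix.map_mul
      rw [this, ← Matrix.mulVec_mulVec, hx, Matrix.mulVec_zero]
    have h2 : (M.map ψ).adjugate *ᵥ ((M.map ψ) *ᵥ x) = 0 := by rw [h1, Matrix.mulVec_zero]
    rw [Matrix.mulVec_mulVec, Matrix.adjugate_mul] at h2
    have h3 : (M.map ψ).det = ψ M.det := (RingHom.map_det ψ M).symm
    rw [h3, Matrix.smul_mulVec, Matrix.one_mulVec] at h2
    exact congrFun h2 c

/-- with a set of coordinates -/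
theorem left_inv_sel [DecidableEq cols] (D : Matrix rows cols (MvPolynomial J ℤ)) (I : Finset cols)
    (hinj : ∀ x : cols → FractionRing (MvPolynomial J (ZMod 2)), (∀ i ∈ I, x i = 0) →
      (D.map (φ2 J)) *ᵥ x = 0 → x = 0) :
    ∃ f : MvPolynomial J ℤ, f ≠ 0 ∧ ∀ (R : Type) [CommRing R] (ψ : MvPolynomial J ℤ →+* R) (x : cols → R),
      (∀ i ∈ I, x i = 0) → (D.map ψ) *ᵥ x = 0 → ∀ c, ψ f * x c = 0 := by
  classical
  obtain ⟨D1, hD1⟩ : ∃ D1 : Matrix (rows ⊕ I) cols (MvPolynomial J ℤ), ∀ r c, D1 r c =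
    Sum.elim (fun r => D r c) (fun i => if c = i.1 then 1 else 0) r := ⟨fun r c => _, fun _ _ => rfl⟩
  have hmv : ∀ (R : Type) [CommRing R] (ψ : MvPolynomial J ℤ →+* R) (x : cols → R),
      (D1.map ψ) *ᵥ x = 0 ↔ ((∀ i ∈ I, x i = 0) ∧ (D.map ψ) *ᵥ x = 0) := by
    intro R _ ψ x
    have e1 : ∀ r, ((D1.map ψ) *ᵥ x) (Sum.inl r) = ((D.map ψ) *ᵥ x) r := by
      intro r
      simp only [Matrix.mulVec, dotProduct, Matrix.map_apply, hD1, Sum.elim_inl]
    have e2 : ∀ i : I, ((D1.map ψ) *ᵥ x) (Sum.inr i) = x i.1 := by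
      intro i
      simp only [Matrix.mulVec, dotProduct, Matrix.map_apply, hD1, Sum.elim_inr]
      rw [sum_eq_single i.1]
      · simp
      · intro b _ hb
        rw [if_neg hb, map_zero, zero_mul]
      · intro h; exact absurd (mem_univ _) h
    constructor
    · intro h
      refine ⟨fun i hi => ?_, ?_⟩
      · rw [← e2 ⟨i, hi⟩, h]; rfl
      · funext r
        rw [← e1, h]; rfl
    · rintro ⟨h1, h2⟩
      funext r
      rcases r with r | i
      · rw [e1, h2]; rfl
      · rw [e2, h1 i.1 i.2]; rfl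
  obtain ⟨f, hf, h⟩ := left_inv D1 (fun x hx => by
    obtain ⟨h1, h2⟩ := (hmv _ (φ2 J) x).mp hx
    exact hinj x h1 h2)
  exact ⟨f, hf, fun R _ ψ x h1 h2 => h R ψ x ((hmv R ψ x).mpr ⟨h1, h2⟩)⟩

/-- the bound for the kernel over a truncated polynomial ring -/
theorem ker_bound [DecidableEq cols] {p : ℕ} [Fact p.Prime] (n : ℕ) (f : MvPolynomial J ℤ)
    (s : J → Polynomial (ZMod p)) (hs : MvPolynomial.aeval s f ≠ 0) (I : Finset cols)
    (Z : Submodule (ZMod p) (cols → ON p n))
    (hZ : ∀ x ∈ Z, (∀ i ∈ I, x i = 0) →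
      ∀ c, MvPolynomial.aeval (fun j => (Ideal.Quotient.mk _ (s j) : ON p n)) f * x c = 0) :
    finrank (ZMod p) Z ≤ I.card * n + Fintype.card cols * (MvPolynomial.aeval s f).natDegree := by
  classical
  have hfd0 : FiniteDimensional (ZMod p) (ON p n) := (Polynomial.monic_X_pow n).finite_quotient
  have hfr0 : finrank (ZMod p) (ON p n) = n := by
    have := finrank_quotient_span_eq_natDegree (f := (Polynomial.X : Polynomial (ZMod p)) ^ n)
    rw [Polynomial.natDegree_X_pow] at this
    exact this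
  set g : Polynomial (ZMod p) := MvPolynomial.aeval s f with hg
  have haev : MvPolynomial.aeval (fun j => (Ideal.Quotient.mk _ (s j) : ON p n)) f = Ideal.Quotient.mk _ g :=
    Pool.Agent.W398.SM.T3.aeval_hom (Ideal.Quotient.mk (Ideal.span {(Polynomial.X : Polynomial (ZMod p)) ^ n}))
      s f
  set m : ON p n →ₗ[ZMod p] ON p n := LinearMap.mulLeft (ZMod p) (Ideal.Quotient.mk _ g : ON p n) with hm
  let r : Z →ₗ[ZMod p] (I → ON p n) :=
    { toFun := fun x i => x.1 i.1
      map_add' := fun _ _ => rfl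
      map_smul' := fun _ _ => rfl }
  have h1 := LinearMap.finrank_range_add_finrank_ker r
  have h2 : finrank (ZMod p) (LinearMap.range r) ≤ I.card * n := by
    refine (Submodule.finrank_le _).trans ?_
    rw [finrank_pi_fintype]
    simp only [hfr0, sum_const, smul_eq_mul, card_univ, Fintype.card_coe]
    exact le_refl _
  let κ : LinearMap.ker r →ₗ[ZMod p] (cols → LinearMap.ker m) :=
    { toFun := fun x c => ⟨x.1.1 c, by
        rw [LinearMap.mem_ker]
        have h3 := hZ x.1.1 x.1.2 (fun i hi => congrFun (LinearMap.mem_ker.mp x.2) ⟨i, hi⟩) c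
        rw [haev] at h3
        exact h3⟩
      map_add' := fun _ _ => rfl
      map_smul' := fun _ _ => rfl }
  have hκ : Function.Injective κ := by
    intro x y h
    apply Subtype.ext
    apply Subtype.ext
    funext c
    exact congrArg Subtype.val (congrFun h c)
  have h4 := LinearMap.finrank_le_finrank_of_injective hκ
  rw [finrank_pi_fintype] at h4
  simp only [sum_const, smul_eq_mul, card_univ] at h4
  have h5 : finrank (ZMod p) (LinearMap.ker m) ≤ g.natDegree := Pool.Agent.W398.SM.T3.ker_le n g hs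
  have h6 : Fintype.card cols * finrank (ZMod p) (LinearMap.ker m) ≤ Fintype.card cols * g.natDegree :=
    Nat.mul_le_mul_left _ h5
  omega

end main

end Pool.Agent.H7.RC
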