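import Pool.Agent.H7.RC.Gen

/-!
# The dimension of the space of the generic solutions
-/

set_option autoImplicit false
set_option linter.unusedSectionVars false

namespace Pool.Agent.H7.RC

open Finset Module Pool.Agent.W907.SM Pool.Agent.W907.SG Pool.Agent.R782.Bal

section orbits

variable {V : Type} [Fintype V] [DecidableEq V] {M : ℕ} {G : SimpleGraph V}

theorem gg_flip {v v' : V} (hne : v' ≠ v) (hadj : ¬ G.Adj v v') (κ κ' : QQ V M)
    (h : ∀ u, u ≠ v → u ≠ v' → κ' u = κ u) (h' : (κ' v').1 = !(κ v').1) :
    gg G v κ' = gg G v κ + (if (κ v').1 then -1 else 1) := by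
  classical
  have hmem : v' ∈ univ.filter (fun u => u ≠ v ∧ ¬ G.Adj v u) := by
    rw [mem_filter]; exact ⟨mem_univ _, hne, hadj⟩
  rw [gg, gg, ← add_sum_erase _ _ hmem, ← add_sum_erase _ _ hmem]
  have e : ∑ u ∈ (univ.filter (fun u => u ≠ v ∧ ¬ G.Adj v u)).erase v', (if (κ' u).1 then (1 : ZMod M) else 0) =
      ∑ u ∈ (univ.filter (fun u => u ≠ v ∧ ¬ G.Adj v u)).erase v', (if (κ u).1 then (1 : ZMod M) else 0) := by
    refine sum_congr rfl fun u hu => ?_
    rw [mem_erase, mem_filter] at hu
    rw [h u hu.2.2.1 hu.1]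
  rw [e, h']
  cases (κ v').1
  · simp only [Bool.not_false, if_true, Bool.false_eq_true, if_false]; ring
  · simp only [Bool.not_true, if_true, Bool.false_eq_true, if_false]; ring

/-- four moves -/
noncomputable def four (G : SimpleGraph V) (v v' : V) (κ : QQ V M) : QQ V M :=
  mv G v' (mv G v (mv G v' (mv G v κ)))

theorem four_spec {v v' : V} (hne : v' ≠ v) (hadj : ¬ G.Adj v v') (κ : QQ V M) :
    (four G v v' κ v).1 = (κ v).1 ∧ (four G v v' κ v').1 = (κ v').1 ∧
    (four G v v' κ v).2 = (κ v).2 + (if (κ v).1 = (κ v').1 then -1 else 1) := by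
  have h1 : (mv G v κ v).1 = !(κ v).1 := mv_sgn v κ
  have h1' : mv G v κ v' = κ v' := mv_ne hne κ
  have h2 : mv G v' (mv G v κ) v = mv G v κ v := mv_ne hne.symm _
  have h2' : (mv G v' (mv G v κ) v').1 = !(κ v').1 := by rw [mv_sgn, h1']
  have hg : gg G v (mv G v' (mv G v κ)) = gg G v κ + (if (κ v').1 then -1 else 1) := by
    refine gg_flip hne hadj κ _ ?_ h2'
    intro u hu hu'
    rw [mv_ne hu', mv_ne hu]
  have h3 : (mv G v (mv G v' (mv G v κ)) v) = (!(mv G v κ v).1, (mv G v κ v).2 +
      if (mv G v κ v).1 then - gg G v (mv G v' (mv G v κ)) else gg G v (mv G v' (mv G v κ))) := by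
    rw [mv_self, h2]
  have h3' : mv G v (mv G v' (mv G v κ)) v' = mv G v' (mv G v κ) v' := mv_ne hne _
  refine ⟨?_, ?_, ?_⟩
  · rw [four, mv_ne hne.symm, h3]
    simp only [h1, Bool.not_not]
  · rw [four, mv_sgn, h3', h2', Bool.not_not]
  · rw [four, mv_ne hne.symm, h3, hg]
    simp only [h1]
    rw [mv_self]
    cases hs : (κ v).1 <;> cases hs' : (κ v').1 <;> simp <;> ring

theorem four_iter {v v' : V} (hne : v' ≠ v) (hadj : ¬ G.Adj v v') (κ : QQ V M) (j : ℕ) :
    ((four G v v')^[j] κ v).1 = (κ v).1 ∧ ((four G v v')^[j] κ v').1 = (κ v').1 ∧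
    ((four G v v')^[j] κ v).2 = (κ v).2 + j * (if (κ v).1 = (κ v').1 then -1 else 1) := by
  induction j with
  | zero => simp
  | succ j ih =>
    rw [Function.iterate_succ_apply']
    obtain ⟨h1, h2, h3⟩ := four_spec hne hadj ((four G v v')^[j] κ)
    obtain ⟨i1, i2, i3⟩ := ih
    refine ⟨h1.trans i1, h2.trans i2, ?_⟩
    rw [h3, i1, i2, i3]
    push_cast
    ring

/-- an orbit meets the set where the second coordinate is zero -/
theorem orbit_zero [NeZero M] {v v' : V} (hne : v' ≠ v) (hadj : ¬ G.Adj v v') (κ : QQ V M) {W : Type} :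
    ∃ κ0 : QQ V M, (κ0 v).2 = 0 ∧ ∀ f : QQ V M → W, (∀ κ, f (mv G v κ) = f κ) → (∀ κ, f (mv G v' κ) = f κ) →
      f κ = f κ0 := by
  obtain ⟨e, he⟩ : ∃ e : ZMod M, e = if (κ v).1 = (κ v').1 then -1 else 1 := ⟨_, rfl⟩
  have hee : e * e = 1 := by rw [he]; split_ifs <;> ring
  obtain ⟨_, _, h3⟩ := four_iter hne hadj κ (-((κ v).2 * e)).val
  refine ⟨(four G v v')^[(-((κ v).2 * e)).val] κ, ?_, ?_⟩
  · rw [h3, ZMod.natCast_val, ZMod.cast_id', id, ← he]
    linear_combination (-(κ v).2) * hee
  · intro f h1 h2
    have h4 : ∀ κ, f (four G v v' κ) = f κ := by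
      intro κ
      rw [four, h2, h1, h2, h1]
    have h5 : ∀ j κ, f ((four G v v')^[j] κ) = f κ := by
      intro j
      induction j with
      | zero => intro κ; rfl
      | succ j ih => intro κ; rw [Function.iterate_succ_apply', h4, ih]
    rw [h5]

theorem card_zero [NeZero M] (v : V) :
    Fintype.card {κ : QQ V M // (κ v).2 = 0} * M = Fintype.card (QQ V M) := by
  have e : QQ V M ≃ {κ : QQ V M // (κ v).2 = 0} × ZMod M :=
    { toFun := fun κ => (⟨Function.update κ v ((κ v).1, 0), by rw [Function.update_self]⟩, (κ v).2)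
      invFun := fun a => Function.update a.1.1 v ((a.1.1 v).1, a.2)
      left_inv := by
        intro κ
        simp only [Function.update_self, Function.update_idem]
        rw [Prod.mk.eta, Function.update_eq_self]
      right_inv := by
        rintro ⟨⟨κ, h⟩, y⟩
        simp only [Function.update_self, Function.update_idem]
        refine Prod.ext ?_ rfl
        refine Subtype.ext ?_
        simp only
        rw [← h, Prod.mk.eta, Function.update_eq_self] }
  rw [Fintype.card_congr e, Fintype.card_prod, ZMod.card]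

end orbits

section bound

variable {V : Type} [Fintype V] [LinearOrder V] {M m : ℕ} [NeZero M]

/-- every nonempty family of `m`-cliques which meet `T` has a member `σ` and a vertex `v` of `σ` such that `σ` is the
only member which contains `σ \ v`, or `v ∈ T` and there is exactly one other member with this property -/
def Thin (G : SimpleGraph V) (T : Set V) (m : ℕ) : Prop :=
  ∀ F : Finset (Finset V), F.Nonempty →
    (∀ σ ∈ F, G.IsClique (σ : Set V) ∧ σ.card = m ∧ ∃ t ∈ σ, t ∈ T) →
    ∃ σ ∈ F, ∃ v ∈ σ, (F.filter (fun τ => σ.erase v ⊆ τ)).card = 1 ∨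
      (v ∈ T ∧ (F.filter (fun τ => σ.erase v ⊆ τ)).card = 2)

/-- solutions supported on the family `F` -/
def ZF (G : SimpleGraph V) (T : Set V) (col : V → Fin m) (M : ℕ) [NeZero M] (F : Finset (Finset V)) :
    Submodule (K2 V M) (Cols V M m → K2 V M) where
  carrier := {x | Lop G T col (sgen V M) x = 0 ∧ ∀ σ, σ ∉ F → ∀ κ ε, x (σ, κ, ε) = 0}
  add_mem' := by
    rintro x y ⟨h1, h2⟩ ⟨h3, h4⟩
    refine ⟨by rw [map_add, h1, h3, add_zero], fun σ hσ κ ε => ?_⟩
    rw [Pi.add_apply, h2 σ hσ, h4 σ hσ, add_zero]
  zero_mem' := ⟨map_zero _, fun _ _ _ _ => rfl⟩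
  smul_mem' := by
    rintro a x ⟨h1, h2⟩
    refine ⟨by rw [map_smul, h1, smul_zero], fun σ hσ κ ε => ?_⟩
    rw [Pi.smul_apply, h2 σ hσ, smul_zero]

theorem ZF_bound {G : SimpleGraph V} {T : Set V} {col : V → Fin m} (hT : Thin G T m)
    (hdim : ∀ σ : Finset V, G.IsClique (σ : Set V) → σ.card ≤ m) :
    ∀ (n : ℕ) (F : Finset (Finset V)), F.card = n →
    (∀ σ ∈ F, G.IsClique (σ : Set V) ∧ σ.card = m ∧ ∃ t ∈ σ, t ∈ T) →
    finrank (K2 V M) (ZF G T col M F) * M ≤ n * (Fintype.card (QQ V M) * 2 ^ m) := by
  classical
  have : CharP (MvPolynomial (V × QQ V M) (ZMod 2)) 2 := inferInstance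
  have : CharP (K2 V M) 2 := inferInstance
  intro n
  induction n with
  | zero =>
    intro F hF _
    rw [card_eq_zero] at hF
    subst hF
    have : ZF G T col M ∅ = ⊥ := by
      rw [eq_bot_iff]
      rintro x ⟨_, h2⟩
      rw [Submodule.mem_bot]
      funext ⟨σ, κ, ε⟩
      exact h2 σ (notMem_empty σ) κ ε
    rw [this, finrank_bot]
    simp
  | succ n ih =>
    intro F hF hFc
    obtain ⟨σ, hσ, v, hv, hcase⟩ := hT F (card_pos.mp (by omega)) hFc
    obtain ⟨hσc, hσm, _⟩ := hFc σ hσ
    -- evaluation at `σ`
    let ev : ZF G T col M F →ₗ[K2 V M] (QQ V M → (Fin m → Bool) → K2 V M) :=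
      { toFun := fun x κ ε => x.1 (σ, κ, ε)
        map_add' := fun _ _ => rfl
        map_smul' := fun _ _ => rfl }
    have h1 := LinearMap.finrank_range_add_finrank_ker ev
    have h2 : finrank (K2 V M) (LinearMap.ker ev) ≤ finrank (K2 V M) (ZF G T col M (F.erase σ)) := by
      let j : LinearMap.ker ev →ₗ[K2 V M] ZF G T col M (F.erase σ) :=
        { toFun := fun x => ⟨x.1.1, x.1.2.1, by
            intro τ hτ κ ε
            by_cases h : τ = σ
            · subst h
              exact congrFun (congrFun (LinearMap.mem_ker.mp x.2) κ) ε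
            · exact x.1.2.2 τ (fun h3 => hτ (mem_erase.mpr ⟨h, h3⟩)) κ ε⟩
          map_add' := fun _ _ => rfl
          map_smul' := fun _ _ => rfl }
      refine LinearMap.finrank_le_finrank_of_injective (f := j) ?_
      intro x y h
      apply Subtype.ext
      apply Subtype.ext
      exact congrArg (fun z : ZF G T col M (F.erase σ) => z.1) h
    have h3 := ih (F.erase σ) (by rw [card_erase_of_mem hσ, hF]; rfl)
      (fun τ hτ => hFc τ (mem_of_mem_erase hτ))
    -- the cycle condition
    have hcyc : ∀ x : ZF G T col M F, ∀ κ ε, ∑ u ∈ (σ.erase v)ᶜ, x.1 (insert u (σ.erase v), κ, ε) = 0 := by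
      intro x κ ε
      have h4 := ((Lop_iff G T col (sgen V M) x.1).mp x.2.1).cyc (σ.erase v) κ ε
      rw [← h4]
      exact sum_congr rfl fun u _ => (sg_smul (K := K2 V M) u _ _).symm
    have hvc : v ∈ (σ.erase v)ᶜ := mem_compl.mpr (notMem_erase v σ)
    have hrange : finrank (K2 V M) (LinearMap.range ev) * M ≤ Fintype.card (QQ V M) * 2 ^ m := by
      rcases hcase with hone | ⟨hvT, htwo⟩
      · have hz : ev = 0 := by
          ext x κ ε
          show x.1 (σ, κ, ε) = 0
          have h5 := hcyc x κ ε
          rw [sum_eq_single v] at h5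
          · rw [insert_erase hv] at h5
            exact h5
          · intro u hu huv
            refine x.2.2 _ ?_ κ ε
            intro h6
            obtain ⟨a, ha⟩ := card_eq_one.mp hone
            have h7 : σ ∈ F.filter (fun τ => σ.erase v ⊆ τ) := mem_filter.mpr ⟨hσ, erase_subset v σ⟩
            have h8 : insert u (σ.erase v) ∈ F.filter (fun τ => σ.erase v ⊆ τ) :=
              mem_filter.mpr ⟨h6, subset_insert _ _⟩
            rw [ha, mem_singleton] at h7 h8
            have h9 : u ∈ σ := by rw [h7, ← h8]; exact mem_insert_self _ _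
            exact (mem_compl.mp hu) (mem_erase.mpr ⟨huv, h9⟩)
          · intro h; exact absurd hvc h
        rw [hz, LinearMap.range_zero, finrank_bot]
        simp
      · -- the other member
        obtain ⟨v', hv', hv'v, hσ'⟩ : ∃ v', v' ∉ σ.erase v ∧ v' ≠ v ∧ insert v' (σ.erase v) ∈ F ∧
            ∀ u, u ∉ σ.erase v → u ≠ v → u ≠ v' → insert u (σ.erase v) ∉ F := by
          have h7 : σ ∈ F.filter (fun τ => σ.erase v ⊆ τ) := mem_filter.mpr ⟨hσ, erase_subset v σ⟩
          have h8 : ((F.filter (fun τ => σ.erase v ⊆ τ)).erase σ).card = 1 := by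
            rw [card_erase_of_mem h7, htwo]
          obtain ⟨τ, hτ⟩ := card_eq_one.mp h8
          have h9 : τ ∈ (F.filter (fun τ => σ.erase v ⊆ τ)).erase σ := by rw [hτ]; exact mem_singleton_self τ
          rw [mem_erase, mem_filter] at h9
          obtain ⟨h10, h11, h12⟩ := h9
          have h13 : (τ \ σ.erase v).card = 1 := by
            rw [card_sdiff_of_subset h12, card_erase_of_mem hv, hσm, (hFc τ h11).2.1]
            have : 0 < m := by rw [← hσm]; exact card_pos.mpr ⟨v, hv⟩
            omega
          obtain ⟨v', hv'⟩ := card_eq_one.mp h13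
          have h14 : v' ∈ τ \ σ.erase v := by rw [hv']; exact mem_singleton_self v'
          rw [mem_sdiff] at h14
          have h15 : insert v' (σ.erase v) = τ := by
            rw [← sdiff_union_of_subset h12, hv', insert_eq]
          refine ⟨v', h14.2, ?_, h15 ▸ h11, ?_⟩
          · rintro rfl
            exact h10 (by rw [← h15, insert_erase hv])
          · intro u hu huv huv' h16
            have h17 : insert u (σ.erase v) ∈ (F.filter (fun τ => σ.erase v ⊆ τ)).erase σ := by
              rw [mem_erase, mem_filter]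
              refine ⟨?_, h16, subset_insert _ _⟩
              intro h18
              have : u ∈ σ := by rw [← h18]; exact mem_insert_self _ _
              exact hu (mem_erase.mpr ⟨huv, this⟩)
            rw [hτ, mem_singleton, ← h15] at h17
            have : u ∈ insert v' (σ.erase v) := by rw [← h17]; exact mem_insert_self _ _
            rcases mem_insert.mp this with h19 | h19
            · exact huv' h19
            · exact hu h19
        obtain ⟨hσ'F, hother⟩ := hσ'
        obtain ⟨hσ'c, hσ'm, _⟩ := hFc _ hσ'F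
        have hnadj : ¬ G.Adj v v' := by
          intro hadj
          have hcl : G.IsClique ((insert v (insert v' (σ.erase v)) : Finset V) : Set V) := by
            rw [coe_insert, SimpleGraph.isClique_insert]
            refine ⟨hσ'c, ?_⟩
            intro b hb hne
            rw [mem_coe, mem_insert] at hb
            rcases hb with h4 | h4
            · rw [h4]; exact hadj
            · exact hσc hv (mem_of_mem_erase h4) hne
          have h4 := hdim _ hcl
          rw [card_insert_of_notMem, hσ'm] at h4
          · omega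
          · rw [mem_insert, not_or]
            exact ⟨hv'v.symm, notMem_erase v σ⟩
        have heq : ∀ x : ZF G T col M F, ∀ κ ε, x.1 (σ, κ, ε) = x.1 (insert v' (σ.erase v), κ, ε) := by
          intro x κ ε
          have h5 := hcyc x κ ε
          have hsub : ({v, v'} : Finset V) ⊆ (σ.erase v)ᶜ := by
            intro u hu
            rw [mem_insert, mem_singleton] at hu
            rcases hu with rfl | rfl
            · exact hvc
            · exact mem_compl.mpr hv'
          rw [← sum_subset hsub] at h5
          · rw [sum_pair hv'v.symm, insert_erase hv] at h5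
            exact CharTwo.add_eq_zero.mp h5
          · intro u hu hu2
            rw [mem_insert, mem_singleton, not_or] at hu2
            exact x.2.2 _ (hother u (mem_compl.mp hu) hu2.1 hu2.2) κ ε
        have hinv : ∀ x : ZF G T col M F, ∀ κ ε, x.1 (σ, mv G v κ, ε) = x.1 (σ, κ, ε) := by
          intro x κ ε
          exact ((Lop_iff G T col (sgen V M) x.1).mp x.2.1).inv σ v hv hvT κ ε
        by_cases hv'T : v' ∈ T
        · have hinv' : ∀ x : ZF G T col M F, ∀ κ ε, x.1 (σ, mv G v' κ, ε) = x.1 (σ, κ, ε) := by
            intro x κ ε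
            rw [heq, heq]
            exact ((Lop_iff G T col (sgen V M) x.1).mp x.2.1).inv _ v' (mem_insert_self _ _) hv'T κ ε
          let rs : LinearMap.range ev →ₗ[K2 V M] ({κ : QQ V M // (κ v).2 = 0} → (Fin m → Bool) → K2 V M) :=
            { toFun := fun f κ ε => f.1 κ.1 ε
              map_add' := fun _ _ => rfl
              map_smul' := fun _ _ => rfl }
          have hrs : Function.Injective rs := by
            rw [injective_iff_map_eq_zero]
            rintro ⟨f, ⟨x, rfl⟩⟩ hf
            apply Subtype.ext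
            funext κ
            obtain ⟨κ0, hκ0, hκ⟩ := orbit_zero hv'v hnadj κ (W := (Fin m → Bool) → K2 V M)
            have h6 := hκ (ev x) (fun κ => by funext ε; exact hinv x κ ε) (fun κ => by funext ε; exact hinv' x κ ε)
            show ev x κ = 0
            rw [h6]
            exact congrFun hf ⟨κ0, hκ0⟩
          have h6 := LinearMap.finrank_le_finrank_of_injective hrs
          have h7 : finrank (K2 V M) ({κ : QQ V M // (κ v).2 = 0} → (Fin m → Bool) → K2 V M) =
              Fintype.card {κ : QQ V M // (κ v).2 = 0} * 2 ^ m := by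
            rw [finrank_pi_fintype]
            simp [finrank_pi_fintype]
          rw [h7] at h6
          calc finrank (K2 V M) (LinearMap.range ev) * M
              ≤ (Fintype.card {κ : QQ V M // (κ v).2 = 0} * 2 ^ m) * M := Nat.mul_le_mul_right _ h6
            _ = (Fintype.card {κ : QQ V M // (κ v).2 = 0} * M) * 2 ^ m := by ring
            _ = _ := by rw [card_zero]
        · have hz : ev = 0 := by
            ext x κ ε
            show x.1 (σ, κ, ε) = 0
            have hS := (Lop_iff G T col (sgen V M) x.1).mp x.2.1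
            have hinv' : ∀ κ ε, x.1 (insert v' (σ.erase v), mv G v κ, ε) = x.1 (insert v' (σ.erase v), κ, ε) := by
              intro κ ε
              rw [← heq, ← heq, hinv]
            have l1 := hS.line _ v' (mem_insert_self v' (σ.erase v)) hv'T κ ε
            have l2 := hS.line _ v' (mem_insert_self v' (σ.erase v)) hv'T (mv G v κ) ε
            simp only [hinv'] at l2
            rw [l1] at l2
            have hne : sgen V M (th G T v' κ) ≠ sgen V M (th G T v' (mv G v κ)) := by
              intro h
              exact th_ne (fun h' => hnadj h'.symm) κ (sgen_inj V M h).symm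
            have l3 : x.1 (insert v' (σ.erase v), κ, Function.update ε (col v') false) = 0 := by
              by_contra hne2
              exact hne (mul_right_cancel₀ hne2 l2)
            have l4 : x.1 (insert v' (σ.erase v), κ, Function.update ε (col v') true) = 0 := by
              rw [l1, l3, mul_zero]
            rw [heq]
            cases hε : ε (col v')
            · rw [← hε, Function.update_eq_self] at l3
              exact l3
            · rw [← hε, Function.update_eq_self] at l4
              exact l4
          rw [hz, LinearMap.range_zero, finrank_bot]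
          simp
    have h4 : finrank (K2 V M) (ZF G T col M F) ≤
        finrank (K2 V M) (LinearMap.range ev) + finrank (K2 V M) (ZF G T col M (F.erase σ)) := by omega
    calc finrank (K2 V M) (ZF G T col M F) * M
        ≤ (finrank (K2 V M) (LinearMap.range ev) + finrank (K2 V M) (ZF G T col M (F.erase σ))) * M :=
          Nat.mul_le_mul_right _ h4
      _ = finrank (K2 V M) (LinearMap.range ev) * M + finrank (K2 V M) (ZF G T col M (F.erase σ)) * M := by ring
      _ ≤ Fintype.card (QQ V M) * 2 ^ m + n * (Fintype.card (QQ V M) * 2 ^ m) := Nat.add_le_add hrange h3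
      _ = _ := by ring

/-- the dimension of the space of all generic solutions -/
theorem gen_bound {G : SimpleGraph V} {T : Set V} {col : V → Fin m} (hT : Thin G T m)
    (hcol : ∀ u w, u ∉ T → w ∉ T → G.Adj u w → col u ≠ col w)
    (hdim : ∀ σ : Finset V, G.IsClique (σ : Set V) → σ.card ≤ m) (hO : Obs G (2 * m)) :
    finrank (K2 V M) (LinearMap.ker (Lop G T col (sgen V M))) * M ≤
      2 ^ Fintype.card V * (Fintype.card (QQ V M) * 2 ^ m) := by
  classical
  obtain ⟨F, hF⟩ : ∃ F : Finset (Finset V), F = univ.filter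
    (fun σ : Finset V => G.IsClique (σ : Set V) ∧ σ.card = m ∧ ∃ t ∈ σ, t ∈ T) := ⟨_, rfl⟩
  have h1 : LinearMap.ker (Lop G T col (sgen V M)) ≤ ZF G T col M F := by
    intro x hx
    rw [LinearMap.mem_ker] at hx
    refine ⟨hx, fun σ hσ κ ε => ?_⟩
    have hS := (Lop_iff G T col (sgen V M) x).mp hx
    by_cases h2 : G.IsClique (σ : Set V) ∧ σ.card = m
    · refine sys_zero hcol hdim hO hS σ ?_ κ ε
      intro u hu huT
      apply hσ
      rw [hF, mem_filter]
      exact ⟨mem_univ _, h2.1, h2.2, u, hu, huT⟩
    · exact hS.supp σ h2 κ ε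
  have h2 := ZF_bound (M := M) (col := col) hT hdim F.card F rfl (fun σ hσ => by
    rw [hF, mem_filter] at hσ
    exact hσ.2)
  have h3 := Submodule.finrank_mono h1
  have h4 : F.card ≤ 2 ^ Fintype.card V := by
    refine (card_le_univ F).trans ?_
    rw [Fintype.card_finset]
  calc _ ≤ finrank (K2 V M) (ZF G T col M F) * M := Nat.mul_le_mul_right _ h3
    _ ≤ _ := h2
    _ ≤ _ := Nat.mul_le_mul_right _ h4

end bound

end Pool.Agent.H7.RC
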