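import Pool.Agent.H7.L.W907_SG_Defs
import Pool.Agent.H7.RC.Alg

/-!
# The linear systems

`QQ V M` is the set of functions `V → ℤ/2 × ℤ/M`; the element `t` acts by the involution `mv G t`, which changes only
the coordinate `t`. Adjacent elements commute, and the product of two elements which are not adjacent has large order.
-/

set_option autoImplicit false
set_option linter.unusedSectionVars false

namespace Pool.Agent.H7.RC

open Finset Module Pool.Agent.W907.SM Pool.Agent.W907.SG
open scoped Matrix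

section moves

variable {V : Type} [Fintype V] [DecidableEq V] {M : ℕ}

/-- the points -/
abbrev QQ (V : Type) (M : ℕ) : Type := V → Bool × ZMod M

open Classical in
/-- the number of the signs at the vertices not adjacent to `t` -/
noncomputable def gg (G : SimpleGraph V) (t : V) (κ : QQ V M) : ZMod M :=
  ∑ u ∈ univ.filter (fun u => u ≠ t ∧ ¬ G.Adj t u), if (κ u).1 then 1 else 0

/-- the involutions -/
noncomputable def mv (G : SimpleGraph V) (t : V) (κ : QQ V M) : QQ V M :=
  Function.update κ t (!(κ t).1, (κ t).2 + if (κ t).1 then - gg G t κ else gg G t κ)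

variable {G : SimpleGraph V}

theorem mv_ne {t u : V} (h : u ≠ t) (κ : QQ V M) : mv G t κ u = κ u := by
  rw [mv, Function.update_of_ne h]

theorem mv_self (t : V) (κ : QQ V M) :
    mv G t κ t = (!(κ t).1, (κ t).2 + if (κ t).1 then - gg G t κ else gg G t κ) := by
  rw [mv, Function.update_self]

theorem gg_self (t : V) (κ : QQ V M) : gg G t (mv G t κ) = gg G t κ := by
  classical
  rw [gg, gg]
  refine sum_congr rfl fun u hu => ?_
  rw [mem_filter] at hu
  rw [mv_ne hu.2.1]

theorem gg_adj {t u : V} (h : G.Adj u t) (κ : QQ V M) : gg G u (mv G t κ) = gg G u κ := by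
  classical
  rw [gg, gg]
  refine sum_congr rfl fun v hv => ?_
  rw [mem_filter] at hv
  rw [mv_ne]
  rintro rfl
  exact hv.2.2 h

theorem mv_mv (t : V) (κ : QQ V M) : mv G t (mv G t κ) = κ := by
  funext u
  by_cases h : u = t
  · subst h
    rw [mv_self, gg_self, mv_self]
    refine Prod.ext ?_ ?_
    · simp
    · cases (κ u).1 <;> simp
  · rw [mv_ne h, mv_ne h]

theorem mv_comm {u t : V} (h : G.Adj u t) (κ : QQ V M) : mv G u (mv G t κ) = mv G t (mv G u κ) := by
  have hne : u ≠ t := h.ne
  funext v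
  by_cases h1 : v = u
  · subst h1
    rw [mv_self, mv_ne hne, gg_adj h, mv_ne hne, mv_self]
  · rw [mv_ne h1]
    by_cases h2 : v = t
    · subst h2
      rw [mv_self, mv_self, mv_ne h1, gg_adj h.symm]
    · rw [mv_ne h2, mv_ne h2, mv_ne h1]

theorem mv_sgn (t : V) (κ : QQ V M) : (mv G t κ t).1 = !(κ t).1 := by rw [mv_self]

theorem mv_neq (t : V) (κ : QQ V M) : mv G t κ ≠ κ := by
  intro h
  have h1 := mv_sgn (G := G) t κ
  rw [h] at h1
  cases h2 : (κ t).1 <;> simp [h2] at h1

open Classical in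
/-- the index of the slope of `w` at the point `κ` -/
noncomputable def th (G : SimpleGraph V) (T : Set V) (w : V) (κ : QQ V M) : V × QQ V M :=
  (w, fun u => if u ∈ T ∧ G.Adj w u then (false, 0) else κ u)

theorem th_mv {T : Set V} {w t : V} (ht : t ∈ T) (h : G.Adj w t) (κ : QQ V M) :
    th G T w (mv G t κ) = th G T w κ := by
  rw [th, th]
  refine Prod.ext rfl ?_
  funext u
  by_cases h1 : u = t
  · subst h1
    simp only [ht, h, and_self, if_true]
  · simp only [mv_ne h1]

theorem th_ne {T : Set V} {w t : V} (h : ¬ G.Adj w t) (κ : QQ V M) :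
    th G T w (mv G t κ) ≠ th G T w κ := by
  intro h1
  have h2 := congrFun (congrArg Prod.snd h1) t
  simp only [th, h, and_false, if_false] at h2
  have h3 := congrArg Prod.fst h2
  rw [mv_sgn] at h3
  cases h4 : (κ t).1 <;> simp [h4] at h3

end moves

section sys

variable {V : Type} [Fintype V] [LinearOrder V] {M m : ℕ}

/-- the system of equations -/
structure Sys (G : SimpleGraph V) (T : Set V) (col : V → Fin m) {R : Type} [CommRing R] (s : V × QQ V M → R)
    (x : Finset V → QQ V M → (Fin m → Bool) → R) : Prop where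
  supp : ∀ σ : Finset V, ¬ (G.IsClique (σ : Set V) ∧ σ.card = m) → ∀ κ ε, x σ κ ε = 0
  line : ∀ (σ : Finset V), ∀ w ∈ σ, w ∉ T → ∀ κ ε,
    x σ κ (Function.update ε (col w) true) = s (th G T w κ) * x σ κ (Function.update ε (col w) false)
  inv : ∀ (σ : Finset V), ∀ t ∈ σ, t ∈ T → ∀ κ ε, x σ (mv G t κ) ε = x σ κ ε
  cyc : ∀ (ρ : Finset V) κ ε, ∑ v ∈ ρᶜ, sg v ρ • x (insert v ρ) κ ε = 0

/-- coordinates -/
abbrev Cols (V : Type) (M m : ℕ) : Type := Finset V × QQ V M × (Fin m → Bool)

/-- equations -/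
abbrev Rows (V : Type) (M m : ℕ) : Type :=
  (Bool × Finset V × QQ V M × (Fin m → Bool)) ⊕ (Bool × Finset V × V × QQ V M × (Fin m → Bool))

open Classical in
/-- the operator -/
noncomputable def Lf (G : SimpleGraph V) (T : Set V) (col : V → Fin m) {R : Type} [CommRing R]
    (s : V × QQ V M → R) (x : Cols V M m → R) : Rows V M m → R
  | Sum.inl (false, σ, κ, ε) => if G.IsClique (σ : Set V) ∧ σ.card = m then 0 else x (σ, κ, ε)
  | Sum.inl (true, ρ, κ, ε) => ∑ v ∈ ρᶜ, sg v ρ • x (insert v ρ, κ, ε)
  | Sum.inr (false, σ, w, κ, ε) => if w ∈ σ ∧ w ∉ T then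
      x (σ, κ, Function.update ε (col w) true) - s (th G T w κ) * x (σ, κ, Function.update ε (col w) false) else 0
  | Sum.inr (true, σ, t, κ, ε) => if t ∈ σ ∧ t ∈ T then x (σ, mv G t κ, ε) - x (σ, κ, ε) else 0

/-- the operator -/
noncomputable def Lop (G : SimpleGraph V) (T : Set V) (col : V → Fin m) {R : Type} [CommRing R]
    (s : V × QQ V M → R) : (Cols V M m → R) →ₗ[R] (Rows V M m → R) where
  toFun := Lf G T col s
  map_add' x y := by
    funext r
    rcases r with ⟨b, σ, κ, ε⟩ | ⟨b, σ, w, κ, ε⟩ <;> cases b <;>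
      simp only [Lf, Pi.add_apply]
    · split_ifs <;> ring
    · simp only [smul_add, sum_add_distrib]
    · split_ifs <;> ring
    · split_ifs <;> ring
  map_smul' a x := by
    funext r
    rcases r with ⟨b, σ, κ, ε⟩ | ⟨b, σ, w, κ, ε⟩ <;> cases b <;>
      simp only [Lf, Pi.smul_apply, smul_eq_mul, RingHom.id_apply]
    · split_ifs <;> ring
    · rw [mul_sum]
      exact sum_congr rfl fun v _ => (mul_smul_comm _ _ _).symm
    · split_ifs <;> ring
    · split_ifs <;> ring

theorem Lop_nat (G : SimpleGraph V) (T : Set V) (col : V → Fin m) {R R' : Type} [CommRing R] [CommRing R']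
    (φ : R →+* R') (s : V × QQ V M → R) (x : Cols V M m → R) (r : Rows V M m) :
    φ (Lop G T col s x r) = Lop G T col (fun j => φ (s j)) (fun c => φ (x c)) r := by
  show φ (Lf G T col s x r) = Lf G T col (fun j => φ (s j)) (fun c => φ (x c)) r
  rcases r with ⟨b, σ, κ, ε⟩ | ⟨b, σ, w, κ, ε⟩ <;> cases b <;>
    simp only [Lf]
  · split_ifs
    · exact map_zero φ
    · rfl
  · rw [map_sum]
    exact sum_congr rfl fun v _ => map_zsmul φ _ _
  · split_ifs
    · rw [map_sub, map_mul]
    · exact map_zero φ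
  · split_ifs
    · rw [map_sub]
    · exact map_zero φ

theorem Lop_iff (G : SimpleGraph V) (T : Set V) (col : V → Fin m) {R : Type} [CommRing R]
    (s : V × QQ V M → R) (x : Cols V M m → R) :
    Lop G T col s x = 0 ↔ Sys G T col s (fun σ κ ε => x (σ, κ, ε)) := by
  constructor
  · intro h
    refine ⟨fun σ hσ κ ε => ?_, fun σ w hw hT κ ε => ?_, fun σ t ht hT κ ε => ?_, fun ρ κ ε => ?_⟩
    · have h1 : Lf G T col s x (Sum.inl (false, σ, κ, ε)) = 0 := congrFun h (Sum.inl (false, σ, κ, ε))
      simp only [Lf, if_neg hσ] at h1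
      exact h1
    · have h1 : Lf G T col s x (Sum.inr (false, σ, w, κ, ε)) = 0 := congrFun h (Sum.inr (false, σ, w, κ, ε))
      simp only [Lf, if_pos (And.intro hw hT)] at h1
      exact sub_eq_zero.mp h1
    · have h1 : Lf G T col s x (Sum.inr (true, σ, t, κ, ε)) = 0 := congrFun h (Sum.inr (true, σ, t, κ, ε))
      simp only [Lf, if_pos (And.intro ht hT)] at h1
      exact sub_eq_zero.mp h1
    · have h1 : Lf G T col s x (Sum.inl (true, ρ, κ, ε)) = 0 := congrFun h (Sum.inl (true, ρ, κ, ε))
      simp only [Lf] at h1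
      exact h1
  · rintro ⟨h1, h2, h3, h4⟩
    funext r
    show Lf G T col s x r = 0
    rcases r with ⟨b, σ, κ, ε⟩ | ⟨b, σ, w, κ, ε⟩ <;> cases b <;>
      simp only [Lf]
    · split_ifs with h
      · rfl
      · exact h1 σ h κ ε
    · exact h4 σ κ ε
    · split_ifs with h
      · rw [h2 σ w h.1 h.2, sub_self]
      · rfl
    · split_ifs with h
      · rw [h3 σ w h.1 h.2, sub_self]
      · rfl

variable [NeZero M]

/-- the matrix -/
noncomputable def DD (G : SimpleGraph V) (T : Set V) (col : V → Fin m) (M : ℕ) [NeZero M] :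
    Matrix (Rows V M m) (Cols V M m) (MvPolynomial (V × QQ V M) ℤ) :=
  LinearMap.toMatrix' (Lop G T col (fun j => MvPolynomial.X j))

theorem DD_mulVec (G : SimpleGraph V) (T : Set V) (col : V → Fin m) {R : Type} [CommRing R]
    (ψ : MvPolynomial (V × QQ V M) ℤ →+* R) (x : Cols V M m → R) :
    ((DD G T col M).map ψ) *ᵥ x = Lop G T col (fun j => ψ (MvPolynomial.X j)) x := by
  have h1 : (DD G T col M).map ψ = LinearMap.toMatrix' (Lop G T col (fun j => ψ (MvPolynomial.X j))) := by
    ext r c
    rw [Matrix.map_apply, DD, LinearMap.toMatrix'_apply, LinearMap.toMatrix'_apply, Lop_nat]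
    have h0 : (fun c' : Cols V M m => ψ ((Pi.single c 1 : Cols V M m → MvPolynomial (V × QQ V M) ℤ) c')) =
        Pi.single c 1 := by
      funext c'
      by_cases h : c' = c
      · subst h; simp
      · simp [h]
    rw [h0]
  rw [h1, LinearMap.toMatrix'_mulVec]

end sys

end Pool.Agent.H7.RC
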