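import Pool.Agent.H7.RC.Tower
import Pool.Agent.H7.RC.Sys

/-!
# The cocycle over the set of points
-/

set_option autoImplicit false
set_option linter.unusedSectionVars false

namespace Pool.Agent.H7.RC

open Finset Module Pool.Agent.W907.SM Pool.Agent.W907.SG Pool.Agent.W705.SM

section unip

variable {R E : Type} [CommRing R] [AddCommGroup E] [Module R E]

/-- the automorphisms congruent to the identity modulo `x` -/
def cong1 (x : R) : Subgroup (E ≃ₗ[R] E) where
  carrier := {g | ∀ y, ∃ z, g y = y + x • z}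
  mul_mem' := by
    intro g h hg hh y
    obtain ⟨z, hz⟩ := hh y
    obtain ⟨z', hz'⟩ := hg (h y)
    refine ⟨z + z', ?_⟩
    show g (h y) = _
    rw [hz', hz, smul_add]
    abel
  one_mem' := fun y => ⟨0, by simp⟩
  inv_mem' := by
    intro g hg y
    obtain ⟨z, hz⟩ := hg (g⁻¹ y)
    have h1 : g (g⁻¹ y) = y := g.apply_symm_apply y
    refine ⟨-z, ?_⟩
    rw [h1] at hz
    rw [smul_neg]
    exact eq_add_neg_of_add_eq hz.symm

theorem mem_cong1 (x : R) (g : E ≃ₗ[R] E) : g ∈ cong1 x ↔ ∀ y, ∃ z, g y = y + x • z := Iff.rfl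

instance cong1_normal (x : R) : (cong1 (E := E) x).Normal where
  conj_mem := by
    intro g hg h y
    obtain ⟨z, hz⟩ := hg (h⁻¹ y)
    refine ⟨h z, ?_⟩
    show h (g (h⁻¹ y)) = _
    rw [hz, map_add, map_smul]
    congr 1
    exact h.apply_symm_apply y

theorem cong1_pgroup {p : ℕ} [Fact p.Prime] (hR : (p : R) = 0) (x : R) (n : ℕ) (hx : x ^ n = 0) :
    IsPGroup p (cong1 (E := E) x) := by
  intro g
  obtain ⟨g, hg⟩ := g
  refine ⟨n, ?_⟩
  apply Subtype.ext
  show g ^ p ^ n = 1
  obtain ⟨y, hy⟩ : ∃ y : Module.End R E, y = (g : E →ₗ[R] E) - 1 := ⟨_, rfl⟩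
  have h1 : ∀ (k : ℕ) (e : E), ∃ z, (y ^ k) e = x ^ k • z := by
    intro k
    induction k with
    | zero => intro e; exact ⟨e, by simp⟩
    | succ k ih =>
      intro e
      obtain ⟨z, hz⟩ := ih e
      obtain ⟨z', hz'⟩ := hg z
      refine ⟨z', ?_⟩
      rw [pow_succ', Module.End.mul_apply, hz, map_smul, hy]
      show x ^ k • (g z - z) = _
      rw [hz', add_sub_cancel_left, smul_smul, pow_succ]
  have h2 : y ^ n = 0 := by
    refine LinearMap.ext fun e => ?_
    obtain ⟨z, hz⟩ := h1 n e
    rw [hz, hx, zero_smul]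
    rfl
  have hA : ((p : ℕ) : Module.End R E) = 0 := by
    refine LinearMap.ext fun f => ?_
    have : ((p : Module.End R E) f) = (p : R) • f := by
      rw [Module.End.natCast_apply, ← Nat.cast_smul_eq_nsmul R]
    rw [this, hR, zero_smul]
    rfl
  have h3 := unip hA y n h2
  have h4 : 1 + y = (g : E →ₗ[R] E) := by
    rw [hy]
    abel
  rw [h4] at h3
  have h5 : ∀ (k : ℕ) (e : E), (g ^ k) e = (((g : E →ₗ[R] E) : Module.End R E) ^ k) e := by
    intro k
    induction k with
    | zero => intro e; rfl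
    | succ k ih =>
      intro e
      rw [pow_succ, pow_succ]
      exact ih (g e)
  refine LinearEquiv.ext fun e => ?_
  rw [h5, h3]
  rfl

end unip

variable {V : Type} [Fintype V] [LinearOrder V] {M m : ℕ} [NeZero M]

theorem cocycle {p : ℕ} [hpF : Fact p.Prime] (hp : p ≠ 2) {G : SimpleGraph V} {T : Set V} {col : V → Fin m}
    (hcol : ∀ u w, u ∉ T → w ∉ T → G.Adj u w → col u ≠ col w)
    (hdim : ∀ σ : Finset V, G.IsClique (σ : Set V) → σ.card ≤ m) (n B : ℕ)
    (α β : V × QQ V M → Polynomial (ZMod p))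
    (hB : ∀ (χ : V × QQ V M → Bool) (Z : Submodule (ZMod p) (Cols V M m → ON p n)),
      (∀ x ∈ Z, Lop G T col (fun j => (Ideal.Quotient.mk _ (slope α β χ j) : ON p n)) x = 0) →
      finrank (ZMod p) Z ≤ B) :
    ∃ (X : Type) (_ : Fintype X) (_ : Nonempty X) (a : V → X → X) (sgn : V → X → Bool),
      (∀ v x, a v (a v x) = x) ∧ (∀ u v, G.Adj u v → ∀ x, a u (a v x) = a v (a u x)) ∧
      (∀ v x, sgn v (a v x) = !(sgn v x)) ∧ (∀ u v, u ≠ v → ∀ x, sgn u (a v x) = sgn u x) ∧
      2 ^ m * n * Fintype.card (QQ V M) * beta G (pull (ZMod p) a) Set.univ ∅ m ≤ Fintype.card X * B := by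
  classical
  have hp2 : (2 : ZMod p) ≠ 0 := by
    intro h
    have h' : ((2 : ℕ) : ZMod p) = 0 := by exact_mod_cast h
    rw [ZMod.natCast_eq_zero_iff] at h'
    exact hp ((Nat.prime_dvd_prime_iff_eq hpF.out Nat.prime_two).1 h')
  obtain ⟨x, hxd⟩ : ∃ x : ON p n, x = Ideal.Quotient.mk _ (Polynomial.X : Polynomial (ZMod p)) :=
    ⟨_, rfl⟩
  have hx : x ^ n = 0 := by
    rw [hxd, ← map_pow]
    exact Ideal.Quotient.eq_zero_iff_mem.2 (Ideal.subset_span rfl)
  obtain ⟨A, hA⟩ : ∃ A : V × QQ V M → ON p n, ∀ v, A v = Ideal.Quotient.mk _ (α v) := ⟨_, fun _ => rfl⟩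
  obtain ⟨B', hB'⟩ : ∃ A : V × QQ V M → ON p n, ∀ v, A v = Ideal.Quotient.mk _ (β v) := ⟨_, fun _ => rfl⟩
  have hui : ∀ v, ∃ ui : ON p n, ((1 + x * B' v) - x * A v) * ui = 1 := by
    intro v
    have : IsUnit (1 + x * (B' v - A v)) :=
      IsNilpotent.isUnit_one_add ⟨n, by rw [mul_pow, hx, zero_mul]⟩
    obtain ⟨ui, h⟩ := this.exists_right_inv
    exact ⟨ui, by linear_combination h⟩
  choose ui hui using hui
  have h2 : ∃ hf : ON p n, 2 * hf = 1 := by
    refine ⟨algebraMap (ZMod p) _ 2⁻¹, ?_⟩
    rw [← map_ofNat (algebraMap (ZMod p) (ON p n)) 2, ← map_mul, mul_inv_cancel₀ hp2, map_one]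
  obtain ⟨hf, h2⟩ := h2
  have hpR : ((p : ℕ) : ON p n) = 0 := by
    have : ((p : ℕ) : ZMod p) = 0 := ZMod.natCast_self p
    rw [← map_natCast (algebraMap (ZMod p) (ON p n)), this, map_zero]
  obtain ⟨S, hSd⟩ : ∃ S : V × QQ V M → Bool → Bool → ON p n,
    ∀ v, S v = Sm (x * A v) (1 + x * B' v) (ui v) := ⟨_, fun _ => rfl⟩
  have hSH : ∀ (k : Fin m) v, op k (S v) = op k Pm + x • op k (Hm x (A v) (B' v) (ui v)) :=
    fun k v => by rw [hSd]; exact op_Sm (hui v)
  have hsq : ∀ (k : Fin m) v, op k (S v) * op k (S v) = 1 := by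
    intro k v
    rw [op_mul, hSd, Sm_sq (hui v), op_one]
  have hsqP : ∀ (k : Fin m), (op k (Pm : Bool → Bool → ON p n)) * op k Pm = 1 := by
    intro k
    rw [op_mul, Pm_sq, op_one]
  have hfd0 : FiniteDimensional (ZMod p) (ON p n) := (Polynomial.monic_X_pow n).finite_quotient
  have hfr0 : finrank (ZMod p) (ON p n) = n := by
    have := finrank_quotient_span_eq_natDegree (f := (Polynomial.X : Polynomial (ZMod p)) ^ n)
    rw [Polynomial.natDegree_X_pow] at this
    exact this
  have hfin : Finite ((Fin m → Bool) → ON p n) := Module.finite_of_finite (ZMod p)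
  have hfinE : Finite (((Fin m → Bool) → ON p n) ≃ₗ[ON p n] ((Fin m → Bool) → ON p n)) :=
    Finite.of_injective (fun g => (g : ((Fin m → Bool) → ON p n) → ((Fin m → Bool) → ON p n)))
      DFunLike.coe_injective
  have hFE : Fintype (((Fin m → Bool) → ON p n) ≃ₗ[ON p n] ((Fin m → Bool) → ON p n)) := Fintype.ofFinite _
  obtain ⟨act, hact⟩ : ∃ act : (((Fin m → Bool) → ON p n) ≃ₗ[ON p n] ((Fin m → Bool) → ON p n)) →
      ((Fin m → Bool) → ON p n) →ₗ[ZMod p] ((Fin m → Bool) → ON p n), ∀ g e, act g e = g e :=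
    ⟨fun g => (g : ((Fin m → Bool) → ON p n) →ₗ[ON p n] ((Fin m → Bool) → ON p n)).restrictScalars (ZMod p),
      fun _ _ => rfl⟩
  obtain ⟨b, hbd⟩ : ∃ b : V → QQ V M → QQ V M, ∀ v, b v = if v ∈ T then mv G v else id := ⟨_, fun _ => rfl⟩
  have hbT : ∀ v ∈ T, ∀ q, b v q = mv G v q := by
    intro v hv q
    rw [hbd, if_pos hv]
  have hbN : ∀ v, v ∉ T → ∀ q, b v q = q := by
    intro v hv q
    rw [hbd, if_neg hv]
    rfl
  obtain ⟨c, hcT, hcN⟩ : ∃ c : V → QQ V M → (((Fin m → Bool) → ON p n) ≃ₗ[ON p n] ((Fin m → Bool) → ON p n)),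
      (∀ v ∈ T, ∀ q, c v q = 1) ∧ (∀ v, v ∉ T → ∀ q e, c v q e = op (col v) (S (th G T v q)) e) := by
    have hi : ∀ (k : Fin m) j, Function.Involutive (op k (S j)) := by
      intro k j e
      rw [← Module.End.mul_apply, hsq]
      rfl
    refine ⟨fun v q => if v ∈ T then 1 else LinearEquiv.ofInvolutive (op (col v) (S (th G T v q))) (hi _ _),
      fun v hv q => if_pos hv, fun v hv q e => ?_⟩
    show (if v ∈ T then (1 : ((Fin m → Bool) → ON p n) ≃ₗ[ON p n] ((Fin m → Bool) → ON p n)) else
      LinearEquiv.ofInvolutive (op (col v) (S (th G T v q))) (hi _ _)) e = _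
    rw [if_neg hv]
    rfl
  obtain ⟨cb, hcbT, hcbN⟩ : ∃ cb : V → (((Fin m → Bool) → ON p n) ≃ₗ[ON p n] ((Fin m → Bool) → ON p n)),
      (∀ v ∈ T, cb v = 1) ∧ (∀ v, v ∉ T → ∀ e, cb v e = op (col v) Pm e) := by
    have hi : ∀ (k : Fin m), Function.Involutive (op k (Pm : Bool → Bool → ON p n)) := by
      intro k e
      rw [← Module.End.mul_apply, hsqP]
      rfl
    refine ⟨fun v => if v ∈ T then 1 else LinearEquiv.ofInvolutive (op (col v) Pm) (hi _),
      fun v hv => if_pos hv, fun v hv e => ?_⟩
    show (if v ∈ T then (1 : ((Fin m → Bool) → ON p n) ≃ₗ[ON p n] ((Fin m → Bool) → ON p n)) else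
      LinearEquiv.ofInvolutive (op (col v) Pm) (hi _)) e = _
    rw [if_neg hv]
    rfl
  have hb : ∀ v q, b v (b v q) = q := by
    intro v q
    by_cases hv : v ∈ T
    · rw [hbT v hv, hbT v hv, mv_mv]
    · rw [hbN v hv, hbN v hv]
  have hc : ∀ v q, c v (b v q) * c v q = 1 := by
    intro v q
    by_cases hv : v ∈ T
    · rw [hcT v hv, hcT v hv, one_mul]
    · rw [hbN v hv]
      refine LinearEquiv.ext fun e => ?_
      show c v q (c v q e) = e
      rw [hcN v hv, hcN v hv, ← Module.End.mul_apply, hsq]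
      rfl
  have hbc : ∀ u v, G.Adj u v → ∀ q, b u (b v q) = b v (b u q) := by
    intro u v huv q
    by_cases hu : u ∈ T
    · by_cases hv : v ∈ T
      · rw [hbT v hv, hbT u hu, hbT u hu, hbT v hv, mv_comm huv]
      · rw [hbN v hv, hbN v hv]
    · rw [hbN u hu, hbN u hu]
  have hcc : ∀ u v, G.Adj u v → ∀ q, c u (b v q) * c v q = c v (b u q) * c u q := by
    intro u v huv q
    by_cases hu : u ∈ T
    · by_cases hv : v ∈ T
      · rw [hcT u hu, hcT v hv, hcT v hv, hcT u hu]
      · rw [hcT u hu, hcT u hu, one_mul, mul_one]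
        refine LinearEquiv.ext fun e => ?_
        rw [hcN v hv, hcN v hv, hbT u hu, th_mv hu huv.symm]
    · by_cases hv : v ∈ T
      · rw [hcT v hv, hcT v hv, one_mul, mul_one]
        refine LinearEquiv.ext fun e => ?_
        rw [hcN u hu, hcN u hu, hbT v hv, th_mv hv huv]
      · rw [hbN v hv, hbN u hu]
        refine LinearEquiv.ext fun e => ?_
        show c u q (c v q e) = c v q (c u q e)
        rw [hcN u hu, hcN v hv, hcN u hu, hcN v hv, ← Module.End.mul_apply, ← Module.End.mul_apply,
          op_comm _ _ (hcol u v hu hv huv)]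
  have hmain := tower_main (G := G) hp m B hdim act (by intro e; rw [hact]; rfl)
    (by intro g h e; rw [hact, hact, hact]; rfl) b c hb hc hbc hcc (cong1 x) (cong1_pgroup hpR x n hx)
    (fun v => ((cb v : _) : _ ⧸ cong1 x))
    (by
      intro v q
      rw [QuotientGroup.eq]
      intro y
      by_cases hv : v ∈ T
      · rw [hcT v hv, hcbT v hv]
        exact ⟨0, by simp⟩
      · refine ⟨- (c v q)⁻¹ (op (col v) (Hm x (A (th G T v q)) (B' (th G T v q)) (ui (th G T v q))) y), ?_⟩
        show (c v q)⁻¹ (cb v y) = _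
        have h4 : cb v y = c v q y - x • op (col v) (Hm x (A (th G T v q)) (B' (th G T v q)) (ui (th G T v q))) y := by
          rw [hcN v hv, hcbN v hv, hSH, LinearMap.add_apply, LinearMap.smul_apply, add_sub_cancel_right]
        rw [h4, map_sub, map_smul, smul_neg, ← sub_eq_add_neg]
        congr 1
        exact (c v q).symm_apply_apply y)
    (by
      intro v
      have : cb v * cb v = 1 := by
        by_cases hv : v ∈ T
        · rw [hcbT v hv, one_mul]
        · refine LinearEquiv.ext fun e => ?_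
          show cb v (cb v e) = e
          rw [hcbN v hv, hcbN v hv, ← Module.End.mul_apply, hsqP]
          rfl
      exact congrArg (QuotientGroup.mk (s := cong1 x)) this)
    (by
      intro u v
      have : cb u * cb v = cb v * cb u := by
        by_cases hu : u ∈ T
        · rw [hcbT u hu, one_mul, mul_one]
        · by_cases hv : v ∈ T
          · rw [hcbT v hv, one_mul, mul_one]
          · refine LinearEquiv.ext fun e => ?_
            show cb u (cb v e) = cb v (cb u e)
            rw [hcbN v hv, hcbN u hu, hcbN u hu, hcbN v hv, ← Module.End.mul_apply, ← Module.End.mul_apply]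
            by_cases h : col u = col v
            · rw [h]
            · rw [op_comm _ _ h]
      exact congrArg (QuotientGroup.mk (s := cong1 x)) this)
    (by
      intro ε hε
      rw [beta_top G _ m hdim]
      have hεε : ∀ t, ε t * ε t = 1 := by
        intro t
        rcases hε t with h | h <;> rw [h] <;> ring
      obtain ⟨θ, hθ⟩ : ∃ θ : QQ V M → ZMod p, ∀ q, θ q = ∏ t : V, if t ∈ T ∧ (q t).1 = true then - ε t else 1 :=
        ⟨_, fun _ => rfl⟩
      have hθ0 : ∀ q, θ q * θ q = 1 := by
        intro q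
        rw [hθ, ← prod_mul_distrib]
        refine prod_eq_one fun t _ => ?_
        split_ifs
        · rw [neg_mul_neg, hεε]
        · rw [one_mul]
      have hθmv : ∀ t ∈ T, ∀ q, θ (mv G t q) = - ε t * θ q := by
        intro t ht q
        rw [hθ, hθ, ← mul_prod_erase univ _ (mem_univ t), ← mul_prod_erase univ
          (fun u => if u ∈ T ∧ (q u).1 = true then - ε u else 1) (mem_univ t), ← mul_assoc]
        have e1 : ∏ u ∈ univ.erase t, (if u ∈ T ∧ (mv G t q u).1 = true then - ε u else 1) =
            ∏ u ∈ univ.erase t, (if u ∈ T ∧ (q u).1 = true then - ε u else 1) := by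
          refine prod_congr rfl fun u hu => ?_
          rw [mv_ne (ne_of_mem_erase hu)]
        rw [e1]
        congr 1
        rw [mv_sgn]
        cases h : (q t).1
        · simp [ht]
        · simp [ht, hεε]
      let Φ : ZZ G (fun v => ε v • sQ act b c v) Set.univ ∅ m →ₗ[ZMod p] (Cols V M m → ON p n) :=
        { toFun := fun e j => θ j.2.1 • e.1 j.1 j.2.1 j.2.2
          map_add' := fun e e' => by
            funext j
            show θ j.2.1 • (e.1 j.1 j.2.1 j.2.2 + e'.1 j.1 j.2.1 j.2.2) = _
            rw [smul_add]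
            rfl
          map_smul' := fun r e => by
            funext j
            show θ j.2.1 • (r • e.1 j.1 j.2.1 j.2.2) = r • (θ j.2.1 • e.1 j.1 j.2.1 j.2.2)
            rw [smul_comm] }
      have hΦ : Function.Injective Φ := by
        intro e e' h
        apply Subtype.ext
        funext σ κ ε'
        have h4 : θ κ • e.1 σ κ ε' = θ κ • e'.1 σ κ ε' := congrFun h (σ, κ, ε')
        have h5 := congrArg (fun y => θ κ • y) h4
        simp only [smul_smul, hθ0, one_smul] at h5
        exact h5
      rw [← LinearMap.finrank_range_of_inj hΦ]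
      refine hB (fun j => decide (ε j.1 = 1)) _ ?_
      rintro _ ⟨e, rfl⟩
      rw [Lop_iff]
      obtain ⟨e, ⟨h5, h6⟩, h7⟩ := e
      refine ⟨?_, ?_, ?_, ?_⟩
      · intro σ hσ κ ε'
        show θ κ • e σ κ ε' = 0
        rw [h5 σ (fun h => hσ ⟨h.1, h.2.2⟩)]
        exact smul_zero _
      · intro σ w hw hwT κ ε'
        show θ κ • e σ κ (Function.update ε' (col w) true) =
          Ideal.Quotient.mk _ (slope α β (fun j => decide (ε j.1 = 1)) (th G T w κ)) *
            (θ κ • e σ κ (Function.update ε' (col w) false))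
        have h8 := congrFun (h6 σ w (Or.inl hw)) κ
        have h9 : ε w • (op (col w) (S (th G T w κ)) (e σ κ)) = - e σ κ := by
          rw [← hcN w hwT, ← hact]
          have h10 : (ε w • sQ act b c w) (e σ) κ = ε w • act (c w κ) (e σ κ) := by
            show ε w • act (c w (b w κ)) (e σ (b w κ)) = _
            rw [hbN w hwT]
          rw [← h10]
          exact h8
        have h11 : OnLine (col w) (Ideal.Quotient.mk _ (slope α β (fun j => decide (ε j.1 = 1)) (th G T w κ)) :
            ON p n) (e σ κ) := by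
          have hne : (-1 : ZMod p) ≠ 1 := by
            intro h
            apply hp2
            linear_combination -h
          have hth : (th G T w κ).1 = w := rfl
          rcases hε w with h | h
          · have h12 : (Ideal.Quotient.mk (Ideal.span {(Polynomial.X : Polynomial (ZMod p)) ^ n})
                (slope α β (fun j => decide (ε j.1 = 1)) (th G T w κ)) : ON p n) = x * A (th G T w κ) := by
              unfold Pool.Agent.W907.SM.slope
              rw [if_pos (decide_eq_true (by rw [hth]; exact h)), map_mul, hxd, hA]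
            rw [h12, ← neg_iff (hui (th G T w κ)) h2, ← hSd]
            rw [h, one_smul] at h9
            exact h9
          · have h12 : (Ideal.Quotient.mk (Ideal.span {(Polynomial.X : Polynomial (ZMod p)) ^ n})
                (slope α β (fun j => decide (ε j.1 = 1)) (th G T w κ)) : ON p n) = 1 + x * B' (th G T w κ) := by
              unfold Pool.Agent.W907.SM.slope
              rw [if_neg (by
                show ¬ (decide (ε (th G T w κ).1 = 1) = true)
                rw [hth, h]
                simpa using hne), map_add, map_one, map_mul, hxd, hB']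
            rw [h12, ← pos_iff (hui (th G T w κ)) h2, ← hSd]
            rw [h, neg_one_smul, neg_inj] at h9
            exact h9
        rw [h11 ε', mul_smul_comm]
      · intro σ t ht htT κ ε'
        show θ (mv G t κ) • e σ (mv G t κ) ε' = θ κ • e σ κ ε'
        have h8 := congrFun (congrFun (h6 σ t (Or.inl ht)) κ) ε'
        have h9 : ε t • e σ (mv G t κ) ε' = - e σ κ ε' := by
          have h10 : (ε t • sQ act b c t) (e σ) κ = ε t • e σ (mv G t κ) := by
            show ε t • act (c t (b t κ)) (e σ (b t κ)) = _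
            rw [hact, hcT t htT, hbT t htT]
            rfl
          rw [h10] at h8
          exact h8
        rw [hθmv t htT, neg_mul, neg_smul, mul_comm, mul_smul, h9, smul_neg, neg_neg]
      · intro ρ κ ε'
        show ∑ v ∈ ρᶜ, sg v ρ • (θ κ • e (insert v ρ) κ ε') = 0
        have h7 : bd (ZMod p) e = 0 := h7
        have h8 := congrFun (congrFun (congrFun h7 ρ) κ) ε'
        rw [bd_apply, Finset.sum_apply, Finset.sum_apply] at h8
        have h9 : ∑ v ∈ ρᶜ, sg v ρ • (θ κ • e (insert v ρ) κ ε') =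
            θ κ • ∑ v ∈ ρᶜ, (sg v ρ • e (insert v ρ)) κ ε' := by
          rw [smul_sum]
          refine sum_congr rfl fun v _ => ?_
          exact smul_comm _ _ _
        rw [h9, h8]
        exact smul_zero _)
  refine ⟨_, inferInstance, ⟨(fun _ => (false, 0), 1, fun _ => false)⟩, aT b c, fun v z => z.2.2 v,
    aT_inv b c hb hc, aT_comm b c hbc hcc, ?_, ?_, ?_⟩
  · intro v z
    show Function.update z.2.2 v (!z.2.2 v) v = !(z.2.2 v)
    rw [Function.update_self]
  · intro u v huv z
    show Function.update z.2.2 v (!z.2.2 v) u = z.2.2 u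
    rw [Function.update_of_ne huv]
  · have hM0 : finrank (ZMod p) ((Fin m → Bool) → ON p n) = 2 ^ m * n := by
      rw [finrank_pi_fintype]
      simp only [hfr0, Finset.sum_const, smul_eq_mul, Finset.card_univ, Fintype.card_fun, Fintype.card_bool,
        Fintype.card_fin]
    rw [hM0] at hmain
    exact hmain

end Pool.Agent.H7.RC
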