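import Pool.Agent.H7.RC.Key
import Pool.Agent.H7.L.R782_Bal_Ex

/-!
# The van Kampen obstruction and the self pairing
-/

set_option autoImplicit false
set_option linter.unusedSectionVars false

namespace Pool.Agent.H7.RC

open Finset Pool.Agent.W555.KS Pool.Agent.R782.Bal

section parts

variable {n : ℕ}

/-- the even or the odd part -/
def part (s : Bool) (U : Finset (Fin n)) : Finset (Fin n) := if s then oddPart U else evenPart U

theorem part_insert (v : Fin n) (U : Finset (Fin n)) (h : ∀ u ∈ U, v < u) :
    evenPart (insert v U) = insert v (oddPart U) ∧ oddPart (insert v U) = evenPart U := by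
  have hv : v ∉ U := fun h1 => lt_irrefl _ (h v h1)
  have h1 : (insert v U).filter (fun w => w < v) = ∅ := by
    rw [filter_eq_empty_iff]
    intro w hw
    rcases mem_insert.mp hw with h2 | h2
    · rw [h2]; exact lt_irrefl v
    · exact not_lt.mpr (h w h2).le
  have h2 : ∀ u ∈ U, ((insert v U).filter (fun w => w < u)).card = (U.filter (fun w => w < u)).card + 1 := by
    intro u hu
    rw [filter_insert, if_pos (h u hu), card_insert_of_notMem]
    intro h3
    exact hv (mem_filter.mp h3).1
  constructor
  · ext u
    simp only [evenPart, oddPart, mem_filter, mem_insert]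
    constructor
    · rintro ⟨h3 | h3, h4⟩
      · exact Or.inl h3
      · right
        refine ⟨h3, ?_⟩
        rw [h2 u h3, Nat.even_add_one] at h4
        exact h4
    · rintro (h3 | ⟨h3, h4⟩)
      · refine ⟨Or.inl h3, ?_⟩
        rw [h3, h1]; simp
      · refine ⟨Or.inr h3, ?_⟩
        rw [h2 u h3, Nat.even_add_one]
        exact h4
  · ext u
    simp only [evenPart, oddPart, mem_filter, mem_insert]
    constructor
    · rintro ⟨h3 | h3, h4⟩
      · rw [h3, h1] at h4
        simp at h4
      · refine ⟨h3, ?_⟩
        rw [h2 u h3, Nat.even_add_one, not_not] at h4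
        exact h4
    · rintro ⟨h3, h4⟩
      refine ⟨Or.inr h3, ?_⟩
      rw [h2 u h3, Nat.even_add_one, not_not]
      exact h4

variable {K : Type} [CommRing K]

theorem P_parts (l : List (Fin n)) : ∀ (s s' : Bool) (Z : Finset (Fin n) → Finset (Fin n) → K)
    (σ τ : Finset (Fin n)), l.Pairwise (· < ·) →
    P l s s' Z σ τ = ∑ U ∈ l.toFinset.powerset.filter (fun U => (Even U.card ↔ s = s')),
      Z (σ ∪ part s U) (τ ∪ part (!s) U) := by
  induction l with
  | nil =>
    intro s s' Z σ τ _
    rw [P_nil, List.toFinset_nil, powerset_empty]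
    by_cases h : s = s'
    · rw [if_pos h, filter_singleton, if_pos (by simp [h]), sum_singleton]
      cases s <;> simp [part, evenPart, oddPart]
    · rw [if_neg h, filter_singleton, if_neg (by simp [h]), sum_empty]
  | cons v l ih =>
    intro s s' Z σ τ hl
    rw [List.pairwise_cons] at hl
    have hv : v ∉ l.toFinset := fun h => lt_irrefl _ (hl.1 v (List.mem_toFinset.mp h))
    rw [List.toFinset_cons, powerset_insert, filter_union, sum_union, filter_image, sum_image]
    · have e1 : ∀ U ∈ l.toFinset.powerset, (insert v U).card = U.card + 1 := by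
        intro U hU
        rw [card_insert_of_notMem]
        exact fun h => hv (mem_powerset.mp hU h)
      have e2 : ∀ U ∈ l.toFinset.powerset, ∀ u ∈ U, v < u := by
        intro U hU u hu
        exact hl.1 u (List.mem_toFinset.mp (mem_powerset.mp hU hu))
      have hf : ∀ b : Bool, (b = !s') = ¬ (b = s') := by intro b; cases b <;> cases s' <;> simp
      cases s
      · rw [P_f, ih false s' Z σ τ hl.2, ih true s' Z (insert v σ) τ hl.2]
        congr 1
        refine sum_congr ?_ ?_
        · ext U
          simp only [mem_filter]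
          constructor
          · rintro ⟨h1, h2⟩
            refine ⟨h1, ?_⟩
            rw [e1 U h1, Nat.even_add_one]
            cases s' <;> simp_all
          · rintro ⟨h1, h2⟩
            refine ⟨h1, ?_⟩
            rw [e1 U h1, Nat.even_add_one] at h2
            cases s' <;> simp_all
        · intro U hU
          have h3 := part_insert v U (e2 U (mem_filter.mp hU).1)
          simp only [part, Bool.not_false, Bool.not_true, if_true]
          simp only [Bool.false_eq_true, if_false]
          rw [h3.1, h3.2, insert_union, union_insert]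
      · rw [P_t, ih true s' Z σ τ hl.2, ih false s' Z σ (insert v τ) hl.2]
        congr 1
        refine sum_congr ?_ ?_
        · ext U
          simp only [mem_filter]
          constructor
          · rintro ⟨h1, h2⟩
            refine ⟨h1, ?_⟩
            rw [e1 U h1, Nat.even_add_one]
            cases s' <;> simp_all
          · rintro ⟨h1, h2⟩
            refine ⟨h1, ?_⟩
            rw [e1 U h1, Nat.even_add_one] at h2
            cases s' <;> simp_all
        · intro U hU
          have h3 := part_insert v U (e2 U (mem_filter.mp hU).1)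
          simp only [part, Bool.not_false, Bool.not_true, if_true]
          simp only [Bool.false_eq_true, if_false]
          rw [h3.1, h3.2, insert_union, union_insert]
    · intro U hU U' hU' h
      have h1 : v ∉ U := fun h1 => hv (mem_powerset.mp (mem_filter.mp hU).1 h1)
      have h2 : v ∉ U' := fun h1 => hv (mem_powerset.mp (mem_filter.mp hU').1 h1)
      rw [← erase_insert h1, ← erase_insert h2, h]
    · rw [disjoint_left]
      intro U hU hU'
      obtain ⟨U1, _, rfl⟩ := mem_image.mp (mem_filter.mp hU').1
      exact hv (mem_powerset.mp (mem_filter.mp hU).1 (mem_insert_self v U1))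

end parts

section map

variable {U V K : Type} [DecidableEq U] [DecidableEq V] [CommRing K]

theorem P_map (e : U ≃ V) (l : List U) : ∀ (s s' : Bool) (Z : Finset V → Finset V → K) (σ τ : Finset U),
    P (l.map e) s s' Z (σ.map e.toEmbedding) (τ.map e.toEmbedding) =
      P l s s' (fun a b => Z (a.map e.toEmbedding) (b.map e.toEmbedding)) σ τ := by
  induction l with
  | nil => intro s s' Z σ τ; rw [List.map_nil, P_nil, P_nil]
  | cons v l ih =>
    intro s s' Z σ τ
    have h1 : ∀ σ : Finset U, insert (e v) (σ.map e.toEmbedding) = (insert v σ).map e.toEmbedding := by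
      intro σ; rw [map_insert]; rfl
    cases s
    · rw [List.map_cons, P_f, P_f, h1, ih, ih]
    · rw [List.map_cons, P_t, P_t, h1, ih, ih]

end map

section vk

variable {V C Q K : Type} [Fintype V] [DecidableEq V] [DecidableEq C] [Fintype Q] [Field K] [CharP K 2]

theorem pr_symm (S : Finset C) (ν : Q → K) (f g : Q → Finset C → K) : pr S ν f g = pr S ν g f := by
  rw [pr, pr]
  refine sum_congr rfl fun κ _ => ?_
  congr 1
  refine sum_nbij' (fun ε => S \ ε) (fun ε => S \ ε) ?_ ?_ ?_ ?_ ?_
  · intro ε _; exact mem_powerset.mpr sdiff_subset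
  · intro ε _; exact mem_powerset.mpr sdiff_subset
  · intro ε hε
    rw [mem_powerset] at hε
    exact Finset.sdiff_sdiff_eq_self hε
  · intro ε hε
    rw [mem_powerset] at hε
    exact Finset.sdiff_sdiff_eq_self hε
  · intro ε hε
    rw [mem_powerset] at hε
    rw [Finset.sdiff_sdiff_eq_self hε, mul_comm]

/-- **The self pairing vanishes if the obstruction does.** -/
theorem vk_zero {G : SimpleGraph V} {T : Set V} [DecidablePred (· ∈ T)] {col : V → C} {t : V → Q → K}
    {S : Finset C} {ν : Q → K} {x : Finset V → Q → Finset C → K} (h : Dat T col t S ν x)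
    (hG : ∀ σ : Finset V, ¬ G.IsClique (σ : Set V) → ∀ κ, ∀ ε ⊆ S, x σ κ ε = 0)
    (hO : Obs G (2 * S.card)) :
    ∑ κ, ν κ * ∑ σ ∈ univ.filter (fun σ : Finset V => ∀ w ∈ σ, w ∉ T), (∏ w ∈ σ, t w κ) * x σ κ ∅ ^ 2 = 0 := by
  classical
  obtain ⟨n, ⟨e⟩⟩ : ∃ n, Nonempty (V ≃ Fin n) := ⟨_, ⟨Fintype.equivFin V⟩⟩
  rw [← key T col t S ν x h ((List.finRange n).map e.symm)
    ((List.nodup_finRange n).map e.symm.injective) (by
      intro v
      rw [List.mem_map]
      exact ⟨e v, List.mem_finRange _, e.symm_apply_apply v⟩)]
  have h1 := P_map e.symm (List.finRange n) false false (fun a b => pr S ν (x a) (x b)) ∅ ∅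
  rw [map_empty] at h1
  rw [h1, P_parts _ _ _ _ _ _ (List.pairwise_lt_finRange n)]
  obtain ⟨Z, hZ⟩ : ∃ Z : Finset (Fin n) → Finset (Fin n) → K, ∀ a b, Z a b =
    pr S ν (x (a.map e.symm.toEmbedding)) (x (b.map e.symm.toEmbedding)) := ⟨_, fun _ _ => rfl⟩
  have hcard : ∀ a b, Z a b ≠ 0 → a.card = S.card ∧ b.card = S.card := by
    intro a b hab
    constructor
    · by_contra hne
      apply hab
      rw [hZ]
      exact pr_zero_left (h.card _ (by rw [card_map]; exact hne))
    · by_contra hne
      apply hab
      rw [hZ]
      exact pr_zero_right (h.card _ (by rw [card_map]; exact hne))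
  have hmi : ∀ (v : Fin n) (σ : Finset (Fin n)),
      (insert v σ).map e.symm.toEmbedding = insert (e.symm v) (σ.map e.symm.toEmbedding) := by
    intro v σ; rw [map_insert]; rfl
  have hVK := hO n e K Z (by intro σ τ; rw [hZ, hZ]; exact pr_symm S ν _ _) (by
      intro σ τ hne
      constructor
      · rw [mem_clF]
        by_contra hcl
        apply hne
        rw [hZ]
        exact pr_zero_left (hG _ hcl)
      · rw [mem_clF]
        by_contra hcl
        apply hne
        rw [hZ]
        exact pr_zero_right (hG _ hcl)) (by
      intro ρ τ hd _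
      have h2 : ∀ ρ τ : Finset (Fin n), Disjoint ρ τ → ∑ v ∈ (ρ ∪ τ)ᶜ, Z (insert v ρ) τ = 0 := by
        intro ρ τ hd
        have e1 : ∑ v ∈ (ρ ∪ τ)ᶜ, Z (insert v ρ) τ = ∑ v ∈ ρᶜ, Z (insert v ρ) τ := by
          refine sum_subset ?_ ?_
          · intro v hv
            rw [mem_compl, mem_union, not_or] at hv
            exact mem_compl.mpr hv.1
          · intro v hv hv2
            rw [mem_compl] at hv
            rw [mem_compl, mem_union, not_not] at hv2
            have hvτ := hv2.resolve_left hv
            rw [hZ]
            refine h.iso _ _ (e.symm v) ?_ ?_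
            · rw [hmi]; exact mem_insert_self _ _
            · exact mem_map_of_mem _ hvτ
        rw [e1]
        simp only [hZ, hmi]
        have e2 : ∑ v ∈ ρᶜ, pr S ν (x (insert (e.symm v) (ρ.map e.symm.toEmbedding)))
            (x (τ.map e.symm.toEmbedding)) =
            ∑ w ∈ (ρ.map e.symm.toEmbedding)ᶜ, pr S ν (x (insert w (ρ.map e.symm.toEmbedding)))
            (x (τ.map e.symm.toEmbedding)) := by
          refine sum_nbij (fun v => e.symm v) ?_ ?_ ?_ ?_
          · intro v hv
            rw [mem_compl] at hv ⊢
            intro h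
            obtain ⟨w, hw, h2⟩ := mem_map.mp h
            exact hv (e.symm.injective h2 ▸ hw)
          · intro a _ b _ h
            exact e.symm.injective h
          · intro w hw
            rw [mem_coe, mem_compl] at hw
            refine ⟨e w, ?_, e.symm_apply_apply w⟩
            rw [mem_coe, mem_compl]
            intro h
            exact hw (mem_map.mpr ⟨e w, h, e.symm_apply_apply w⟩)
          · intro v _
            rfl
        rw [e2, pr_sum_left]
        exact pr_zero_left fun κ ε hε => h.cyc _ κ ε hε
      rw [sum_add_distrib, h2 ρ τ hd, zero_add]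
      have h3 := h2 τ ρ hd.symm
      rw [union_comm] at h3
      rw [← h3]
      refine sum_congr rfl fun v _ => ?_
      rw [hZ, hZ]
      exact pr_symm S ν _ _)
  rw [← hVK]
  symm
  have hpc : ∀ U : Finset (Fin n), (evenPart U).card + (oddPart U).card = U.card := by
    intro U
    rw [evenPart, oddPart]
    exact card_filter_add_card_filter_not _
  have e3 : ∀ U : Finset (Fin n), Z (evenPart U) (oddPart U) =
      pr S ν (x ((∅ ∪ part false U).map e.symm.toEmbedding)) (x ((∅ ∪ part (!false) U).map e.symm.toEmbedding)) := by
    intro U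
    rw [hZ, empty_union, empty_union]
    rfl
  have hl : (List.finRange n).toFinset = univ := by
    ext a; simp
  rw [hl]
  rw [sum_congr rfl fun U _ => e3 U]
  refine sum_subset_zero_on_sdiff ?_ ?_ ?_
  · intro U hU
    rw [mem_powersetCard] at hU
    rw [mem_filter, mem_powerset]
    refine ⟨subset_univ _, ?_⟩
    simp [hU.2]
  · intro U hU
    rw [mem_sdiff, mem_powersetCard] at hU
    rw [← e3]
    by_contra hne
    have h4 := hcard _ _ hne
    apply hU.2
    refine ⟨subset_univ _, ?_⟩
    rw [← hpc U, h4.1, h4.2]
    ring
  · intro U _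
    rfl

end vk

end Pool.Agent.H7.RC
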