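import Pool.Agent.H7.RC.Sys
import Pool.Agent.H7.RC.Vk
import Pool.Agent.H7.L.W907_SM_All

/-!
# The generic solutions in characteristic two
-/

set_option autoImplicit false
set_option linter.unusedSectionVars false

namespace Pool.Agent.H7.RC

open Finset Module Pool.Agent.W907.SM Pool.Agent.W907.SG Pool.Agent.R782.Bal

section gen

variable {V : Type} [Fintype V] [LinearOrder V] {M m : ℕ} [NeZero M]

/-- the generic field -/
abbrev K2 (V : Type) (M : ℕ) : Type := FractionRing (MvPolynomial (V × QQ V M) (ZMod 2))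

/-- the generic slopes -/
noncomputable def sgen (V : Type) (M : ℕ) (j : V × QQ V M) : K2 V M :=
  algebraMap (MvPolynomial (V × QQ V M) (ZMod 2)) (K2 V M) (MvPolynomial.X j)

theorem sgen_inj (V : Type) (M : ℕ) : Function.Injective (sgen V M) := by
  intro i j h
  exact MvPolynomial.X_injective ((IsFractionRing.injective _ (K2 V M)) h)

theorem phi_X (j : V × QQ V M) : φ2 (V × QQ V M) (MvPolynomial.X j) = sgen V M j := by
  show algebraMap _ _ (MvPolynomial.map (Int.castRingHom (ZMod 2)) (MvPolynomial.X j)) = _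
  rw [MvPolynomial.map_X]
  rfl

variable {G : SimpleGraph V} {T : Set V} {col : V → Fin m}

theorem upd_ins (c : Fin m) (ε : Finset (Fin m)) (hc : c ∉ ε) :
    (fun a => decide (a ∈ insert c ε)) = Function.update (fun a => decide (a ∈ ε)) c true ∧
    (fun a => decide (a ∈ ε)) = Function.update (fun a => decide (a ∈ ε)) c false := by
  constructor
  · funext a
    by_cases h : a = c
    · subst h; simp
    · rw [Function.update_of_ne h]
      simp [h]
  · funext a
    by_cases h : a = c
    · subst h; simp [hc]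
    · rw [Function.update_of_ne h]

/-- the solutions vanish on the simplices which do not meet `T` -/
theorem sys_zero (hcol : ∀ u w, u ∉ T → w ∉ T → G.Adj u w → col u ≠ col w)
    (hdim : ∀ σ : Finset V, G.IsClique (σ : Set V) → σ.card ≤ m) (hO : Obs G (2 * m))
    {x : Finset V → QQ V M → (Fin m → Bool) → K2 V M} (hx : Sys G T col (sgen V M) x)
    (σ : Finset V) (hσ : ∀ u ∈ σ, u ∉ T) (κ : QQ V M) (ε : Fin m → Bool) : x σ κ ε = 0 := by
  classical
  have : CharP (MvPolynomial (V × QQ V M) (ZMod 2)) 2 := inferInstance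
  have : CharP (K2 V M) 2 := inferInstance
  obtain ⟨x', hx'⟩ : ∃ x' : Finset V → QQ V M → Finset (Fin m) → K2 V M, ∀ σ κ ε, x' σ κ ε =
    x σ κ (fun a => decide (a ∈ ε)) := ⟨_, fun _ _ _ => rfl⟩
  have hncl : ∀ (σ : Finset V), ¬ (G.IsClique (σ : Set V) ∧ σ.card = m) → ∀ κ ε, x' σ κ ε = 0 := by
    intro σ hσ κ ε
    rw [hx', hx.supp σ hσ]
  have hline : ∀ (σ : Finset V), ∀ w ∈ σ, w ∉ T → ∀ κ (ε : Finset (Fin m)), col w ∉ ε →
      x' σ κ (insert (col w) ε) = sgen V M (th G T w κ) * x' σ κ ε := by
    intro σ w hw hwT κ ε hε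
    rw [hx', hx', (upd_ins (col w) ε hε).1, hx.line σ w hw hwT]
    conv_rhs => rw [(upd_ins (col w) ε hε).2]
  have hD : Dat T col (fun w κ => sgen V M (th G T w κ)) (univ : Finset (Fin m)) (fun _ : QQ V M => (1 : K2 V M)) x' :=
    { card := by
        intro σ hσ κ ε _
        refine hncl σ ?_ κ ε
        rintro ⟨_, h2⟩
        rw [card_univ, Fintype.card_fin] at hσ
        exact hσ h2
      colr := by
        intro σ w _ _ hw
        exact absurd (mem_univ _) hw
      inj := by
        intro σ w hw w' hw' hT hT' hne hcc κ ε _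
        refine hncl σ ?_ κ ε
        rintro ⟨h1, _⟩
        exact hcol w w' hT hT' (h1 hw hw' hne) hcc
      line := by
        intro σ w hw hwT _ κ ε _ hε
        exact hline σ w hw hwT κ ε hε
      mov := by
        intro σ τ u hσ hτ hu ε _ ε' _
        refine sum_involution (fun κ _ => mv G u κ) ?_ ?_ ?_ ?_
        · intro κ _
          rw [hx', hx', hx', hx', hx.inv σ u hσ hu, hx.inv τ u hτ hu]
          exact CharTwo.add_self_eq_zero _
        · intro κ _ _
          exact mv_neq u κ
        · intro κ _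
          exact mem_univ _
        · intro κ _
          exact mv_mv u κ
      cyc := by
        intro ρ κ ε _
        have h1 := hx.cyc ρ κ (fun a => decide (a ∈ ε))
        rw [← h1]
        refine sum_congr rfl fun v _ => ?_
        rw [hx', sg_smul (K := K2 V M)] }
  have hG : ∀ σ : Finset V, ¬ G.IsClique (σ : Set V) → ∀ κ, ∀ ε ⊆ (univ : Finset (Fin m)), x' σ κ ε = 0 := by
    intro σ hσ κ ε _
    exact hncl σ (fun h => hσ h.1) κ ε
  have hsum := vk_zero hD hG (by rw [card_univ, Fintype.card_fin]; exact hO)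
  simp only [one_mul] at hsum
  -- the set of the relevant pairs
  set A : Finset (QQ V M × Finset V) := (univ ×ˢ univ.filter (fun σ : Finset V => ∀ w ∈ σ, w ∉ T)).filter
    (fun a => G.IsClique (a.2 : Set V) ∧ a.2.card = m) with hA
  let U : QQ V M × Finset V → Finset (V × QQ V M) := fun a => a.2.image (fun w => th G T w a.1)
  have hUσ : ∀ a, (U a).image Prod.fst = a.2 := by
    intro a
    rw [image_image]
    have : (Prod.fst ∘ fun w => th G T w a.1) = id := by
      funext w; rfl
    rw [this, image_id]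
  have hUth : ∀ a, ∀ w ∈ a.2, ∀ j ∈ U a, j.1 = w → j = th G T w a.1 := by
    intro a w _ j hj hjw
    obtain ⟨w', _, rfl⟩ := mem_image.mp hj
    have : w' = w := hjw
    rw [this]
  have hUinj : Set.InjOn U (A : Set (QQ V M × Finset V)) := by
    intro a ha b hb hab
    rw [mem_coe, hA, mem_filter, mem_product, mem_filter] at ha hb
    have h2 : a.2 = b.2 := by rw [← hUσ a, ← hUσ b, hab]
    refine Prod.ext ?_ h2
    funext u
    -- find a vertex of the simplex such that `u` is not masked
    have h3 : ∃ w ∈ a.2, ¬ (u ∈ T ∧ G.Adj w u) := by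
      by_contra hcon
      push Not at hcon
      by_cases hne : a.2.Nonempty
      · obtain ⟨w0, hw0⟩ := hne
        have huT := (hcon w0 hw0).1
        have hu : u ∉ a.2 := fun h => (ha.1.2.2 u h) huT
        have hcl : G.IsClique ((insert u a.2 : Finset V) : Set V) := by
          rw [coe_insert, SimpleGraph.isClique_insert]
          exact ⟨ha.2.1, fun b hb _ => (hcon b hb).2.symm⟩
        have h4 := hdim _ hcl
        rw [card_insert_of_notMem hu, ha.2.2] at h4
        omega
      · -- no vertices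
        rw [not_nonempty_iff_eq_empty] at hne
        have h5 := ha.2.2
        rw [hne, card_empty] at h5
        have h6 := hdim {u} (by simp)
        rw [card_singleton] at h6
        omega
    obtain ⟨w, hw, hwu⟩ := h3
    have h4 : th G T w a.1 ∈ U b := hab ▸ mem_image_of_mem _ hw
    have h5 := hUth b w (h2 ▸ hw) _ h4 rfl
    have h6 := congrFun (congrArg Prod.snd h5) u
    simp only [th, if_neg hwu] at h6
    exact h6
  have hprod : ∀ a, ∏ w ∈ a.2, sgen V M (th G T w a.1) = ∏ j ∈ U a, sgen V M j := by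
    intro a
    rw [prod_image]
    intro w _ w' _ h
    exact congrArg Prod.fst h
  -- the function on the sets of parameters
  obtain ⟨y, hy⟩ : ∃ y : Finset (V × QQ V M) → K2 V M, ∀ W, y W =
    ∑ a ∈ A.filter (fun a => U a = W), x' a.2 a.1 ∅ := ⟨_, fun _ => rfl⟩
  have hyU : ∀ a ∈ A, y (U a) = x' a.2 a.1 ∅ := by
    intro a ha
    rw [hy, sum_eq_single a]
    · intro b hb hne
      rw [mem_filter] at hb
      exact absurd (hUinj hb.1 ha hb.2) hne
    · intro h
      exact absurd (mem_filter.mpr (⟨ha, rfl⟩ : a ∈ A ∧ U a = U a)) h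
  have hy0 : ∀ W, W ∉ A.image U → y W = 0 := by
    intro W hW
    rw [hy]
    refine sum_eq_zero fun a ha => ?_
    rw [mem_filter] at ha
    exact absurd (mem_image.mpr ⟨a, ha.1, ha.2⟩) hW
  have hind := genind (V × QQ V M) Set.univ y (fun W hW => absurd (Set.subset_univ _) hW) (by
    have e1 : ∑ W : Finset (V × QQ V M), (∏ j ∈ W, sgen V M j) * y W ^ 2 =
        ∑ W ∈ A.image U, (∏ j ∈ W, sgen V M j) * y W ^ 2 := by
      symm
      refine sum_subset (subset_univ _) fun W _ hW => ?_
      rw [hy0 W hW]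
      ring
    refine e1.trans ?_
    have e2 : ∑ a ∈ A, (∏ j ∈ U a, sgen V M j) * y (U a) ^ 2 =
        ∑ a ∈ A, (∏ w ∈ a.2, sgen V M (th G T w a.1)) * x' a.2 a.1 ∅ ^ 2 :=
      sum_congr rfl fun a ha => by rw [hyU a ha, ← hprod]
    have e3 : ∑ a ∈ A, (∏ w ∈ a.2, sgen V M (th G T w a.1)) * x' a.2 a.1 ∅ ^ 2 =
        ∑ a ∈ (univ : Finset (QQ V M)) ×ˢ univ.filter (fun σ : Finset V => ∀ w ∈ σ, w ∉ T),
          (∏ w ∈ a.2, sgen V M (th G T w a.1)) * x' a.2 a.1 ∅ ^ 2 := by
      refine sum_subset (filter_subset _ _) fun a ha hna => ?_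
      have : ¬ (G.IsClique (a.2 : Set V) ∧ a.2.card = m) := fun h => hna (mem_filter.mpr ⟨ha, h⟩)
      rw [hncl a.2 this]
      ring
    rw [sum_image hUinj, e2, e3, sum_product]
    exact hsum)
  have hempty : ∀ (σ : Finset V), (∀ u ∈ σ, u ∉ T) → G.IsClique (σ : Set V) → σ.card = m →
      ∀ κ, x' σ κ ∅ = 0 := by
    intro σ hσ h1 h2 κ
    have ha : (κ, σ) ∈ A := by
      rw [hA, mem_filter, mem_product, mem_filter]
      exact ⟨⟨mem_univ _, mem_univ _, hσ⟩, h1, h2⟩
    rw [← hyU (κ, σ) ha, hind]
    rfl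
  -- all components
  have hall : ∀ (ε : Finset (Fin m)), x' σ κ ε = 0 := by
    intro ε
    by_cases hcl : G.IsClique (σ : Set V) ∧ σ.card = m
    · induction ε using Finset.induction_on with
      | empty => exact hempty σ hσ hcl.1 hcl.2 κ
      | insert c ε hc ih =>
        have hinj : Set.InjOn col (σ : Set V) := by
          intro a ha b hb hab
          by_contra hne
          exact hcol a b (hσ a ha) (hσ b hb) (hcl.1 ha hb hne) hab
        have himg : σ.image col = univ := by
          rw [← card_eq_iff_eq_univ, card_image_of_injOn hinj, hcl.2, Fintype.card_fin]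
        obtain ⟨w, hw, hwc⟩ := mem_image.mp (himg ▸ mem_univ c : c ∈ σ.image col)
        subst hwc
        rw [hline σ w hw (hσ w hw) κ ε hc, ih, mul_zero]
    · exact hncl σ hcl κ ε
  have h7 := hall (univ.filter (fun a => ε a = true))
  rw [hx'] at h7
  rw [← h7]
  congr 1
  funext a
  simp

end gen

end Pool.Agent.H7.RC
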