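import Pool.Agent.H7.RC.Words

/-!
# The self pairing of cycles in characteristic 2
-/

set_option autoImplicit false

namespace Pool.Agent.H7.RC

open Finset

section key

variable {V C Q K : Type} [Fintype V] [DecidableEq V] [DecidableEq C] [Fintype Q] [CommRing K] [CharP K 2]

/-- the pairing -/
def pr (S : Finset C) (ν : Q → K) (f g : Q → Finset C → K) : K :=
  ∑ κ, ν κ * ∑ ε ∈ S.powerset, f κ ε * g κ (S \ ε)

/-- cycles with values in the sum over `Q` of the tensor products of planes over `S`; the vertices which are not in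
`T` act by their lines with the slopes `t`, the others by moving the points of `Q` -/
structure Dat (T : Set V) (col : V → C) (t : V → Q → K) (S : Finset C) (ν : Q → K)
    (x : Finset V → Q → Finset C → K) : Prop where
  card : ∀ σ : Finset V, σ.card ≠ S.card → ∀ κ, ∀ ε ⊆ S, x σ κ ε = 0
  colr : ∀ (σ : Finset V), ∀ w ∈ σ, w ∉ T → col w ∉ S → ∀ κ, ∀ ε ⊆ S, x σ κ ε = 0
  inj : ∀ (σ : Finset V), ∀ w ∈ σ, ∀ w' ∈ σ, w ∉ T → w' ∉ T → w ≠ w' → col w = col w' →
    ∀ κ, ∀ ε ⊆ S, x σ κ ε = 0
  line : ∀ (σ : Finset V), ∀ w ∈ σ, w ∉ T → col w ∈ S → ∀ κ, ∀ ε ⊆ S, col w ∉ ε →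
    x σ κ (insert (col w) ε) = t w κ * x σ κ ε
  mov : ∀ (σ τ : Finset V), ∀ u ∈ σ, u ∈ τ → u ∈ T → ∀ ε ⊆ S, ∀ ε' ⊆ S,
    ∑ κ, ν κ * (x σ κ ε * x τ κ ε') = 0
  cyc : ∀ (ρ : Finset V) (κ : Q), ∀ ε ⊆ S, ∑ v ∈ ρᶜ, x (insert v ρ) κ ε = 0

omit [Fintype Q] [CharP K 2] in
theorem pow_ins {c : C} {S : Finset C} (hc : c ∉ S) (F : Finset C → K) :
    ∑ ε ∈ (insert c S).powerset, F ε = ∑ ε ∈ S.powerset, (F ε + F (insert c ε)) := by
  rw [Finset.sum_powerset_insert hc, sum_add_distrib]

omit [Fintype V] [DecidableEq V] [Fintype Q] in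
/-- two functions on the same line are orthogonal -/
theorem line_orth {c : C} {S : Finset C} (hc : c ∈ S) (t : K) (f g : Finset C → K)
    (hf : ∀ ε ⊆ S, c ∉ ε → f (insert c ε) = t * f ε) (hg : ∀ ε ⊆ S, c ∉ ε → g (insert c ε) = t * g ε) :
    ∑ ε ∈ S.powerset, f ε * g (S \ ε) = 0 := by
  obtain ⟨S', hc', rfl⟩ : ∃ S', c ∉ S' ∧ insert c S' = S := ⟨S.erase c, notMem_erase c S, insert_erase hc⟩
  rw [pow_ins hc']
  refine sum_eq_zero fun ε hε => ?_
  rw [mem_powerset] at hε
  have hcε : c ∉ ε := fun h => hc' (hε h)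
  have e1 : insert c S' \ ε = insert c (S' \ ε) := by
    rw [insert_sdiff_of_notMem _ hcε]
  have e2 : insert c S' \ insert c ε = S' \ ε := by
    ext a
    simp only [mem_sdiff, mem_insert]
    constructor
    · rintro ⟨h1 | h1, h2⟩
      · exact absurd (Or.inl h1) h2
      · exact ⟨h1, fun h => h2 (Or.inr h)⟩
    · rintro ⟨h1, h2⟩
      refine ⟨Or.inr h1, ?_⟩
      rintro (h3 | h3)
      · exact hc' (h3 ▸ h1)
      · exact h2 h3
  rw [e1, e2, hf ε (hε.trans (subset_insert c S')) hcε,
    hg (S' \ ε) (sdiff_subset.trans (subset_insert c S')) (fun h => hc' (mem_sdiff.mp h).1)]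
  have := CharTwo.add_self_eq_zero (t * f ε * g (S' \ ε))
  linear_combination this

/-- isotropy -/
theorem Dat.iso {T : Set V} {col : V → C} {t : V → Q → K} {S : Finset C} {ν : Q → K}
    {x : Finset V → Q → Finset C → K} (h : Dat T col t S ν x) (σ τ : Finset V) (u : V) (h1 : u ∈ σ)
    (h2 : u ∈ τ) : pr S ν (x σ) (x τ) = 0 := by
  rw [pr]
  by_cases hu : u ∈ T
  · simp only [mul_sum]
    rw [sum_comm]
    refine sum_eq_zero fun ε hε => ?_
    exact h.mov σ τ u h1 h2 hu ε (mem_powerset.mp hε) _ sdiff_subset
  · by_cases hc : col u ∈ S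
    · refine sum_eq_zero fun κ _ => ?_
      rw [line_orth hc (t u κ) (x σ κ) (x τ κ) (fun ε hε hcε => h.line σ u h1 hu hc κ ε hε hcε)
        (fun ε hε hcε => h.line τ u h2 hu hc κ ε hε hcε), mul_zero]
    · refine sum_eq_zero fun κ _ => ?_
      rw [sum_eq_zero, mul_zero]
      intro ε hε
      rw [h.colr σ u h1 hu hc κ ε (mem_powerset.mp hε), zero_mul]

omit [CharP K 2] [DecidableEq V] in
theorem pr_zero_left {S : Finset C} {ν : Q → K} {f g : Q → Finset C → K} (hf : ∀ κ, ∀ ε ⊆ S, f κ ε = 0) :
    pr S ν f g = 0 := by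
  rw [pr]
  refine sum_eq_zero fun κ _ => ?_
  rw [sum_eq_zero, mul_zero]
  intro ε hε
  rw [hf κ ε (mem_powerset.mp hε), zero_mul]

omit [CharP K 2] [DecidableEq V] in
theorem pr_zero_right {S : Finset C} {ν : Q → K} {f g : Q → Finset C → K} (hg : ∀ κ, ∀ ε ⊆ S, g κ ε = 0) :
    pr S ν f g = 0 := by
  rw [pr]
  refine sum_eq_zero fun κ _ => ?_
  rw [sum_eq_zero, mul_zero]
  intro ε hε
  rw [hg κ _ sdiff_subset, mul_zero]

omit [CharP K 2] [DecidableEq V] in
theorem pr_sum_left {ι : Type} (A : Finset ι) (S : Finset C) (ν : Q → K) (f : ι → Q → Finset C → K)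
    (g : Q → Finset C → K) : ∑ i ∈ A, pr S ν (f i) g = pr S ν (fun κ ε => ∑ i ∈ A, f i κ ε) g := by
  simp only [pr]
  rw [sum_comm]
  refine sum_congr rfl fun κ _ => ?_
  rw [← mul_sum, sum_comm]
  congr 1
  refine sum_congr rfl fun ε _ => ?_
  rw [sum_mul]

/-- the boundary relation for words -/
theorem Dat.word {T : Set V} {col : V → C} {t : V → Q → K} {S : Finset C} {ν : Q → K}
    {x : Finset V → Q → Finset C → K} (h : Dat T col t S ν x) (w u : V) (L : List V)
    (hw : ∀ σ, w ∈ σ → ∀ κ, ∀ ε ⊆ S, x σ κ ε = 0) (hL : L.Nodup) (huL : u ∉ L)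
    (hall : ∀ v, v = w ∨ v = u ∨ v ∈ L) :
    P L false true (fun a b => pr S ν (x a) (x (insert u b))) ∅ ∅ = 0 := by
  rw [← (d1_W L (fun a b => pr S ν (x a) (x (insert u b))) ∅ ∅ hL (by simp) (by simp) (by simp)).1]
  refine (P_congr L false false _ (fun _ _ => 0) ∅ ∅ hL (by simp) (by simp) (by simp) ?_).trans
    (P_zero L false false ∅ ∅)
  intro a b ha hb _
  have hua : u ∉ a := by rw [ha u huL]; simp
  have e1 : d1 L (fun a b => pr S ν (x a) (x (insert u b))) a b =
      ∑ v ∈ L.toFinset, if v ∈ a ∨ v ∈ b then 0 else pr S ν (x (insert v a)) (x (insert u b)) := by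
    rw [d1, List.sum_toFinset _ hL]
  have e2 : ∑ v ∈ aᶜ, pr S ν (x (insert v a)) (x (insert u b)) = 0 := by
    rw [pr_sum_left]
    exact pr_zero_left fun κ ε hε => h.cyc a κ ε hε
  rw [e1]
  have e3 : ∑ v ∈ L.toFinset, (if v ∈ a ∨ v ∈ b then 0 else pr S ν (x (insert v a)) (x (insert u b))) =
      ∑ v, (if v ∈ a ∨ v ∈ b then 0 else pr S ν (x (insert v a)) (x (insert u b))) := by
    refine sum_subset (subset_univ _) fun v _ hv => ?_
    split_ifs with h1
    · rfl
    · rw [List.mem_toFinset] at hv
      rcases hall v with h2 | h2 | h2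
      · subst h2
        exact pr_zero_left (hw _ (mem_insert_self v a))
      · subst h2
        exact h.iso _ _ v (mem_insert_self v a) (mem_insert_self v b)
      · exact absurd h2 hv
  have e4 : ∑ v ∈ aᶜ, pr S ν (x (insert v a)) (x (insert u b)) =
      ∑ v, (if v ∈ a ∨ v ∈ b then 0 else pr S ν (x (insert v a)) (x (insert u b))) := by
    rw [← sum_subset (subset_univ aᶜ)]
    · refine sum_congr rfl fun v hv => ?_
      rw [mem_compl] at hv
      split_ifs with h1
      · rcases h1 with h1 | h1
        · exact absurd h1 hv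
        · exact h.iso _ _ v (mem_insert_self v a) (mem_insert_of_mem h1)
      · rfl
    · intro v _ hv
      rw [mem_compl, not_not] at hv
      rw [if_pos (Or.inl hv)]
  rw [e3, ← e4, e2]

/-- the link of a vertex `w` of the colour `c` -/
theorem Dat.link {T : Set V} {col : V → C} {t : V → Q → K} {S : Finset C} {c : C} (hc : c ∉ S) {ν : Q → K}
    {x : Finset V → Q → Finset C → K} (h : Dat T col t (insert c S) ν x) {w : V} (hw : w ∉ T) (hwc : col w = c) :
    Dat T col t S (fun κ => ν κ * t w κ) (fun σ => if w ∈ σ then fun _ _ => 0 else x (insert w σ)) where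
  card σ hσ κ ε hε := by
    split_ifs with h1
    · rfl
    · refine h.card _ ?_ κ ε (hε.trans (subset_insert c S))
      rw [card_insert_of_notMem h1, card_insert_of_notMem hc]
      omega
  colr σ v hv hvT hvc κ ε hε := by
    split_ifs with h1
    · rfl
    · by_cases h2 : col v = c
      · refine h.inj _ v (mem_insert_of_mem hv) w (mem_insert_self w σ) hvT hw ?_ (h2.trans hwc.symm) κ ε
          (hε.trans (subset_insert c S))
        rintro rfl
        exact h1 hv
      · refine h.colr _ v (mem_insert_of_mem hv) hvT ?_ κ ε (hε.trans (subset_insert c S))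
        rw [mem_insert]
        exact not_or.mpr ⟨h2, hvc⟩
  inj σ v hv v' hv' hvT hvT' hne hcc κ ε hε := by
    split_ifs with h1
    · rfl
    · exact h.inj _ v (mem_insert_of_mem hv) v' (mem_insert_of_mem hv') hvT hvT' hne hcc κ ε
        (hε.trans (subset_insert c S))
  line σ v hv hvT hvc κ ε hε hcε := by
    split_ifs with h1
    · rw [mul_zero]
    · exact h.line _ v (mem_insert_of_mem hv) hvT (mem_insert_of_mem hvc) κ ε (hε.trans (subset_insert c S)) hcε
  mov σ τ u hσ hτ hu ε hε ε' hε' := by
    by_cases h1 : w ∈ σ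
    · simp [h1]
    by_cases h2 : w ∈ τ
    · simp [h2]
    simp only [h1, h2, if_false]
    have h3 := h.mov (insert w σ) (insert w τ) u (mem_insert_of_mem hσ) (mem_insert_of_mem hτ) hu ε
      (hε.trans (subset_insert c S)) (insert c ε') (insert_subset_insert c hε')
    rw [← h3]
    refine sum_congr rfl fun κ _ => ?_
    have h4 := h.line (insert w τ) w (mem_insert_self w τ) hw (hwc ▸ mem_insert_self c S) κ ε'
      (hε'.trans (subset_insert c S)) (by rw [hwc]; exact fun h => hc (hε' h))
    rw [hwc] at h4
    rw [h4]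
    ring
  cyc ρ κ ε hε := by
    by_cases h1 : w ∈ ρ
    · refine sum_eq_zero fun v _ => ?_
      simp [h1]
    · have h2 := h.cyc (insert w ρ) κ ε (hε.trans (subset_insert c S))
      refine Eq.trans ?_ h2
      rw [← insert_erase (mem_compl.mpr h1 : w ∈ ρᶜ), sum_insert (notMem_erase w _)]
      have e0 : (if w ∈ insert w ρ then (fun _ _ => (0 : K)) else x (insert w (insert w ρ))) κ ε = 0 := by
        rw [if_pos (mem_insert_self w ρ)]
      rw [e0, zero_add]
      have e : (insert w ρ)ᶜ = ρᶜ.erase w := by
        ext a; simp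
      rw [e]
      refine sum_congr rfl fun v hv => ?_
      rw [mem_erase, mem_compl] at hv
      rw [if_neg, insert_comm]
      rw [mem_insert]
      exact not_or.mpr ⟨hv.1.symm, h1⟩

/-- **The self pairing of a cycle** is the sum of the squares of its coordinates with the products of the slopes as
coefficients. -/
theorem key (T : Set V) [DecidablePred (· ∈ T)] (col : V → C) (t : V → Q → K) (S : Finset C) :
    ∀ (ν : Q → K) (x : Finset V → Q → Finset C → K), Dat T col t S ν x →
    ∀ l : List V, l.Nodup → (∀ v, v ∈ l) →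
    P l false false (fun a b => pr S ν (x a) (x b)) ∅ ∅ =
      ∑ κ, ν κ * ∑ σ ∈ univ.filter (fun σ : Finset V => ∀ w ∈ σ, w ∉ T), (∏ w ∈ σ, t w κ) * x σ κ ∅ ^ 2 := by
  induction S using Finset.induction_on with
  | empty =>
    intro ν x h l _ _
    have h0 : ∀ σ : Finset V, σ ≠ ∅ → ∀ κ, ∀ ε ⊆ (∅ : Finset C), x σ κ ε = 0 := by
      intro σ hσ
      refine h.card σ ?_
      rw [card_empty, Ne, card_eq_zero]
      exact hσ
    rw [only_empty]
    · rw [pr]
      refine sum_congr rfl fun κ _ => ?_
      congr 1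
      rw [sum_eq_single (∅ : Finset V)]
      · simp [sq]
      · intro σ _ hσ
        rw [h0 σ hσ κ ∅ (subset_refl _)]
        ring
      · intro h1
        exact absurd (mem_filter.mpr ⟨mem_univ _, by simp⟩) h1
    · rintro a b (h1 | h1)
      · exact pr_zero_left (h0 a h1)
      · exact pr_zero_right (h0 b h1)
  | insert c S hc ih =>
    intro ν x h l hl hall
    have hsub : ∀ ε ⊆ S, ε ⊆ insert c S := fun ε hε => hε.trans (subset_insert c S)
    have hcε : ∀ ε ⊆ S, c ∉ ε := fun ε hε h1 => hc (hε h1)
    obtain ⟨Y, hY⟩ : ∃ Y : Finset V → Finset V → K, ∀ a b, Y a b =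
      ∑ κ, ν κ * ∑ ε ∈ S.powerset, x a κ ε * x b κ (insert c (S \ ε)) := ⟨_, fun _ _ => rfl⟩
    -- the pairing in terms of `Y`
    have hpr : ∀ a b, pr (insert c S) ν (x a) (x b) = Y a b + Y b a := by
      intro a b
      rw [hY, hY, pr, ← sum_add_distrib]
      refine sum_congr rfl fun κ _ => ?_
      rw [pow_ins hc, ← mul_add]
      congr 1
      rw [sum_add_distrib]
      congr 1
      · refine sum_congr rfl fun ε hε => ?_
        rw [mem_powerset] at hε
        rw [insert_sdiff_of_notMem _ (hcε ε hε)]
      · refine sum_nbij' (fun ε => S \ ε) (fun ε => S \ ε) ?_ ?_ ?_ ?_ ?_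
        · intro ε _; exact mem_powerset.mpr sdiff_subset
        · intro ε _; exact mem_powerset.mpr sdiff_subset
        · intro ε hε
          rw [mem_powerset] at hε
          exact Finset.sdiff_sdiff_eq_self hε
        · intro ε hε
          rw [mem_powerset] at hε
          exact Finset.sdiff_sdiff_eq_self hε
        · intro ε hε
          rw [mem_powerset] at hε
          have e2 : insert c S \ insert c ε = S \ ε := by
            ext a
            simp only [mem_sdiff, mem_insert]
            constructor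
            · rintro ⟨h1 | h1, h2⟩
              · exact absurd (Or.inl h1) h2
              · exact ⟨h1, fun h => h2 (Or.inr h)⟩
            · rintro ⟨h1, h2⟩
              refine ⟨Or.inr h1, ?_⟩
              rintro (h3 | h3)
              · exact hc (h3 ▸ h1)
              · exact h2 h3
          rw [e2, Finset.sdiff_sdiff_eq_self hε, mul_comm]
    -- the boundary of `Y` in the second variable
    have hcyc : ∀ a b, ∑ v ∈ bᶜ, Y a (insert v b) = 0 := by
      intro a b
      simp only [hY]
      rw [sum_comm]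
      refine sum_eq_zero fun κ _ => ?_
      rw [← mul_sum, sum_comm]
      rw [sum_eq_zero, mul_zero]
      intro ε hε
      rw [← mul_sum, h.cyc b κ _ (insert_subset_insert c sdiff_subset), mul_zero]
    -- the value of `Y` on pairs with a common vertex
    have hY0 : ∀ (a b : Finset V) (w : V), w ∈ a → w ∈ b → (w ∈ T ∨ col w ≠ c) → Y a b = 0 := by
      intro a b w ha hb hw
      rw [hY]
      by_cases hT : w ∈ T
      · simp only [mul_sum]
        rw [sum_comm]
        refine sum_eq_zero fun ε hε => ?_
        exact h.mov a b w ha hb hT ε (hsub ε (mem_powerset.mp hε)) _ (insert_subset_insert c sdiff_subset)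
      · have hwc : col w ≠ c := hw.resolve_left hT
        by_cases hS : col w ∈ S
        · refine sum_eq_zero fun κ _ => ?_
          rw [line_orth hS (t w κ) (x a κ) (fun ε => x b κ (insert c ε))
            (fun ε hε h1 => h.line a w ha hT (mem_insert_of_mem hS) κ ε (hsub ε hε) h1) ?_, mul_zero]
          intro ε hε h1
          show x b κ (insert c (insert (col w) ε)) = t w κ * x b κ (insert c ε)
          rw [insert_comm]
          refine h.line b w hb hT (mem_insert_of_mem hS) κ _ (insert_subset_insert c hε) ?_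
          rw [mem_insert]
          exact not_or.mpr ⟨hwc, h1⟩
        · refine sum_eq_zero fun κ _ => ?_
          rw [sum_eq_zero, mul_zero]
          intro ε hε
          rw [h.colr a w ha hT (by rw [mem_insert]; exact not_or.mpr ⟨hwc, hS⟩) κ ε
            (hsub ε (mem_powerset.mp hε)), zero_mul]
    have hYc : ∀ (a b : Finset V) (w : V), w ∈ b → w ∉ T → col w = c →
        Y a b = pr S (fun κ => ν κ * t w κ) (x a) (x b) := by
      intro a b w hb hT hwc
      rw [hY, pr]
      refine sum_congr rfl fun κ _ => ?_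
      rw [mul_assoc]
      congr 1
      rw [mul_sum]
      refine sum_congr rfl fun ε hε => ?_
      have h4 := h.line b w hb hT (hwc ▸ mem_insert_self c S) κ (S \ ε) (hsub _ sdiff_subset)
        (by rw [hwc]; exact hcε _ sdiff_subset)
      rw [hwc] at h4
      rw [h4]
      ring
    -- step A
    have hA : P l false false (fun a b => pr (insert c S) ν (x a) (x b)) ∅ ∅ =
        ∑ w, P l false true (fun a b => if w ∈ a then Y a (insert w b) else 0) ∅ ∅ := by
      have e1 : P l false false (fun a b => pr (insert c S) ν (x a) (x b)) ∅ ∅ =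
          P l false true (d2 l Y) ∅ ∅ := by
        rw [d2_W l Y ∅ ∅ hl (by simp) (by simp) (by simp)]
        have : (fun a b => pr (insert c S) ν (x a) (x b)) = fun a b => Y a b + Y b a := by
          funext a b; exact hpr a b
        rw [this, P_add]
        congr 1
        rw [P_swap]
        rfl
      rw [e1, ← P_sum]
      refine P_congr l false true _ _ ∅ ∅ hl (by simp) (by simp) (by simp) ?_
      intro a b _ _ hab
      have e2 : d2 l Y a b = ∑ v, if v ∈ a ∨ v ∈ b then 0 else Y a (insert v b) := by
        rw [d2, ← List.sum_toFinset _ hl]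
        refine sum_subset (subset_univ _) fun v _ hv => ?_
        exact absurd (List.mem_toFinset.mpr (hall v)) hv
      have e3 : ∑ v ∈ bᶜ, Y a (insert v b) =
          ∑ v, ((if v ∈ a ∨ v ∈ b then 0 else Y a (insert v b)) + if v ∈ a then Y a (insert v b) else 0) := by
        rw [← sum_subset (subset_univ bᶜ)]
        · refine sum_congr rfl fun v hv => ?_
          rw [mem_compl] at hv
          by_cases h1 : v ∈ a
          · rw [if_pos (Or.inl h1), if_pos h1, zero_add]
          · rw [if_neg (not_or.mpr ⟨h1, hv⟩), if_neg h1, add_zero]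
        · intro v _ hv
          rw [mem_compl, not_not] at hv
          have h1 : v ∉ a := fun h2 => (disjoint_left.mp hab h2) hv
          rw [if_pos (Or.inr hv), if_neg h1, add_zero]
      rw [hcyc, sum_add_distrib] at e3
      rw [e2]
      exact CharTwo.add_eq_zero.mp e3.symm
    rw [hA]
    -- the contribution of `w`
    have hw : ∀ w, P l false true (fun a b => if w ∈ a then Y a (insert w b) else 0) ∅ ∅ =
        if w ∉ T ∧ col w = c then ∑ κ, ν κ * t w κ *
          ∑ σ ∈ univ.filter (fun σ : Finset V => ∀ u ∈ σ, u ∉ T),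
            (∏ u ∈ σ, t u κ) * (if w ∈ σ then fun _ _ => 0 else x (insert w σ)) κ ∅ ^ 2 else 0 := by
      intro w
      obtain ⟨l1, l2, rfl⟩ := List.append_of_mem (hall w)
      rw [sel l1 l2 w Y hl]
      split_ifs with hcol
      · obtain ⟨hwT, hwc⟩ := hcol
        have hD := h.link hc hwT hwc
        rw [← ih _ _ hD (l1 ++ w :: l2) hl hall]
        have hn := hl
        rw [List.nodup_append] at hn
        obtain ⟨hn1, hn2, hn3⟩ := hn
        have hn2' := List.nodup_cons.mp hn2
        have hw1 : w ∉ l1 := fun h => hn3 w h w List.mem_cons_self rfl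
        have hz0 : ∀ σ : Finset V, w ∈ σ → ∀ κ, ∀ ε ⊆ S,
            (fun σ => if w ∈ σ then fun _ _ => (0 : K) else x (insert w σ)) σ κ ε = 0 := by
          intro σ hσ κ ε _
          simp [hσ]
        rw [del l1 l2 w false false _ (by
          rintro a b (h1 | h1)
          · exact pr_zero_left (hz0 a h1)
          · exact pr_zero_right (hz0 b h1))]
        rw [← cut]
        · refine P_congr l1 false false _ _ ∅ ∅ hn1 (by simp) (by simp) (by simp) ?_
          intro a b ha hb hab
          have hla : ∀ u ∈ l2, u ∉ a := by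
            intro u hu
            rw [ha u (fun h => hn3 u h u (List.mem_cons_of_mem _ hu) rfl)]; simp
          have hlb : ∀ u ∈ l2, u ∉ b := by
            intro u hu
            rw [hb u (fun h => hn3 u h u (List.mem_cons_of_mem _ hu) rfl)]; simp
          refine P_congr l2 true true _ _ a b hn2'.2 hla hlb hab ?_
          intro a' b' ha' hb' _
          have hwa : w ∉ a' := by rw [ha' w hn2'.1, ha w hw1]; simp
          have hwb : w ∉ b' := by rw [hb' w hn2'.1, hb w hw1]; simp
          rw [hYc _ _ w (mem_insert_self w b') hwT hwc]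
          simp only [hwa, hwb, if_false]
        · intro l3 u l4 he
          have hn' : (l1 ++ l2).Nodup := by
            rw [List.nodup_append]
            exact ⟨hn1, hn2'.2, fun a ha b hb => hn3 a ha b (List.mem_cons_of_mem _ hb)⟩
          have hn4 := hn'
          rw [he] at hn4
          have hn5 : (l3 ++ l4).Nodup ∧ u ∉ l3 ++ l4 := by
            have h6 : (u :: (l3 ++ l4)).Nodup := (List.perm_middle.nodup_iff).mp hn4
            exact ⟨(List.nodup_cons.mp h6).2, (List.nodup_cons.mp h6).1⟩
          refine hD.word w u (l3 ++ l4) hz0 hn5.1 hn5.2 ?_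
          intro v
          have h7 := hall v
          rw [List.mem_append, List.mem_cons] at h7
          have h8 : v ∈ l1 ++ l2 ↔ v ∈ l3 ++ u :: l4 := by rw [he]
          rw [List.mem_append, List.mem_append, List.mem_cons] at h8
          rw [List.mem_append]
          tauto
      · have hc0 : w ∈ T ∨ col w ≠ c := by tauto
        have : (fun a b => Y (insert w a) (insert w b)) = fun _ _ => (0 : K) := by
          funext a b
          exact hY0 _ _ w (mem_insert_self w a) (mem_insert_self w b) hc0
        rw [this]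
        have e : P l2 true true (fun _ _ => (0 : K)) = fun _ _ => 0 := by
          funext a b
          exact P_zero l2 true true a b
        rw [e, P_zero]
    rw [sum_congr rfl fun w _ => hw w]
    -- the sum over `w`
    rw [← sum_filter]
    rw [sum_comm]
    refine sum_congr rfl fun κ _ => ?_
    have hcount : ∀ σ ∈ univ.filter (fun σ : Finset V => ∀ u ∈ σ, u ∉ T),
        (∏ u ∈ σ, t u κ) * x σ κ ∅ ^ 2 = ∑ w ∈ univ.filter (fun w => w ∉ T ∧ col w = c),
          if w ∈ σ then (∏ u ∈ σ, t u κ) * x σ κ ∅ ^ 2 else 0 := by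
      intro σ hσ
      rw [mem_filter] at hσ
      by_cases hx : x σ κ ∅ = 0
      · rw [hx]; simp
      have hinj : Set.InjOn col (σ : Set V) := by
        intro a ha b hb hab
        by_contra hne
        exact hx (h.inj σ a ha b hb (hσ.2 a ha) (hσ.2 b hb) hne hab κ ∅ (empty_subset _))
      have himg : σ.image col ⊆ insert c S := by
        intro a ha
        obtain ⟨u, hu, rfl⟩ := mem_image.mp ha
        by_contra hne
        exact hx (h.colr σ u hu (hσ.2 u hu) hne κ ∅ (empty_subset _))
      have hcard : σ.card = (insert c S).card := by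
        by_contra hne
        exact hx (h.card σ hne κ ∅ (empty_subset _))
      have himg2 : σ.image col = insert c S := by
        refine eq_of_subset_of_card_le himg ?_
        rw [card_image_of_injOn hinj, hcard]
      obtain ⟨w0, hw0, hwc⟩ := mem_image.mp (himg2 ▸ mem_insert_self c S : c ∈ σ.image col)
      rw [sum_eq_single w0]
      · rw [if_pos hw0]
      · intro b hb hne
        rw [mem_filter] at hb
        rw [if_neg]
        intro h1
        exact hne (hinj h1 hw0 (hb.2.2.trans hwc.symm))
      · intro h1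
        exact absurd (mem_filter.mpr ⟨mem_univ _, hσ.2 w0 hw0, hwc⟩) h1
    rw [sum_congr rfl hcount, sum_comm, mul_sum]
    refine sum_congr rfl fun w hwA => ?_
    rw [mul_assoc]
    congr 1
    rw [mem_filter] at hwA
    rw [mul_sum, ← sum_filter, ← sum_filter_add_sum_filter_not _ (fun σ : Finset V => w ∉ σ)]
    rw [sum_eq_zero (s := (univ.filter (fun σ : Finset V => ∀ u ∈ σ, u ∉ T)).filter (fun σ => ¬ w ∉ σ)), add_zero]
    swap
    · intro σ hσ
      rw [mem_filter, not_not] at hσ
      simp [hσ.2]
    refine sum_nbij' (fun σ => insert w σ) (fun σ => σ.erase w) ?_ ?_ ?_ ?_ ?_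
    · intro σ hσ
      simp only [mem_filter, mem_univ, true_and] at hσ ⊢
      refine ⟨?_, mem_insert_self w σ⟩
      intro u hu
      rcases mem_insert.mp hu with h1 | h1
      · rw [h1]; exact hwA.2.1
      · exact hσ.1 u h1
    · intro σ hσ
      simp only [mem_filter, mem_univ, true_and] at hσ ⊢
      exact ⟨fun u hu => hσ.1 u (mem_of_mem_erase hu), notMem_erase w σ⟩
    · intro σ hσ
      simp only [mem_filter, mem_univ, true_and] at hσ
      exact erase_insert hσ.2
    · intro σ hσ
      simp only [mem_filter, mem_univ, true_and] at hσ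
      exact insert_erase hσ.2
    · intro σ hσ
      simp only [mem_filter, mem_univ, true_and] at hσ
      rw [if_neg hσ.2, prod_insert hσ.2, mul_assoc]

end key

end Pool.Agent.H7.RC
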