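import Pool.Agent.H7.RC.Bound

/-!
# Specialisation of the slopes
-/

set_option autoImplicit false
set_option linter.unusedSectionVars false

namespace Pool.Agent.H7.RC

open Finset Module Pool.Agent.W907.SM Pool.Agent.W907.SG Pool.Agent.R782.Bal
open scoped Matrix

variable {V : Type} [Fintype V] [LinearOrder V] {M m : ℕ} [NeZero M]

theorem spec {G : SimpleGraph V} {T : Set V} {col : V → Fin m} (hT : Thin G T m)
    (hcol : ∀ u w, u ∉ T → w ∉ T → G.Adj u w → col u ≠ col w)
    (hdim : ∀ σ : Finset V, G.IsClique (σ : Set V) → σ.card ≤ m) (hO : Obs G (2 * m)) :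
    ∃ (f : MvPolynomial (V × QQ V M) ℤ) (r0 : ℕ), f ≠ 0 ∧
      r0 * M ≤ 2 ^ Fintype.card V * (Fintype.card (QQ V M) * 2 ^ m) ∧
      ∀ (p : ℕ) [Fact p.Prime] (s : V × QQ V M → Polynomial (ZMod p)), MvPolynomial.aeval s f ≠ 0 →
        ∀ (n : ℕ) (Z : Submodule (ZMod p) (Cols V M m → ON p n)),
          (∀ x ∈ Z, Lop G T col (fun j => (Ideal.Quotient.mk _ (s j) : ON p n)) x = 0) →
          finrank (ZMod p) Z ≤ r0 * n + Fintype.card (Cols V M m) * (MvPolynomial.aeval s f).natDegree := by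
  classical
  obtain ⟨I, hI, hI2⟩ := coord_sel _ (LinearMap.ker (Lop G T col (sgen V M))) (le_refl _)
  obtain ⟨f, hf, hf2⟩ := left_inv_sel (DD G T col M) I (fun x h1 h2 => by
    refine hI2 x ?_ h1
    rw [LinearMap.mem_ker]
    rw [DD_mulVec] at h2
    have h3 : (fun j => φ2 (V × QQ V M) (MvPolynomial.X j)) = sgen V M := by
      funext j
      exact phi_X j
    rw [h3] at h2
    exact h2)
  refine ⟨f, finrank (K2 V M) (LinearMap.ker (Lop G T col (sgen V M))), hf,
    gen_bound hT hcol hdim hO, ?_⟩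
  intro p _ s hs n Z hZ
  have h1 := ker_bound n f s hs I Z (fun x hx h0 c => by
    refine hf2 (ON p n) (MvPolynomial.aeval (fun j => (Ideal.Quotient.mk _ (s j) : ON p n))).toRingHom x h0 ?_ c
    rw [DD_mulVec]
    have h3 : (fun j => (MvPolynomial.aeval (fun j => (Ideal.Quotient.mk _ (s j) : ON p n))).toRingHom
        (MvPolynomial.X j : MvPolynomial (V × QQ V M) ℤ)) = (fun j => (Ideal.Quotient.mk _ (s j) : ON p n)) := by
      funext j
      exact MvPolynomial.aeval_X _ j
    rw [h3]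
    exact hZ x hx)
  refine h1.trans ?_
  exact Nat.add_le_add_right (Nat.mul_le_mul_right _ hI) _

end Pool.Agent.H7.RC
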