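import Pool.Agent.H7.RC.Cocycle
import Pool.Agent.H7.RC.Spec
import Pool.Agent.H7.L.W240_SM_ALG
import Pool.Agent.H7.L.W378_SM_T6of
import Pool.Agent.H7.L.R782_Bal_Emb

/-!
# Vanishing of the top `ℓ²`-homology
-/

set_option autoImplicit false
set_option linter.unusedSectionVars false

namespace Pool.Agent.H7.RC

open Finset Module Pool.Agent.W907.SM Pool.Agent.W907.SG Pool.Agent.R782.Bal Pool.Agent.W372.SG.FIN

/-- from small Betti numbers modulo odd primes to `ℓ²`-homology -/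
theorem t6 {V : Type} [Fintype V] [LinearOrder V] (G : SimpleGraph V) (i : ℕ)
    (h : ∀ N : ℕ, ∃ (p : ℕ) (_ : Fact p.Prime), p ≠ 2 ∧ ∃ (X : Type) (_ : Fintype X) (_ : Nonempty X)
      (a : V → X → X) (sgn : V → X → Bool),
      (∀ v x, a v (a v x) = x) ∧ (∀ u v, G.Adj u v → ∀ x, a u (a v x) = a v (a u x)) ∧
      (∀ v x, sgn v (a v x) = !(sgn v x)) ∧ (∀ u v, u ≠ v → ∀ x, sgn u (a v x) = sgn u x) ∧
      N * beta G (pull (ZMod p) a) Set.univ ∅ i ≤ Fintype.card X) : L2Van G i := by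
  classical
  refine large V G i fun N E hE => ?_
  obtain ⟨p, _, hp, X, _, _, a, sgn, hinv, hcomm, hs1, hs2, hN⟩ := h N
  obtain ⟨Y, _, _, Q, ev, hev1, hev2, hev3, hevE⟩ := nilp p V G E hp hE
  obtain ⟨act, ha1, ha2, ha3⟩ := exists_act G X a hinv hcomm
  refine ⟨X × Y, inferInstance, inferInstance, fun v z => (a v z.1, Q.a v z.2),
    fun z w => (act z.1 w, ev z.2 w), ?_, ?_, ?_, ?_, ?_, ?_, ?_⟩
  · intro v z
    show (a v (a v z.1), Q.a v (Q.a v z.2)) = z
    rw [hinv, Q.inv]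
  · intro u v huv z
    show (a u (a v z.1), Q.a u (Q.a v z.2)) = (a v (a u z.1), Q.a v (Q.a u z.2))
    rw [hcomm u v huv, Q.comm u v huv]
  · intro z
    show (act z.1 1, ev z.2 1) = z
    rw [ha1, hev1]
  · intro z g h
    show (act z.1 (g * h), ev z.2 (g * h)) = (act (act z.1 g) h, ev (ev z.2 g) h)
    rw [ha2, hev2]
  · intro z v
    show (act z.1 _, ev z.2 _) = (a v z.1, Q.a v z.2)
    rw [ha3, hev3]
  · intro g hg z h
    exact hevE g hg z.2 (congrArg Prod.snd h)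
  · have h1 := (charT V (X × Y) G (fun v z => (a v z.1, Q.a v z.2)) (fun v z => sgn v z.1)
      (fun v z => by
        show (a v (a v z.1), Q.a v (Q.a v z.2)) = z
        rw [hinv, Q.inv])
      (fun u v huv z => by
        show (a u (a v z.1), Q.a u (Q.a v z.2)) = (a v (a u z.1), Q.a v (Q.a u z.2))
        rw [hcomm u v huv, Q.comm u v huv])
      (fun v z => hs1 v z.1) (fun u v huv z => hs2 u v huv z.1) i).1 p hp
    have h2 := mlp p V X Y G a sgn Q.a hp hinv hcomm hs1 hs2 Q.inv Q.comm Q.ptype i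
    rw [Fintype.card_prod]
    calc N * beta G (pull ℝ fun v (z : X × Y) => (a v z.1, Q.a v z.2)) Set.univ ∅ i
        ≤ N * (Fintype.card Y * beta G (pull (ZMod p) a) Set.univ ∅ i) :=
          Nat.mul_le_mul_left _ (h1.trans h2)
      _ = (N * beta G (pull (ZMod p) a) Set.univ ∅ i) * Fintype.card Y := by ring
      _ ≤ Fintype.card X * Fintype.card Y := Nat.mul_le_mul_right _ hN

theorem arith (N v q m n M r0 B β X : ℕ) (h1 : r0 * M ≤ 2 ^ v * (q * 2 ^ m)) (hM : 2 * N * 2 ^ v ≤ M)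
    (hn : 2 * N * B ≤ n) (hq : 0 < q) (hM0 : 0 < M) (hn0 : 0 < n)
    (h : 2 ^ m * n * q * β ≤ X * (r0 * n + B)) : N * β ≤ X := by
  have hK : 0 < 2 * (M * (2 ^ m * n * q)) := by positivity
  refine Nat.le_of_mul_le_mul_left ?_ hK
  have e1 : 1 ≤ q * 2 ^ m := Nat.mul_pos hq (by positivity)
  calc 2 * (M * (2 ^ m * n * q)) * (N * β) = 2 * N * M * (2 ^ m * n * q * β) := by ring
    _ ≤ 2 * N * M * (X * (r0 * n + B)) := Nat.mul_le_mul_left _ h
    _ = X * (2 * N * n * (r0 * M) + M * (2 * N * B)) := by ring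
    _ ≤ X * (2 * N * n * (2 ^ v * (q * 2 ^ m)) + M * n) :=
        Nat.mul_le_mul_left _ (Nat.add_le_add (Nat.mul_le_mul_left _ h1) (Nat.mul_le_mul_left _ hn))
    _ = X * ((2 * N * 2 ^ v) * (n * (q * 2 ^ m)) + M * n * 1) := by ring
    _ ≤ X * (M * (n * (q * 2 ^ m)) + M * n * (q * 2 ^ m)) :=
        Nat.mul_le_mul_left _ (Nat.add_le_add (Nat.mul_le_mul_right _ hM) (Nat.mul_le_mul_left _ e1))
    _ = 2 * (M * (2 ^ m * n * q)) * X := by ring

/-- the main theorem, with the obstruction -/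
theorem rel_obs {m : ℕ} {V : Type} [Fintype V] [LinearOrder V] {G : SimpleGraph V} {T : Set V}
    {col : V → Fin m} (hT : Thin G T m) (hcol : ∀ u w, u ∉ T → w ∉ T → G.Adj u w → col u ≠ col w)
    (hdim : ∀ σ : Finset V, G.IsClique (σ : Set V) → σ.card ≤ m) (hO : Obs G (2 * m)) (i : ℕ)
    (hi : m ≤ i) : L2Van G i := by
  classical
  rcases hi.lt_or_eq with hi | rfl
  · intro c hc
    funext w σ
    refine hc.supp w σ ?_
    rintro ⟨h1, h2⟩
    have := hdim σ h1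
    omega
  · refine t6 G m fun N => ?_
    have hM : NeZero (2 * N * 2 ^ Fintype.card V + 1) := ⟨Nat.succ_ne_zero _⟩
    obtain ⟨M, hMd⟩ : ∃ M : ℕ, M = 2 * N * 2 ^ Fintype.card V + 1 := ⟨_, rfl⟩
    rw [← hMd] at hM
    obtain ⟨f, r0, hf, hr0, hspec⟩ := spec (M := M) (m := m) hT hcol hdim hO
    obtain ⟨p, hpF, hp, α, β, hχ⟩ := Pool.Agent.W240.SM.t2 (V × QQ V M) f hf
    obtain ⟨B, hBd⟩ : ∃ B : ℕ, B = ∑ χ : V × QQ V M → Bool, Fintype.card (Cols V M m) *
      (MvPolynomial.aeval (Pool.Agent.W907.SM.slope α β χ) f).natDegree := ⟨_, rfl⟩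
    obtain ⟨n, hn⟩ : ∃ n : ℕ, n = 2 * N * B + 1 := ⟨_, rfl⟩
    obtain ⟨X, hX, hX0, a, sgn, h1, h2, h3, h4, h5⟩ := cocycle (M := M) hp hcol hdim n (r0 * n + B) α β
      (fun χ Z hZ => by
        refine (hspec p (Pool.Agent.W907.SM.slope α β χ) (hχ χ) n Z hZ).trans ?_
        refine Nat.add_le_add_left ?_ _
        rw [hBd]
        exact single_le_sum (f := fun χ : V × QQ V M → Bool => Fintype.card (Cols V M m) *
          (MvPolynomial.aeval (Pool.Agent.W907.SM.slope α β χ) f).natDegree) (fun _ _ => Nat.zero_le _)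
          (mem_univ χ))
    refine ⟨p, hpF, hp, X, hX, hX0, a, sgn, h1, h2, h3, h4, ?_⟩
    refine arith N (Fintype.card V) (Fintype.card (QQ V M)) m n M r0 B _ _ hr0 (by omega) (by omega)
      Fintype.card_pos (by omega) (by omega) h5

/-- **Theorem.** -/
theorem rel {d : ℕ} {V : Type} [Fintype V] [LinearOrder V] {G : SimpleGraph V} (T : Set V)
    (col : V → Fin (d + 1)) (hdim : ∀ σ : Finset V, G.IsClique (σ : Set V) → σ.card ≤ d + 1)
    (hcol : ∀ u w, u ∉ T → w ∉ T → G.Adj u w → col u ≠ col w) (hT : Thin G T (d + 1)) (hE : Emb d G)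
    (i : ℕ) (hi : d < i) : L2Van G i :=
  rel_obs hT hcol hdim hE.obs i hi

end Pool.Agent.H7.RC
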