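import Pool.Agent.H7.L.W907_SM_All

/-!
# Invariants of `p`-groups
-/

set_option autoImplicit false
set_option linter.unusedSectionVars false

namespace Pool.Agent.H7.RC

open Finset Module

section pg

variable {p : ℕ} [Fact p.Prime] {P E : Type} [Group P] [Finite P] [AddCommGroup E] [Module (ZMod p) E]
  [FiniteDimensional (ZMod p) E]

/-- the invariant vectors -/
def invar (act : P → E →ₗ[ZMod p] E) : Submodule (ZMod p) E where
  carrier := {e | ∀ g, act g e = e}
  add_mem' := by
    intro a b ha hb g
    rw [map_add, ha g, hb g]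
  zero_mem' := fun g => map_zero _
  smul_mem' := by
    intro c a ha g
    rw [map_smul, ha g]

theorem mem_invar (act : P → E →ₗ[ZMod p] E) (e : E) : e ∈ invar act ↔ ∀ g, act g e = e := Iff.rfl

/-- a `p`-group acting on a nonzero space of characteristic `p` fixes a nonzero vector -/
theorem pg_fixed (hP : IsPGroup p P) (act : P → E →ₗ[ZMod p] E) (h1 : ∀ e, act 1 e = e)
    (hmul : ∀ g h e, act (g * h) e = act g (act h e)) (K : Submodule (ZMod p) E)
    (hK : ∀ g, ∀ z ∈ K, act g z ∈ K) (hK0 : K ≠ ⊥) : ∃ z ∈ K, z ≠ 0 ∧ ∀ g, act g z = z := by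
  letI : MulAction P K :=
    { smul := fun g k => ⟨act g k.1, hK g k.1 k.2⟩
      one_smul := fun k => Subtype.ext (h1 k.1)
      mul_smul := fun g h k => Subtype.ext (hmul g h k.1) }
  have hsm : ∀ (g : P) (k : K), (g • k).1 = act g k.1 := fun _ _ => rfl
  have hfin : Finite K := Module.finite_of_finite (ZMod p)
  have hcard : p ∣ Nat.card K := by
    rw [Module.natCard_eq_pow_finrank (K := ZMod p) (V := K), Nat.card_zmod]
    refine dvd_pow_self p ?_
    intro h
    exact hK0 (Submodule.finrank_eq_zero.mp h)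
  have h0 : (0 : K) ∈ MulAction.fixedPoints P K := by
    intro g
    apply Subtype.ext
    rw [hsm]
    exact map_zero _
  obtain ⟨b, hb, hb0⟩ := hP.exists_fixed_point_of_prime_dvd_card_of_fixed_point K hcard h0
  refine ⟨b.1, b.2, fun h => hb0 (Subtype.ext h.symm), fun g => ?_⟩
  have := hb g
  rw [← hsm, this]

/-- the dimension is at most the order of the group times the dimension of the space of invariants -/
theorem pg_bound (hP : IsPGroup p P) (act : P → E →ₗ[ZMod p] E) (h1 : ∀ e, act 1 e = e)
    (hmul : ∀ g h e, act (g * h) e = act g (act h e)) (Z : Submodule (ZMod p) E)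
    (hZ : ∀ g, ∀ z ∈ Z, act g z ∈ Z) :
    finrank (ZMod p) Z ≤ Nat.card P * finrank (ZMod p) (Z ⊓ invar act : Submodule (ZMod p) E) := by
  classical
  obtain ⟨I, hI⟩ : ∃ I : Submodule (ZMod p) E, I = Z ⊓ invar act := ⟨_, rfl⟩
  rw [← hI]
  obtain ⟨π, hπ⟩ := LinearMap.exists_leftInverse_of_injective I.subtype
    (LinearMap.ker_eq_bot.mpr Subtype.coe_injective)
  have hπ' : ∀ i : I, π i.1 = i := fun i => LinearMap.congr_fun hπ i
  have : Fintype P := Fintype.ofFinite P
  let Φ : Z →ₗ[ZMod p] (P → I) :=
    { toFun := fun z g => π (act g z.1)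
      map_add' := fun a b => by
        funext g
        show π (act g (a.1 + b.1)) = _
        rw [map_add, map_add]
        rfl
      map_smul' := fun c a => by
        funext g
        show π (act g (c • a.1)) = _
        rw [map_smul, map_smul]
        rfl }
  have hΦ : Function.Injective Φ := by
    rw [injective_iff_map_eq_zero]
    intro z hz
    by_contra hne
    let K : Submodule (ZMod p) E :=
      { carrier := {e | e ∈ Z ∧ ∀ g, π (act g e) = 0}
        add_mem' := by
          rintro a b ⟨ha, ha'⟩ ⟨hb, hb'⟩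
          refine ⟨Z.add_mem ha hb, fun g => ?_⟩
          rw [map_add, map_add, ha' g, hb' g, add_zero]
        zero_mem' := ⟨Z.zero_mem, fun g => by rw [map_zero, map_zero]⟩
        smul_mem' := by
          rintro c a ⟨ha, ha'⟩
          refine ⟨Z.smul_mem c ha, fun g => ?_⟩
          rw [map_smul, map_smul, ha' g, smul_zero] }
    have hK : ∀ g, ∀ e ∈ K, act g e ∈ K := by
      rintro g e ⟨h2, h3⟩
      refine ⟨hZ g e h2, fun h => ?_⟩
      rw [← hmul]
      exact h3 (h * g)
    have hzK : z.1 ∈ K := ⟨z.2, fun g => congrFun hz g⟩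
    have hK0 : K ≠ ⊥ := by
      intro h
      rw [h, Submodule.mem_bot] at hzK
      exact hne (Subtype.ext hzK)
    obtain ⟨e, ⟨he1, he2⟩, he0, hefix⟩ := pg_fixed hP act h1 hmul K hK hK0
    have heI : e ∈ I := by
      rw [hI]
      exact ⟨he1, hefix⟩
    have h4 := he2 1
    rw [h1, hπ' ⟨e, heI⟩] at h4
    exact he0 (congrArg Subtype.val h4)
  have h3 := LinearMap.finrank_le_finrank_of_injective hΦ
  rw [finrank_pi_fintype] at h3
  simp only [sum_const, smul_eq_mul, card_univ] at h3
  rw [Nat.card_eq_fintype_card]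
  exact h3

end pg

end Pool.Agent.H7.RC
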