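import Pool.Agent.H7.RC.Pg

/-!
# Towers of finite sets from a cocycle over a finite set
-/

set_option autoImplicit false
set_option linter.unusedSectionVars false

namespace Pool.Agent.H7.RC

open Finset Module Pool.Agent.W907.SM Pool.Agent.W907.SG Pool.Agent.W705.SM
open Pool.Agent.W143.SG.MLP (beta_zero beta_iso rp rp_apply foldr_pull)

/-- in the top degree the Betti number is the dimension of the space of cycles -/
theorem beta_top {V F M : Type} [Fintype V] [LinearOrder V] [Field F] [AddCommGroup M] [Module F M]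
    (G : SimpleGraph V) (ρ : V → M →ₗ[F] M) (m : ℕ) (hdim : ∀ σ : Finset V, G.IsClique (σ : Set V) → σ.card ≤ m) :
    beta G ρ Set.univ ∅ m = finrank F (ZZ G ρ Set.univ ∅ m) := by
  have h : BB G ρ Set.univ ∅ m = ⊥ := by
    rw [eq_bot_iff]
    rintro _ ⟨c, hc, rfl⟩
    have h0 : c = 0 := by
      funext T
      refine hc.1 T ?_
      rintro ⟨h1, _, h3⟩
      have := hdim T h1
      omega
    rw [h0, map_zero]
    exact Submodule.zero_mem _
  rw [beta, h, finrank_bot, Nat.sub_zero]

section tower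

variable {p : ℕ} [Fact p.Prime] {V : Type} [Fintype V] [LinearOrder V] {Q Γ M0 : Type}
  [Group Γ] [AddCommGroup M0] [Module (ZMod p) M0]

/-- the action on the tower -/
def aT (b : V → Q → Q) (c : V → Q → Γ) (v : V) (z : Q × Γ × (V → Bool)) : Q × Γ × (V → Bool) :=
  (b v z.1, c v z.1 * z.2.1, fl v z.2.2)

/-- the representation on the functions `Q → M0` -/
def sQ (act : Γ → M0 →ₗ[ZMod p] M0) (b : V → Q → Q) (c : V → Q → Γ) (v : V) :
    (Q → M0) →ₗ[ZMod p] (Q → M0) where
  toFun f q := act (c v (b v q)) (f (b v q))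
  map_add' f g := by
    funext q
    simp only [Pi.add_apply, map_add]
  map_smul' r f := by
    funext q
    simp only [Pi.smul_apply, map_smul, RingHom.id_apply]

/-- the twisted representation on functions on the tower -/
def tw (act : Γ → M0 →ₗ[ZMod p] M0) (b : V → Q → Q) (c : V → Q → Γ) (v : V) :
    (Q × Γ × (V → Bool) → M0) →ₗ[ZMod p] (Q × Γ × (V → Bool) → M0) where
  toFun φ z := act (c v (b v z.1)) (φ (aT b c v z))
  map_add' f g := by
    funext q
    simp only [Pi.add_apply, map_add]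
  map_smul' r f := by
    funext q
    simp only [Pi.smul_apply, map_smul, RingHom.id_apply]

theorem tw_apply (act : Γ → M0 →ₗ[ZMod p] M0) (b : V → Q → Q) (c : V → Q → Γ) (v : V)
    (φ : Q × Γ × (V → Bool) → M0) (z : Q × Γ × (V → Bool)) :
    tw act b c v φ z = act (c v (b v z.1)) (φ (aT b c v z)) := rfl

theorem sQ_apply (act : Γ → M0 →ₗ[ZMod p] M0) (b : V → Q → Q) (c : V → Q → Γ) (v : V)
    (φ : Q → M0) (q : Q) : sQ act b c v φ q = act (c v (b v q)) (φ (b v q)) := rfl

/-- the action on the quotient -/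
def yT {Δ : Type} [Group Δ] (cb : V → Δ) (v : V) (z : Δ × (V → Bool)) : Δ × (V → Bool) :=
  (cb v * z.1, fl v z.2)

/-- right translations -/
def rt (N1 : Subgroup Γ) (h : N1) :
    (Finset V → Q × Γ × (V → Bool) → M0) →ₗ[ZMod p] (Finset V → Q × Γ × (V → Bool) → M0) where
  toFun φ σ z := φ σ (z.1, z.2.1 * h.1, z.2.2)
  map_add' _ _ := rfl
  map_smul' _ _ := rfl

theorem rt_apply (N1 : Subgroup Γ) (h : N1) (φ : Finset V → Q × Γ × (V → Bool) → M0) (σ : Finset V)
    (z : Q × Γ × (V → Bool)) : rt (p := p) N1 h φ σ z = φ σ (z.1, z.2.1 * h.1, z.2.2) := rfl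

variable {G : SimpleGraph V} [Fintype Q] [Fintype Γ] [FiniteDimensional (ZMod p) M0]

/-- step (2): from the tower to the quotient by a normal `p`-subgroup -/
theorem tower_two (m : ℕ) (hdim : ∀ σ : Finset V, G.IsClique (σ : Set V) → σ.card ≤ m)
    (act : Γ → M0 →ₗ[ZMod p] M0) (b : V → Q → Q) (c : V → Q → Γ) (N1 : Subgroup Γ) [N1.Normal]
    (hN : IsPGroup p N1) (cb : V → Γ ⧸ N1) (hcb : ∀ v q, ((c v q : Γ) : Γ ⧸ N1) = cb v) :
    beta G (tw act b c) Set.univ ∅ m ≤
      Nat.card N1 * beta G (rp (yT cb) (sQ act b c)) Set.univ ∅ m := by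
  classical
  rw [beta_top G _ m hdim, beta_top G _ m hdim]
  refine (pg_bound hN (rt N1) ?_ ?_ (ZZ G (tw act b c) Set.univ ∅ m) ?_).trans ?_
  · intro e
    funext σ z
    rw [rt_apply]
    simp
  · intro g h e
    funext σ z
    simp only [rt_apply]
    rw [Subgroup.coe_mul, mul_assoc]
  · rintro g e ⟨⟨h1, h2⟩, h3⟩
    refine ⟨⟨?_, ?_⟩, ?_⟩
    · intro σ hσ
      funext z
      rw [rt_apply, h1 σ hσ]
      rfl
    · intro σ t ht
      funext z
      rw [tw_apply, rt_apply]
      have h4 := congrFun (h2 σ t ht) (z.1, z.2.1 * g.1, z.2.2)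
      rw [tw_apply] at h4
      show act (c t (b t z.1)) (e σ (b t z.1, (c t z.1 * z.2.1) * g.1, fl t z.2.2)) =
        - e σ (z.1, z.2.1 * g.1, z.2.2)
      rw [mul_assoc]
      exact h4
    · show bd (ZMod p) _ = 0
      have h3 : bd (ZMod p) e = 0 := h3
      funext σ z
      have h4 := congrFun (congrFun h3 σ) (z.1, z.2.1 * g.1, z.2.2)
      rw [bd_apply, Finset.sum_apply] at h4 ⊢
      exact h4
  · refine Nat.mul_le_mul_left _ ?_
    let κ : (ZZ G (tw act b c) Set.univ ∅ m ⊓ invar (rt N1) :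
        Submodule (ZMod p) (Finset V → Q × Γ × (V → Bool) → M0)) →ₗ[ZMod p]
        ZZ G (rp (yT cb) (sQ act b c)) Set.univ ∅ m :=
      { toFun := fun e => ⟨fun σ y q => e.1 σ (q, y.1.out, y.2), by
          obtain ⟨e, ⟨⟨h1, h2⟩, h3⟩, h4⟩ := e
          have h5 : ∀ σ q g ε, e σ (q, g, ε) = e σ (q, ((g : Γ) : Γ ⧸ N1).out, ε) := by
            intro σ q g ε
            obtain ⟨h, hh⟩ := QuotientGroup.mk_out_eq_mul N1 g
            rw [hh]
            have := congrFun (congrFun (h4 h) σ) (q, g, ε)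
            rw [rt_apply] at this
            exact this.symm
          refine ⟨⟨?_, ?_⟩, ?_⟩
          · intro σ hσ
            funext y q
            show e σ _ = 0
            rw [h1 σ hσ]
            rfl
          · intro σ t ht
            funext y q
            show act (c t (b t q)) (e σ (b t q, ((cb t * y.1).out, fl t y.2))) = - e σ (q, y.1.out, y.2)
            have h6 := congrFun (h2 σ t ht) (q, y.1.out, y.2)
            rw [tw_apply] at h6
            have h7 : e σ (aT b c t (q, y.1.out, y.2)) = e σ (b t q, ((cb t * y.1).out, fl t y.2)) := by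
              show e σ (b t q, c t q * y.1.out, fl t y.2) = _
              rw [h5]
              congr 3
              rw [QuotientGroup.mk_mul, hcb, QuotientGroup.out_eq']
            rw [h7] at h6
            exact h6
          · show bd (ZMod p) _ = 0
            have h3 : bd (ZMod p) e = 0 := h3
            funext σ y q
            have h6 := congrFun (congrFun h3 σ) (q, y.1.out, y.2)
            rw [bd_apply, Finset.sum_apply] at h6
            rw [bd_apply, Finset.sum_apply, Finset.sum_apply]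
            exact h6⟩
        map_add' := fun _ _ => rfl
        map_smul' := fun _ _ => rfl }
    refine LinearMap.finrank_le_finrank_of_injective (f := κ) ?_
    intro e e' h
    apply Subtype.ext
    funext σ z
    obtain ⟨q, g, ε⟩ := z
    have h5 : ∀ (e : (ZZ G (tw act b c) Set.univ ∅ m ⊓ invar (rt N1) :
        Submodule (ZMod p) (Finset V → Q × Γ × (V → Bool) → M0))), e.1 σ (q, g, ε) =
        e.1 σ (q, ((g : Γ) : Γ ⧸ N1).out, ε) := by
      intro e
      obtain ⟨h, hh⟩ := QuotientGroup.mk_out_eq_mul N1 g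
      rw [hh]
      have := congrFun (congrFun (e.2.2 h) σ) (q, g, ε)
      rw [rt_apply] at this
      exact this.symm
    rw [h5 e, h5 e']
    exact congrFun (congrFun (congrFun (congrArg Subtype.val h) σ) (((g : Γ) : Γ ⧸ N1), ε)) q

theorem aT_inv (b : V → Q → Q) (c : V → Q → Γ) (hb : ∀ v q, b v (b v q) = q)
    (hc : ∀ v q, c v (b v q) * c v q = 1) (v : V) (z : Q × Γ × (V → Bool)) : aT b c v (aT b c v z) = z := by
  refine Prod.ext (hb v z.1) (Prod.ext ?_ (congrFun (fl_sq v) z.2.2))
  show c v (b v z.1) * (c v z.1 * z.2.1) = z.2.1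
  rw [← mul_assoc, hc, one_mul]

theorem aT_comm (b : V → Q → Q) (c : V → Q → Γ)
    (hbc : ∀ u v, G.Adj u v → ∀ q, b u (b v q) = b v (b u q))
    (hcc : ∀ u v, G.Adj u v → ∀ q, c u (b v q) * c v q = c v (b u q) * c u q) (u v : V) (h : G.Adj u v)
    (z : Q × Γ × (V → Bool)) : aT b c u (aT b c v z) = aT b c v (aT b c u z) := by
  refine Prod.ext (hbc u v h z.1) (Prod.ext ?_ (congrFun (fl_comm u v) z.2.2))
  show c u (b v z.1) * (c v z.1 * z.2.1) = c v (b u z.1) * (c u z.1 * z.2.1)
  rw [← mul_assoc, ← mul_assoc, hcc u v h]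

/-- step (1): untwisting -/
theorem tower_one (hp2 : (2 : ZMod p) ≠ 0) (i : ℕ) (act : Γ → M0 →ₗ[ZMod p] M0) (h1 : ∀ e, act 1 e = e)
    (hmul : ∀ g h e, act (g * h) e = act g (act h e)) (b : V → Q → Q) (c : V → Q → Γ)
    (hb : ∀ v q, b v (b v q) = q) (hc : ∀ v q, c v (b v q) * c v q = 1)
    (hbc : ∀ u v, G.Adj u v → ∀ q, b u (b v q) = b v (b u q))
    (hcc : ∀ u v, G.Adj u v → ∀ q, c u (b v q) * c v q = c v (b u q) * c u q) :
    finrank (ZMod p) M0 * beta G (pull (ZMod p) (aT b c)) Set.univ ∅ i ≤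
      beta G (tw act b c) Set.univ ∅ i := by
  classical
  have hinv := aT_inv b c hb hc
  have hcomm := aT_comm (G := G) b c hbc hcc
  have hai : ∀ g e, act g (act g⁻¹ e) = e := by
    intro g e
    rw [← hmul, mul_inv_cancel, h1]
  have hai' : ∀ g e, act g⁻¹ (act g e) = e := by
    intro g e
    rw [← hmul, inv_mul_cancel, h1]
  have htwinv : ∀ v φ, tw act b c v (tw act b c v φ) = φ := by
    intro v φ
    funext z
    rw [tw_apply, tw_apply, hinv, ← hmul]
    show act (c v (b v z.1) * c v (b v (b v z.1))) (φ z) = φ z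
    rw [hb, hc, h1]
  -- (3)
  have h3 : beta G (rp (aT b c) (fun _ => (LinearMap.id : M0 →ₗ[ZMod p] M0))) Set.univ ∅ i ≤
      beta G (tw act b c) Set.univ ∅ i := by
    refine beta_iso Pool.Agent.W907.SG.sub G (tw act b c) _
      { toFun := fun φ z => act z.2.1⁻¹ (φ z)
        map_add' := fun f g => by funext z; exact map_add (act z.2.1⁻¹) (f z) (g z)
        map_smul' := fun c f => by funext z; exact map_smul (act z.2.1⁻¹) c (f z) } hp2 ?_ ?_ ?_ ?_ ?_ i
    · intro v m
      funext z
      rw [rp_apply, rp_apply, hinv]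
      rfl
    · intro u v huv m
      funext z
      rw [rp_apply, rp_apply, rp_apply, rp_apply, hcomm u v huv]
    · intro v φ
      funext z
      show act z.2.1⁻¹ (act (c v (b v z.1)) (φ (aT b c v z))) = act (c v z.1 * z.2.1)⁻¹ (φ (aT b c v z))
      rw [← hmul]
      congr 2
      rw [mul_inv_rev]
      congr 1
      exact eq_inv_of_mul_eq_one_left (hc v z.1)
    · intro f g h
      funext z
      have h4 := congrArg (act z.2.1) (congrFun h z)
      change act z.2.1 (act z.2.1⁻¹ (f z)) = act z.2.1 (act z.2.1⁻¹ (g z)) at h4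
      rw [hai, hai] at h4
      exact h4
    · intro g
      refine ⟨fun z => act z.2.1 (g z), ?_⟩
      funext z
      exact hai' _ _
  -- (2)
  have h2' : beta G (cw (Fin (finrank (ZMod p) M0)) (pull (ZMod p) (aT b c))) Set.univ ∅ i ≤
      beta G (rp (aT b c) (fun _ => (LinearMap.id : M0 →ₗ[ZMod p] M0))) Set.univ ∅ i := by
    refine beta_iso Pool.Agent.W907.SG.sub G _ _
      { toFun := fun φ j z => (Module.finBasis (ZMod p) M0).equivFun (φ z) j
        map_add' := fun f g => by
          funext j z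
          show (Module.finBasis (ZMod p) M0).equivFun (f z + g z) j = _
          rw [map_add]; rfl
        map_smul' := fun c f => by
          funext j z
          show (Module.finBasis (ZMod p) M0).equivFun (c • f z) j = _
          rw [map_smul]; rfl } hp2 ?_ ?_ ?_ ?_ ?_ i
    · intro v m
      funext j z
      show m j (aT b c v (aT b c v z)) = m j z
      rw [hinv]
    · intro u v huv m
      funext j z
      show m j (aT b c v (aT b c u z)) = m j (aT b c u (aT b c v z))
      rw [hcomm u v huv]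
    · intro v m
      rfl
    · intro f g h
      funext z
      apply (Module.finBasis (ZMod p) M0).equivFun.injective
      funext j
      exact congrFun (congrFun h j) z
    · intro g
      refine ⟨fun z => (Module.finBasis (ZMod p) M0).equivFun.symm (fun j => g j z), ?_⟩
      funext j z
      show (Module.finBasis (ZMod p) M0).equivFun
        ((Module.finBasis (ZMod p) M0).equivFun.symm (fun j => g j z)) j = g j z
      rw [LinearEquiv.apply_symm_apply]
  rw [beta_pi, Fintype.card_fin] at h2'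
  exact h2'.trans h3

theorem foldr_yT {Δ : Type} [Group Δ] (cb : V → Δ) (l : List V) (z : Δ × (V → Bool)) :
    l.foldr (yT cb) z = ((l.map cb).prod * z.1, (l.map fl).prod z.2) := by
  induction l with
  | nil => exact Prod.ext (one_mul _).symm rfl
  | cons v l ih =>
    rw [List.foldr_cons, ih, List.map_cons, List.prod_cons, List.map_cons, List.prod_cons, mul_assoc]
    rfl

/-- steps (3), (4) -/
theorem tower_three (hp : p ≠ 2) (i B : ℕ) {Δ MQ : Type} [Group Δ] [Fintype Δ] [AddCommGroup MQ]
    [Module (ZMod p) MQ] [FiniteDimensional (ZMod p) MQ] (s : V → MQ →ₗ[ZMod p] MQ)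
    (hs : ∀ v m, s v (s v m) = m) (hsc : ∀ u v, G.Adj u v → ∀ m, s u (s v m) = s v (s u m))
    (hB : ∀ ε : V → ZMod p, (∀ v, ε v = 1 ∨ ε v = -1) → beta G (fun v => ε v • s v) Set.univ ∅ i ≤ B)
    (cb : V → Δ) (h1 : ∀ v, cb v * cb v = 1) (h2 : ∀ u v, cb u * cb v = cb v * cb u) :
    beta G (rp (yT cb) s) Set.univ ∅ i ≤ Fintype.card (Δ × (V → Bool)) * B := by
  classical
  have hp2 : (2 : ZMod p) ≠ 0 := by
    intro h
    have h' : ((2 : ℕ) : ZMod p) = 0 := by exact_mod_cast h
    rw [ZMod.natCast_eq_zero_iff] at h'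
    exact hp ((Nat.prime_dvd_prime_iff_eq (Fact.out : p.Prime) Nat.prime_two).1 h')
  have hyinv : ∀ v z, yT cb v (yT cb v z) = z := by
    intro v z
    refine Prod.ext ?_ (congrFun (fl_sq v) z.2)
    show cb v * (cb v * z.1) = z.1
    rw [← mul_assoc, h1, one_mul]
  have hycomm : ∀ u v z, yT cb u (yT cb v z) = yT cb v (yT cb u z) := by
    intro u v z
    refine Prod.ext ?_ (congrFun (fl_comm u v) z.2)
    show cb u * (cb v * z.1) = cb v * (cb u * z.1)
    rw [← mul_assoc, ← mul_assoc, h2]
  have h5 : beta G (hm (pull (ZMod p) (yT cb)) s) Set.univ ∅ i ≤ Fintype.card (Δ × (V → Bool)) * B := by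
    refine genH G hp2 hp Pool.Agent.W907.SG.sub Pool.Agent.W907.SG.linep s hs hsc i B hB _ _
      (by rw [finrank_fintype_fun_eq_card]) (pull (ZMod p) (yT cb)) ?_ ?_ ?_
    · intro v m
      funext y
      rw [pull_apply, pull_apply, hyinv]
    · intro u v huv m
      funext y
      rw [pull_apply, pull_apply, pull_apply, pull_apply, hycomm u v]
    · intro l hl
      refine ⟨0, fun m => ?_⟩
      have hl' : EvenWord l.reverse := by
        intro χ
        rw [List.map_reverse]
        exact (List.Perm.prod_eq (List.reverse_perm _)).trans (hl χ)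
      rw [pow_zero, Function.iterate_one, foldr_pull]
      funext y
      rw [foldr_yT, prod_even cb h1 h2 _ _ le_rfl hl', prod_even fl fl_sq fl_comm _ _ le_rfl hl', one_mul]
      rfl
  refine le_trans ?_ h5
  refine beta_iso Pool.Agent.W907.SG.sub G (hm (pull (ZMod p) (yT cb)) s) (rp (yT cb) s)
    { toFun := fun φ z => φ (Pi.single z 1)
      map_add' := fun f g => rfl
      map_smul' := fun c f => rfl } hp2 ?_ ?_ ?_ ?_ ?_ i
  · intro v m
    funext z
    rw [rp_apply, rp_apply, hyinv, hs]
  · intro u v huv m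
    funext z
    rw [rp_apply, rp_apply, rp_apply, rp_apply, hycomm u v, hsc u v huv]
  · intro v φ
    funext z
    show s v (φ (pull (ZMod p) (yT cb) v (Pi.single z 1))) = s v (φ (Pi.single (yT cb v z) 1))
    congr 2
    funext y
    rw [pull_apply, Pi.single_apply, Pi.single_apply]
    refine if_congr ?_ rfl rfl
    constructor
    · intro h; rw [← h, hyinv]
    · intro h; rw [h, hyinv]
  · intro φ ψ h
    refine (Pi.basisFun (ZMod p) _).ext fun z => ?_
    rw [Pi.basisFun_apply]
    exact congrFun h z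
  · intro g
    refine ⟨(Pi.basisFun (ZMod p) _).constr (ZMod p) g, ?_⟩
    funext z
    show (Pi.basisFun (ZMod p) _).constr (ZMod p) g (Pi.single z 1) = g z
    rw [← Pi.basisFun_apply, Basis.constr_basis]

/-- the tower -/
theorem tower_main (hp : p ≠ 2) (m B : ℕ) (hdim : ∀ σ : Finset V, G.IsClique (σ : Set V) → σ.card ≤ m)
    (act : Γ → M0 →ₗ[ZMod p] M0) (h1 : ∀ e, act 1 e = e)
    (hmul : ∀ g h e, act (g * h) e = act g (act h e)) (b : V → Q → Q) (c : V → Q → Γ)
    (hb : ∀ v q, b v (b v q) = q) (hc : ∀ v q, c v (b v q) * c v q = 1)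
    (hbc : ∀ u v, G.Adj u v → ∀ q, b u (b v q) = b v (b u q))
    (hcc : ∀ u v, G.Adj u v → ∀ q, c u (b v q) * c v q = c v (b u q) * c u q)
    (N1 : Subgroup Γ) [N1.Normal] (hN : IsPGroup p N1) (cb : V → Γ ⧸ N1)
    (hcb : ∀ v q, ((c v q : Γ) : Γ ⧸ N1) = cb v)
    (hcb1 : ∀ v, cb v * cb v = 1) (hcb2 : ∀ u v, cb u * cb v = cb v * cb u)
    (hB : ∀ ε : V → ZMod p, (∀ v, ε v = 1 ∨ ε v = -1) →
      beta G (fun v => ε v • sQ act b c v) Set.univ ∅ m ≤ B) :
    finrank (ZMod p) M0 * Fintype.card Q * beta G (pull (ZMod p) (aT b c)) Set.univ ∅ m ≤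
      Fintype.card (Q × Γ × (V → Bool)) * B := by
  classical
  have hp2 : (2 : ZMod p) ≠ 0 := by
    intro h
    have h' : ((2 : ℕ) : ZMod p) = 0 := by exact_mod_cast h
    rw [ZMod.natCast_eq_zero_iff] at h'
    exact hp ((Nat.prime_dvd_prime_iff_eq (Fact.out : p.Prime) Nat.prime_two).1 h')
  have k1 := tower_one (G := G) hp2 m act h1 hmul b c hb hc hbc hcc
  have k2 := tower_two (G := G) m hdim act b c N1 hN cb hcb
  have : Fintype (Γ ⧸ N1) := Fintype.ofFinite _
  have k3 := tower_three (G := G) hp m B (sQ act b c)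
    (by
      intro v f
      funext q
      rw [sQ_apply, sQ_apply, hb, ← hmul, hc, h1])
    (by
      intro u v huv f
      funext q
      rw [sQ_apply, sQ_apply, sQ_apply, sQ_apply, ← hmul, ← hmul, hbc u v huv]
      have h3 := hcc u v huv (b v (b u q))
      have e2 : b u (b v (b u q)) = b v q := by rw [← hbc u v huv, hb]
      rw [hb, e2] at h3
      rw [h3])
    hB cb hcb1 hcb2
  have hcard : Fintype.card Γ = Fintype.card (Γ ⧸ N1) * Nat.card N1 := by
    rw [← Nat.card_eq_fintype_card, ← Nat.card_eq_fintype_card]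
    exact Subgroup.card_eq_card_quotient_mul_card_subgroup N1
  rw [Fintype.card_prod, Fintype.card_prod, hcard]
  rw [Fintype.card_prod] at k3
  calc finrank (ZMod p) M0 * Fintype.card Q * beta G (pull (ZMod p) (aT b c)) Set.univ ∅ m
      = Fintype.card Q * (finrank (ZMod p) M0 * beta G (pull (ZMod p) (aT b c)) Set.univ ∅ m) := by ring
    _ ≤ Fintype.card Q * (Nat.card N1 * (Fintype.card (Γ ⧸ N1) * Fintype.card (V → Bool) * B)) :=
        Nat.mul_le_mul_left _ (k1.trans (k2.trans (Nat.mul_le_mul_left _ k3)))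
    _ = _ := by ring

end tower

end Pool.Agent.H7.RC
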