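import Mathlib

/-!
# Sums over alternating words

`P l s s' Z σ τ` is the sum of `Z a b` over the alternating words in the list `l`: letters are added in turn to
`σ` (state `false`) and to `τ` (state `true`), beginning in the state `s` and ending in the state `s'`.
-/

set_option autoImplicit false

namespace Pool.Agent.H7.RC

section words

variable {V K : Type} [DecidableEq V] [CommRing K]

/-- sums over alternating words -/
def P : List V → Bool → Bool → (Finset V → Finset V → K) → Finset V → Finset V → K
  | [], s, s', Z, σ, τ => if s = s' then Z σ τ else 0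
  | v :: l, false, s', Z, σ, τ => P l false s' Z σ τ + P l true s' Z (insert v σ) τ
  | v :: l, true, s', Z, σ, τ => P l true s' Z σ τ + P l false s' Z σ (insert v τ)

theorem P_nil (s s' : Bool) (Z : Finset V → Finset V → K) (σ τ : Finset V) :
    P [] s s' Z σ τ = if s = s' then Z σ τ else 0 := by rw [P]

theorem P_f (v : V) (l : List V) (s' : Bool) (Z : Finset V → Finset V → K) (σ τ : Finset V) :
    P (v :: l) false s' Z σ τ = P l false s' Z σ τ + P l true s' Z (insert v σ) τ := by rw [P]

theorem P_t (v : V) (l : List V) (s' : Bool) (Z : Finset V → Finset V → K) (σ τ : Finset V) :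
    P (v :: l) true s' Z σ τ = P l true s' Z σ τ + P l false s' Z σ (insert v τ) := by rw [P]

theorem P_add (l : List V) : ∀ (s s' : Bool) (Z Z' : Finset V → Finset V → K) (σ τ : Finset V),
    P l s s' (fun a b => Z a b + Z' a b) σ τ = P l s s' Z σ τ + P l s s' Z' σ τ := by
  induction l with
  | nil => intro s s' Z Z' σ τ; simp only [P_nil]; split_ifs <;> simp
  | cons v l ih =>
    intro s s' Z Z' σ τ
    cases s
    · simp only [P_f, ih]; ring
    · simp only [P_t, ih]; ring

theorem P_zero (l : List V) : ∀ (s s' : Bool) (σ τ : Finset V),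
    P l s s' (fun _ _ => (0 : K)) σ τ = 0 := by
  induction l with
  | nil => intro s s' σ τ; simp [P_nil]
  | cons v l ih =>
    intro s s' σ τ
    cases s
    · simp only [P_f, ih]; ring
    · simp only [P_t, ih]; ring

theorem P_sum {ι : Type} (A : Finset ι) (l : List V) (s s' : Bool) (Z : ι → Finset V → Finset V → K)
    (σ τ : Finset V) :
    P l s s' (fun a b => ∑ i ∈ A, Z i a b) σ τ = ∑ i ∈ A, P l s s' (Z i) σ τ := by
  classical
  induction A using Finset.induction_on with
  | empty => simp only [Finset.sum_empty]; exact P_zero l s s' σ τ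
  | insert i A hi ih => simp only [Finset.sum_insert hi]; rw [P_add, ih]

theorem P_smul (c : K) (l : List V) : ∀ (s s' : Bool) (Z : Finset V → Finset V → K) (σ τ : Finset V),
    P l s s' (fun a b => c * Z a b) σ τ = c * P l s s' Z σ τ := by
  induction l with
  | nil => intro s s' Z σ τ; simp only [P_nil]; split_ifs <;> simp
  | cons v l ih =>
    intro s s' Z σ τ
    cases s
    · simp only [P_f, ih]; ring
    · simp only [P_t, ih]; ring

theorem P_swap (l : List V) : ∀ (s s' : Bool) (Z : Finset V → Finset V → K) (σ τ : Finset V),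
    P l s s' Z σ τ = P l (!s) (!s') (fun a b => Z b a) τ σ := by
  induction l with
  | nil => intro s s' Z σ τ; simp only [P_nil]; cases s <;> cases s' <;> simp
  | cons v l ih =>
    intro s s' Z σ τ
    cases s
    · rw [P_f, Bool.not_false, P_t, ih false s' Z σ τ, ih true s' Z (insert v σ) τ]; rfl
    · rw [P_t, Bool.not_true, P_f, ih true s' Z σ τ, ih false s' Z σ (insert v τ)]; rfl

theorem P_append (l1 l2 : List V) : ∀ (s s' : Bool) (Z : Finset V → Finset V → K) (σ τ : Finset V),
    P (l1 ++ l2) s s' Z σ τ = P l1 s false (P l2 false s' Z) σ τ + P l1 s true (P l2 true s' Z) σ τ := by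
  induction l1 with
  | nil => intro s s' Z σ τ; simp only [List.nil_append, P_nil]; cases s <;> simp
  | cons v l ih =>
    intro s s' Z σ τ
    cases s
    · simp only [List.cons_append, P_f, ih]; ring
    · simp only [List.cons_append, P_t, ih]; ring

theorem P_insert_left (l : List V) (v : V) : ∀ (s s' : Bool) (Z : Finset V → Finset V → K) (σ τ : Finset V),
    P l s s' Z (insert v σ) τ = P l s s' (fun a b => Z (insert v a) b) σ τ := by
  induction l with
  | nil => intro s s' Z σ τ; simp only [P_nil]
  | cons u l ih =>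
    intro s s' Z σ τ
    cases s
    · simp only [P_f]
      rw [ih, Finset.insert_comm, ih]
    · simp only [P_t]
      rw [ih, ih]

theorem P_insert_right (l : List V) (v : V) : ∀ (s s' : Bool) (Z : Finset V → Finset V → K) (σ τ : Finset V),
    P l s s' Z σ (insert v τ) = P l s s' (fun a b => Z a (insert v b)) σ τ := by
  induction l with
  | nil => intro s s' Z σ τ; simp only [P_nil]
  | cons u l ih =>
    intro s s' Z σ τ
    cases s
    · simp only [P_f]
      rw [ih, ih]
    · simp only [P_t]
      rw [ih, Finset.insert_comm, ih]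

/-- the sum depends only on the pairs which can be reached -/
theorem P_congr (l : List V) : ∀ (s s' : Bool) (Z Z' : Finset V → Finset V → K) (σ τ : Finset V),
    l.Nodup → (∀ u ∈ l, u ∉ σ) → (∀ u ∈ l, u ∉ τ) → Disjoint σ τ →
    (∀ a b : Finset V, (∀ u, u ∉ l → (u ∈ a ↔ u ∈ σ)) → (∀ u, u ∉ l → (u ∈ b ↔ u ∈ τ)) → Disjoint a b →
      Z a b = Z' a b) → P l s s' Z σ τ = P l s s' Z' σ τ := by
  induction l with
  | nil =>
    intro s s' Z Z' σ τ _ _ _ hd h
    simp only [P_nil]
    rw [h σ τ (fun _ _ => Iff.rfl) (fun _ _ => Iff.rfl) hd]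
  | cons v l ih =>
    intro s s' Z Z' σ τ hn hσ hτ hd h
    rw [List.nodup_cons] at hn
    have h0 : ∀ s, P l s s' Z σ τ = P l s s' Z' σ τ := by
      intro s
      refine ih s s' Z Z' σ τ hn.2 (fun u hu => hσ u (List.mem_cons_of_mem _ hu))
        (fun u hu => hτ u (List.mem_cons_of_mem _ hu)) hd ?_
      intro a b ha hb hab
      exact h a b (fun u hu => ha u (fun h' => hu (List.mem_cons_of_mem _ h')))
        (fun u hu => hb u (fun h' => hu (List.mem_cons_of_mem _ h'))) hab
    cases s
    · simp only [P_f]
      rw [h0]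
      congr 1
      refine ih true s' Z Z' _ τ hn.2 ?_ (fun u hu => hτ u (List.mem_cons_of_mem _ hu)) ?_ ?_
      · intro u hu h1
        rcases Finset.mem_insert.mp h1 with h2 | h2
        · exact hn.1 (h2 ▸ hu)
        · exact hσ u (List.mem_cons_of_mem _ hu) h2
      · rw [Finset.disjoint_insert_left]
        exact ⟨hτ v List.mem_cons_self, hd⟩
      · intro a b ha hb hab
        refine h a b ?_ (fun u hu => hb u (fun h' => hu (List.mem_cons_of_mem _ h'))) hab
        intro u hu
        rw [ha u (fun h' => hu (List.mem_cons_of_mem _ h')), Finset.mem_insert]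
        constructor
        · rintro (h1 | h1)
          · exact absurd (h1 ▸ List.mem_cons_self) hu
          · exact h1
        · exact Or.inr
    · simp only [P_t]
      rw [h0]
      congr 1
      refine ih false s' Z Z' σ _ hn.2 (fun u hu => hσ u (List.mem_cons_of_mem _ hu)) ?_ ?_ ?_
      · intro u hu h1
        rcases Finset.mem_insert.mp h1 with h2 | h2
        · exact hn.1 (h2 ▸ hu)
        · exact hτ u (List.mem_cons_of_mem _ hu) h2
      · rw [Finset.disjoint_insert_right]
        exact ⟨hσ v List.mem_cons_self, hd⟩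
      · intro a b ha hb hab
        refine h a b (fun u hu => ha u (fun h' => hu (List.mem_cons_of_mem _ h'))) ?_ hab
        intro u hu
        rw [hb u (fun h' => hu (List.mem_cons_of_mem _ h')), Finset.mem_insert]
        constructor
        · rintro (h1 | h1)
          · exact absurd (h1 ▸ List.mem_cons_self) hu
          · exact h1
        · exact Or.inr

/-- insertion of a letter into the first word -/
def d1 (l : List V) (Z : Finset V → Finset V → K) (σ τ : Finset V) : K :=
  (l.map fun v => if v ∈ σ ∨ v ∈ τ then 0 else Z (insert v σ) τ).sum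

/-- insertion of a letter into the second word -/
def d2 (l : List V) (Z : Finset V → Finset V → K) (σ τ : Finset V) : K :=
  (l.map fun v => if v ∈ σ ∨ v ∈ τ then 0 else Z σ (insert v τ)).sum

theorem d1_cons (v : V) (l : List V) (Z : Finset V → Finset V → K) (σ τ : Finset V) :
    d1 (v :: l) Z σ τ = (if v ∈ σ ∨ v ∈ τ then 0 else Z (insert v σ) τ) + d1 l Z σ τ := by
  rw [d1, List.map_cons, List.sum_cons]
  rfl

theorem d1_new (v : V) (l : List V) (s s' : Bool) (Z : Finset V → Finset V → K) (σ τ : Finset V)
    (hn : (v :: l).Nodup) (hσ : ∀ u ∈ v :: l, u ∉ σ) (hτ : ∀ u ∈ v :: l, u ∉ τ) (hd : Disjoint σ τ) :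
    P l s s' (d1 (v :: l) Z) σ τ = P l s s' Z (insert v σ) τ + P l s s' (d1 l Z) σ τ := by
  rw [P_insert_left, ← P_add]
  rw [List.nodup_cons] at hn
  refine P_congr l s s' _ _ σ τ hn.2 (fun u hu => hσ u (List.mem_cons_of_mem _ hu))
    (fun u hu => hτ u (List.mem_cons_of_mem _ hu)) hd ?_
  intro a b ha hb _
  rw [d1_cons, if_neg]
  rw [ha v hn.1, hb v hn.1]
  exact not_or.mpr ⟨hσ v List.mem_cons_self, hτ v List.mem_cons_self⟩

theorem d1_old (v : V) (l : List V) (s s' : Bool) (Z : Finset V → Finset V → K) (σ τ : Finset V)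
    (hn : (v :: l).Nodup) (hσ : ∀ u ∈ l, u ∉ σ) (hτ : ∀ u ∈ l, u ∉ τ) (hv : v ∈ σ ∨ v ∈ τ)
    (hd : Disjoint σ τ) :
    P l s s' (d1 (v :: l) Z) σ τ = P l s s' (d1 l Z) σ τ := by
  rw [List.nodup_cons] at hn
  refine P_congr l s s' _ _ σ τ hn.2 hσ hτ hd ?_
  intro a b ha hb _
  rw [d1_cons, if_pos, zero_add]
  rw [ha v hn.1, hb v hn.1]
  exact hv

section char2

variable [CharP K 2]

theorem d1_W (l : List V) : ∀ (Z : Finset V → Finset V → K) (σ τ : Finset V),
    l.Nodup → (∀ u ∈ l, u ∉ σ) → (∀ u ∈ l, u ∉ τ) → Disjoint σ τ →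
    P l false false (d1 l Z) σ τ = P l false true Z σ τ ∧
    P l true false (d1 l Z) σ τ = P l false false Z σ τ + P l true true Z σ τ := by
  induction l with
  | nil =>
    intro Z σ τ _ _ _ _
    simp only [P_nil, d1]
    simp [CharTwo.add_self_eq_zero]
  | cons v l ih =>
    intro Z σ τ hn hσ hτ hd
    have hn' := (List.nodup_cons.mp hn)
    have hvσ := hσ v List.mem_cons_self
    have hvτ := hτ v List.mem_cons_self
    have hσl : ∀ u ∈ l, u ∉ σ := fun u hu => hσ u (List.mem_cons_of_mem _ hu)
    have hτl : ∀ u ∈ l, u ∉ τ := fun u hu => hτ u (List.mem_cons_of_mem _ hu)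
    have hσl' : ∀ u ∈ l, u ∉ insert v σ := by
      intro u hu h1
      rcases Finset.mem_insert.mp h1 with h2 | h2
      · exact hn'.1 (h2 ▸ hu)
      · exact hσl u hu h2
    have hτl' : ∀ u ∈ l, u ∉ insert v τ := by
      intro u hu h1
      rcases Finset.mem_insert.mp h1 with h2 | h2
      · exact hn'.1 (h2 ▸ hu)
      · exact hτl u hu h2
    have hd1 : Disjoint (insert v σ) τ := by
      rw [Finset.disjoint_insert_left]; exact ⟨hvτ, hd⟩
    have hd2 : Disjoint σ (insert v τ) := by
      rw [Finset.disjoint_insert_right]; exact ⟨hvσ, hd⟩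
    obtain ⟨a1, a2⟩ := ih Z σ τ hn'.2 hσl hτl hd
    obtain ⟨b1, b2⟩ := ih Z (insert v σ) τ hn'.2 hσl' hτl hd1
    obtain ⟨c1, c2⟩ := ih Z σ (insert v τ) hn'.2 hσl hτl' hd2
    constructor
    · rw [P_f, d1_new v l false false Z σ τ hn hσ hτ hd,
        d1_old v l true false Z (insert v σ) τ hn hσl' hτl (Or.inl (Finset.mem_insert_self v σ)) hd1,
        a1, b2, P_f]
      have := CharTwo.add_self_eq_zero (P l false false Z (insert v σ) τ)
      linear_combination this
    · rw [P_t, d1_new v l true false Z σ τ hn hσ hτ hd,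
        d1_old v l false false Z σ (insert v τ) hn hσl hτl' (Or.inr (Finset.mem_insert_self v τ)) hd2,
        a2, c1, P_f, P_t]
      ring

theorem d2_W (l : List V) (Z : Finset V → Finset V → K) (σ τ : Finset V)
    (hn : l.Nodup) (hσ : ∀ u ∈ l, u ∉ σ) (hτ : ∀ u ∈ l, u ∉ τ) (hd : Disjoint σ τ) :
    P l false true (d2 l Z) σ τ = P l false false Z σ τ + P l true true Z σ τ := by
  have h := (d1_W l (fun a b => Z b a) τ σ hn hτ hσ hd.symm).2
  have e1 : P l false true (d2 l Z) σ τ = P l true false (d1 l (fun a b => Z b a)) τ σ := by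
    rw [P_swap]
    have : (fun a b => d2 l Z b a) = d1 l (fun a b => Z b a) := by
      funext a b
      rw [d1, d2]
      congr 1
      refine List.map_congr_left fun v _ => ?_
      simp only [or_comm]
    rw [this]
    rfl
  rw [e1, h, P_swap l false false Z σ τ, P_swap l true true Z σ τ]
  simp only [Bool.not_false, Bool.not_true]
  ring

/-- the position of the cut does not matter -/
theorem cut (Z : Finset V → Finset V → K) (σ τ : Finset V) : ∀ (l2 l1 : List V),
    (∀ l3 u l4, l1 ++ l2 = l3 ++ u :: l4 → P (l3 ++ l4) false true (fun a b => Z a (insert u b)) σ τ = 0) →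
    P l1 false false (P l2 true true Z) σ τ = P (l1 ++ l2) false false Z σ τ := by
  intro l2
  induction l2 with
  | nil =>
    intro l1 _
    rw [List.append_nil]
    congr 1
  | cons u l4 ih =>
    intro l1 h
    have h1 := ih (l1 ++ [u]) (by
      intro l3 u' l4' he
      refine h l3 u' l4' ?_
      rw [← he]; simp)
    have h2 := h l1 u l4 rfl
    rw [P_append] at h2
    have e1 : l1 ++ [u] ++ l4 = l1 ++ u :: l4 := by simp
    rw [e1] at h1
    rw [← h1, P_append]
    have e2 : (P (u :: l4) true true Z) =
        fun a b => P l4 true true Z a b + P l4 false true (fun a b => Z a (insert u b)) a b := by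
      funext a b
      rw [P_t, P_insert_right]
    have e3 : P [u] false false (P l4 true true Z) = P l4 true true Z := by
      funext a b
      rw [P_f, P_nil, P_nil, if_pos rfl, if_neg (by decide), add_zero]
    have e4 : P [u] true false (P l4 true true Z) =
        P l4 true true (fun a b => Z a (insert u b)) := by
      funext a b
      rw [P_t, P_nil, P_nil, if_pos rfl, if_neg (by decide), zero_add, P_insert_right]
    rw [e2, P_add, e3, e4]
    have h3 : ∀ x y : K, x + y = 0 → x = y := fun x y hxy => CharTwo.add_eq_zero.mp hxy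
    rw [h3 _ _ h2]

end char2

/-- selection of a letter which has to be in the first word, and is added to the second word -/
theorem sel (l1 l2 : List V) (w : V) (Y : Finset V → Finset V → K) (hn : (l1 ++ w :: l2).Nodup) :
    P (l1 ++ w :: l2) false true (fun a b => if w ∈ a then Y a (insert w b) else 0) ∅ ∅ =
      P l1 false false (P l2 true true (fun a b => Y (insert w a) (insert w b))) ∅ ∅ := by
  obtain ⟨hn1, hn2, hn3⟩ := List.nodup_append.mp hn
  have hn2' := List.nodup_cons.mp hn2
  have hw1 : w ∉ l1 := fun h => hn3 w h w List.mem_cons_self rfl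
  rw [P_append]
  have z1 : ∀ (s s' : Bool) (a b : Finset V), (∀ u ∈ l2, u ∉ a) → (∀ u ∈ l2, u ∉ b) → Disjoint a b → w ∉ a →
      P l2 s s' (fun a b => if w ∈ a then Y a (insert w b) else 0) a b = 0 := by
    intro s s' a b ha hb hab hw
    refine (P_congr l2 s s' _ (fun _ _ => 0) a b hn2'.2 ha hb hab ?_).trans (P_zero l2 s s' a b)
    intro a' b' ha' _ _
    rw [if_neg]
    rw [ha' w hn2'.1]
    exact hw
  have e1 : P l1 false false (P (w :: l2) false true (fun a b => if w ∈ a then Y a (insert w b) else 0)) ∅ ∅ =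
      P l1 false false (P l2 true true (fun a b => Y (insert w a) (insert w b))) ∅ ∅ := by
    refine P_congr l1 false false _ _ ∅ ∅ hn1 (by simp) (by simp) (by simp) ?_
    intro a b ha hb hab
    have hwa : w ∉ a := by rw [ha w hw1]; simp
    have hwb : w ∉ b := by rw [hb w hw1]; simp
    have hla : ∀ u ∈ l2, u ∉ a := by
      intro u hu
      rw [ha u (fun h => hn3 u h u (List.mem_cons_of_mem _ hu) rfl)]; simp
    have hlb : ∀ u ∈ l2, u ∉ b := by
      intro u hu
      rw [hb u (fun h => hn3 u h u (List.mem_cons_of_mem _ hu) rfl)]; simp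
    rw [P_f, z1 false true a b hla hlb hab hwa, zero_add, P_insert_left]
    refine P_congr l2 true true _ _ a b hn2'.2 hla hlb hab ?_
    intro a' b' _ _ _
    rw [if_pos (Finset.mem_insert_self w a')]
  have e2 : P l1 false true (P (w :: l2) true true (fun a b => if w ∈ a then Y a (insert w b) else 0)) ∅ ∅ = 0 := by
    refine (P_congr l1 false true _ (fun _ _ => 0) ∅ ∅ hn1 (by simp) (by simp) (by simp) ?_).trans
      (P_zero l1 false true ∅ ∅)
    intro a b ha hb hab
    have hwa : w ∉ a := by rw [ha w hw1]; simp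
    have hwb : w ∉ b := by rw [hb w hw1]; simp
    have hla : ∀ u ∈ l2, u ∉ a := by
      intro u hu
      rw [ha u (fun h => hn3 u h u (List.mem_cons_of_mem _ hu) rfl)]; simp
    have hlb : ∀ u ∈ l2, u ∉ b := by
      intro u hu
      rw [hb u (fun h => hn3 u h u (List.mem_cons_of_mem _ hu) rfl)]; simp
    rw [P_t, z1 true true a b hla hlb hab hwa, zero_add]
    refine z1 false true a (insert w b) hla ?_ ?_ hwa
    · intro u hu h1
      rcases Finset.mem_insert.mp h1 with h2 | h2
      · exact hn2'.1 (h2 ▸ hu)
      · exact hlb u hu h2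
    · rw [Finset.disjoint_insert_right]; exact ⟨hwa, hab⟩
  rw [e1, e2, add_zero]

/-- a letter which gives zero can be deleted -/
theorem del (l1 l2 : List V) (w : V) (s s' : Bool) (Z : Finset V → Finset V → K)
    (hZ : ∀ a b, w ∈ a ∨ w ∈ b → Z a b = 0) (σ τ : Finset V) :
    P (l1 ++ w :: l2) s s' Z σ τ = P (l1 ++ l2) s s' Z σ τ := by
  rw [P_append, P_append]
  have h0 : ∀ (l : List V) (s s' : Bool) (a b : Finset V), w ∈ a ∨ w ∈ b → P l s s' Z a b = 0 := by
    intro l
    induction l with
    | nil => intro s s' a b h; rw [P_nil, hZ a b h]; simp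
    | cons v l ih =>
      intro s s' a b h
      cases s
      · rw [P_f, ih _ _ _ _ h, ih _ _ _ _ (h.imp (Finset.mem_insert_of_mem) id), add_zero]
      · rw [P_t, ih _ _ _ _ h, ih _ _ _ _ (h.imp id (Finset.mem_insert_of_mem)), add_zero]
  have e1 : P (w :: l2) false s' Z = P l2 false s' Z := by
    funext a b
    rw [P_f, h0 l2 _ _ _ _ (Or.inl (Finset.mem_insert_self w a)), add_zero]
  have e2 : P (w :: l2) true s' Z = P l2 true s' Z := by
    funext a b
    rw [P_t, h0 l2 _ _ _ _ (Or.inr (Finset.mem_insert_self w b)), add_zero]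
  rw [e1, e2]

theorem only_empty (l : List V) (s : Bool) (Z : Finset V → Finset V → K)
    (hZ : ∀ a b, a ≠ ∅ ∨ b ≠ ∅ → Z a b = 0) : P l s s Z ∅ ∅ = Z ∅ ∅ := by
  induction l with
  | nil => rw [P_nil, if_pos rfl]
  | cons w l ih =>
    have := del [] l w s s Z (fun a b h => hZ a b (by
      rcases h with h | h
      · exact Or.inl (Finset.ne_empty_of_mem h)
      · exact Or.inr (Finset.ne_empty_of_mem h))) ∅ ∅
    rw [List.nil_append, List.nil_append] at this
    rw [this, ih]

end words

end Pool.Agent.H7.RC
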